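import Pool.Agent.H.MP_6a1d6a_ag.UM.C9b
import Pool.Agent.H.MP_6a1d6a_ag.UM.C9d
import Pool.Agent.H.MP_6a1d6a_ag.DM.A5

/-!
MP_6a1d6a_ag/UM, module Base2: auxiliary definitions for the proof.

Let `σ` be a meromorphic field along `ν : C → Y`. At a point `c` with `ν c ∉ P` (a point of the cone charts) it has an
exponent `A ≥ 1` (`Ex`): `A = 1` if its length `nu` is not zero for `c' ≠ c` near `c`, and `A > 1` if it is in the kernel
(`kr`) and the conical length `ku` with the exponent `A` is not zero for `c' ≠ c` near `c`. The logarithm `pot` of this length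
has the local form of `sum_le_approx`. In the disc charts the function is `uD` (`- log` of the Hartogs radius), and the
two functions are close up to the constant `(1/A) log (1/T)`.
-/

set_option autoImplicit false

open Set Filter Topology Metric
open scoped ContDiff Manifold

namespace Pool.Agent.Nef6.UM

open Pool.Agent.Nef6.SN
open Pool.Agent.Nef6.SM (loc_curve A5Loc)
open Pool.Agent.Nef6.DM (disc IsSemi InU rad)

variable {n : ℕ} {Y : Type} [TopologicalSpace Y] [ChartedSpace (E n) Y]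

open Classical in
/-- the length (`A = 1`) or the conical length -/
noncomputable def Cone.L (X : Cone n Y) (A : ℝ) (φ : Chart n Y) (x v : E n) : ℝ :=
  if A = 1 then X.N φ x v else X.K A φ x v

/-- the vector is in the kernel if `A ≠ 1` -/
def Cone.Kr (X : Cone n Y) (A : ℝ) (φ : Chart n Y) (x v : E n) : Prop := A = 1 ∨ X.Ker A φ x v

section
variable {C : Type} [TopologicalSpace C]

/-- the exponent of the field at `c` is `A` -/
def Ex (X : Cone n Y) (A : ℝ) (ν : C → Y) (σ : Chart n Y → C → E n) (c : C) : Prop :=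
  (A = 1 ∧ ∀ᶠ c' in 𝓝[≠] c, nu X ν σ c' ≠ 0) ∨
    (1 < A ∧ ∀ᶠ c' in 𝓝[≠] c, kr X A ν σ c' ∧ ku X A ν σ c' ≠ 0)

open Classical in
/-- the logarithm of the length of the field -/
noncomputable def pot (X : Cone n Y) (A : ℝ) (ν : C → Y) (σ : Chart n Y → C → E n) (c : C) : ℝ :=
  if A = 1 then Real.log (nu X ν σ c) else Real.log (ku X A ν σ c)

variable [ChartedSpace ℂ C]

/-- `g` represents the field `σ` near `c` in the chart `φ`, on the ball of radius `R` (see `loc_curve`) -/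
structure Rep (ν : C → Y) (σ : Chart n Y → C → E n) (o : C → ℤ) (c : C) (φ : Chart n Y) (R : ℝ)
    (g : ℂ → E n) : Prop where
  hR : 0 < R
  sub : ball (chartAt ℂ c c) R ⊆ (chartAt ℂ c).target
  loc : ∀ z ∈ ball (chartAt ℂ c c) R, ν ((chartAt ℂ c).symm z) ∈ φ.source ∧
    AnalyticAt ℂ (fun z => φ (ν ((chartAt ℂ c).symm z))) z ∧ AnalyticAt ℂ g z ∧ g z ≠ 0 ∧
    (z ≠ chartAt ℂ c c →
      σ φ ((chartAt ℂ c).symm z) = (z - chartAt ℂ c c) ^ (o c) • g z ∧
      o ((chartAt ℂ c).symm z) = 0)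

theorem Rep.mono {ν : C → Y} {σ : Chart n Y → C → E n} {o : C → ℤ} {c : C} {φ : Chart n Y} {R : ℝ}
    {g : ℂ → E n} (H : Rep ν σ o c φ R g) {R' : ℝ} (h0 : 0 < R') (h : R' ≤ R) :
    Rep ν σ o c φ R' g :=
  ⟨h0, (ball_subset_ball h).trans H.sub, fun z hz => H.loc z (ball_subset_ball h hz)⟩

theorem tend_symm (c : C) {z : ℂ} (hz : z ∈ (chartAt ℂ c).target) :
    Tendsto (chartAt ℂ c).symm (𝓝[≠] z) (𝓝[≠] ((chartAt ℂ c).symm z)) := by
  refine tendsto_nhdsWithin_iff.2 ⟨?_, ?_⟩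
  · exact ((chartAt ℂ c).continuousAt_symm hz).tendsto.mono_left nhdsWithin_le_nhds
  · have h1 : ∀ᶠ z' in 𝓝[≠] z, z' ∈ (chartAt ℂ c).target :=
      nhdsWithin_le_nhds ((chartAt ℂ c).open_target.mem_nhds hz)
    filter_upwards [h1, self_mem_nhdsWithin] with z' h2 h3 h4
    exact h3 ((chartAt ℂ c).symm.injOn h2 hz h4)

theorem tend_chart (c : C) {y : C} (hy : y ∈ (chartAt ℂ c).source) :
    Tendsto (chartAt ℂ c) (𝓝[≠] y) (𝓝[≠] (chartAt ℂ c y)) := by
  refine tendsto_nhdsWithin_iff.2 ⟨?_, ?_⟩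
  · exact ((chartAt ℂ c).continuousAt hy).tendsto.mono_left nhdsWithin_le_nhds
  · have h1 : ∀ᶠ z' in 𝓝[≠] y, z' ∈ (chartAt ℂ c).source :=
      nhdsWithin_le_nhds ((chartAt ℂ c).open_source.mem_nhds hy)
    filter_upwards [h1, self_mem_nhdsWithin] with z' h2 h3 h4
    exact h3 ((chartAt ℂ c).injOn h2 hy h4)

variable [IsManifold 𝓘(ℂ, E n) ω Y] [IsManifold 𝓘(ℂ) ω C]

theorem rep_exists {ν : C → Y} (hν : ContMDiff 𝓘(ℂ) 𝓘(ℂ, E n) ω ν) {σ : Chart n Y → C → E n}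
    {o : C → ℤ} (hσ : IsMeroField ν σ o) (c : C) {φ : Chart n Y} (hφ : φ ∈ Charts (E n) Y)
    (hc : ν c ∈ φ.source) {p : C → Prop} (hp : ∀ᶠ c' in 𝓝[≠] c, p c') :
    ∃ (R : ℝ) (g : ℂ → E n), Rep ν σ o c φ R g ∧
      ∀ z ∈ ball (chartAt ℂ c c) R, z ≠ chartAt ℂ c c → p ((chartAt ℂ c).symm z) := by
  obtain ⟨R₁, g, hR₁, hsub, hloc⟩ := loc_curve hν hσ c hφ hc
  have h1 := tend_symm c ((chartAt ℂ c).map_source (mem_chart_source ℂ c))
  rw [(chartAt ℂ c).left_inv (mem_chart_source ℂ c)] at h1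
  obtain ⟨R₂, hR₂, h2⟩ := Metric.mem_nhdsWithin_iff.1 (h1.eventually hp)
  refine ⟨min R₁ R₂, g, ⟨lt_min hR₁ hR₂, (ball_subset_ball (min_le_left _ _)).trans hsub,
    fun z hz => hloc z (ball_subset_ball (min_le_left _ _) hz)⟩, fun z hz hne => ?_⟩
  exact h2 ⟨ball_subset_ball (min_le_right _ _) hz, hne⟩

end

/-- the data at a point of a disc chart -/
structure DD (X : Mixed n Y) {C : Type} [TopologicalSpace C] [ChartedSpace ℂ C] (ν : C → Y)
    (σ : Chart n Y → C → E n) (o : C → ℤ) (c : C) (k : X.D) (R : ℝ) (g : ℂ → E n) (Q : ℝ) :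
    Prop where
  hR : 0 < R
  hQ : 0 < Q
  rep : Rep ν σ o c (X.dch k) (2 * R) g
  inU : ∀ z ∈ closedBall (chartAt ℂ c c) R,
    InU (X.dch k).target (X.dch k (ν ((chartAt ℂ c).symm z))) (g z) Q

/-- the function of a point of a disc chart -/
noncomputable def uD (X : Mixed n Y) {C : Type} [TopologicalSpace C] [ChartedSpace ℂ C] (ν : C → Y)
    (o : C → ℤ) (c : C) (k : X.D) (g : ℂ → E n) (Q T : ℝ) (y : C) : ℝ :=
  o c * Real.log ‖chartAt ℂ c y - chartAt ℂ c c‖ +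
    - Real.log (rad (X.F k) T (X.dch k (ν y)) (g (chartAt ℂ c y)) Q)

/-- the data at a point which is not in a disc chart -/
structure CD (X : Mixed n Y) {C : Type} [TopologicalSpace C] [ChartedSpace ℂ C] (ν : C → Y)
    (σ : Chart n Y → C → E n) (o : C → ℤ) (c : C) (A R : ℝ) : Prop where
  hR : 0 < R
  hA : 1 ≤ A
  sub : ball (chartAt ℂ c c) (2 * R) ⊆ (chartAt ℂ c).target
  zero : ∀ z ∈ ball (chartAt ℂ c c) (2 * R), z ≠ chartAt ℂ c c → o ((chartAt ℂ c).symm z) = 0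
  ex : ∀ z ∈ ball (chartAt ℂ c c) (2 * R), z ≠ chartAt ℂ c c →
    ν ((chartAt ℂ c).symm z) ∉ X.P ∧ Ex X.toCone A ν σ ((chartAt ℂ c).symm z)
  loc : A5Loc (fun z => pot X.toCone A ν σ ((chartAt ℂ c).symm z)) (chartAt ℂ c c) R (o c)
  alt : (∃ φ ∈ Charts (E n) Y, ∃ g, Rep ν σ o c φ (2 * R) g ∧
      ∀ z ∈ ball (chartAt ℂ c c) (2 * R), z ≠ chartAt ℂ c c →
        X.toCone.Kr A φ (φ (ν ((chartAt ℂ c).symm z))) (g z) ∧
        X.toCone.L A φ (φ (ν ((chartAt ℂ c).symm z))) (g z) ≠ 0) ∨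
    ∀ z ∈ ball (chartAt ℂ c c) (2 * R), ∀ k, ν ((chartAt ℂ c).symm z) ∉ (X.dch k).source

end Pool.Agent.Nef6.UM
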