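import Pool.Agent.H.MP_6a1d6a_ag.SN.Base
import Pool.Agent.H.MP_6a1d6a_ag.DM.Base

/-!
MP_6a1d6a_ag, metrics of nonpositive curvature with two kinds of charts: definitions.

(1) Cone charts (`Cone`): the metric is the pull-back of a rotationally invariant nondegenerate metric by `x ↦ (x i ^ a i)`,
`a i ≥ 1` arbitrary. `P` is the set of the points which are not in a cone chart.
(2) Disc charts: the metric is continuous with plurisubharmonic logarithm, and may vanish on arbitrary sets; the maximal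
lengths of the straight discs are asymptotically independent of the chart (`StabAt`).
(3) The other points are isolated in `P` (`Exc`).
-/

set_option autoImplicit false

open Set Filter Topology Metric
open scoped ContDiff Manifold

namespace Pool.Agent.Nef6.UM

open Pool.Agent.Nef6.SN
open Pool.Agent.Nef6.DM (disc IsSemi InU rad)

/-- Cone charts `ch j` with the metrics `pull (a j) (h j)`; `P` is the complement of the union of their domains. -/
structure Cone (N : ℕ) (Y : Type) [TopologicalSpace Y] [ChartedSpace (E N) Y] where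
  P : Set Y
  J : Type
  ch : J → Chart N Y
  a : J → Fin N → ℝ
  U : J → Set (E N)
  h : J → E N → E N → ℝ
  hol : ∀ j, ch j ∈ Charts (E N) Y
  cover : ∀ y, y ∉ P ↔ ∃ j, y ∈ (ch j).source
  metric : ∀ j, IsMetric (h j) (U j)
  maps : ∀ j, ∀ x ∈ (ch j).target, pt (a j) x ∈ U j
  one_le : ∀ j i, 1 ≤ a j i
  rot : ∀ j, RotInv (a j) (h j) (U j)
  compat : ∀ j k, ∀ y ∈ (ch j).source, y ∈ (ch k).source → ∀ v,
    pull (a k) (h k) (ch k y) (fderiv ℂ (ch k ∘ (ch j).symm) (ch j y) v) =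
      pull (a j) (h j) (ch j y) v

variable {N : ℕ} {Y : Type} [TopologicalSpace Y] [ChartedSpace (E N) Y]

/-- `p` is an isolated point of `P`, and near `p` the cone angles are `≤ 4π` or the conical metrics are bounded. -/
def Cone.Exc (X : Cone N Y) (p : Y) : Prop :=
  (∃ W, IsOpen W ∧ p ∈ W ∧ W ∩ X.P ⊆ {p}) ∧
  ((∃ W, IsOpen W ∧ p ∈ W ∧ ∀ j, ∀ y ∈ W, y ∈ (X.ch j).source → ∀ i, X.ch j y i = 0 → X.a j i ≤ 2) ∨
    ∃ φ ∈ Charts (E N) Y, p ∈ φ.source ∧ ∃ C : ℝ, 0 ≤ C ∧ ∀ j, ∀ y ∈ φ.source, y ∈ (X.ch j).source →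
      ∀ A : ℝ, 1 < A → ∀ v, KerA (X.a j) A (X.ch j y) (fderiv ℂ (X.ch j ∘ φ.symm) (φ y) v) →
        knA (X.a j) A (X.h j) (X.ch j y) (fderiv ℂ (X.ch j ∘ φ.symm) (φ y) v) ≤ C * ‖v‖)

/-- The maximal length, for the metric `h'`, of a straight disc of the chart `ψ` is near `y` and for small radii at most that,
for the metric `h`, of the disc of the chart `φ` with the same tangent vector, up to a factor near `1`. -/
def StabAt (φ : Chart N Y) (h : E N → E N → ℝ) (ψ : Chart N Y) (h' : E N → E N → ℝ) (y : Y) : Prop :=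
  ∀ ε > 0, ∃ W, IsOpen W ∧ y ∈ W ∧ ∃ r₀ > 0, ∀ y' ∈ W, y' ∈ φ.source → y' ∈ ψ.source →
    ∀ v, ‖v‖ = 1 → ∀ r, 0 < r → r < r₀ →
      disc h' (ψ y') (fderiv ℂ (ψ ∘ φ.symm) (φ y') v) r ≤ (1 + ε) * disc h (φ y') v r

/-- Cone charts and disc charts `dch k` with the metrics `F k`. -/
structure Mixed (N : ℕ) (Y : Type) [TopologicalSpace Y] [ChartedSpace (E N) Y] extends Cone N Y where
  D : Type
  dch : D → Chart N Y
  F : D → E N → E N → ℝ
  dhol : ∀ k, dch k ∈ Charts (E N) Y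
  semi : ∀ k, IsSemi (F k) (dch k).target
  stab : ∀ k l, ∀ y ∈ (dch k).source, y ∈ (dch l).source → StabAt (dch k) (F k) (dch l) (F l) y
  stabCD : ∀ j k, ∀ y ∈ (ch j).source, y ∈ (dch k).source →
    StabAt (ch j) (pull (a j) (h j)) (dch k) (F k) y
  stabDC : ∀ j k, ∀ y ∈ (ch j).source, y ∈ (dch k).source →
    StabAt (dch k) (F k) (ch j) (pull (a j) (h j)) y
  exc : ∀ p ∈ P, (∃ k, p ∈ (dch k).source) ∨
    (toCone.Exc p ∧ ∃ W, IsOpen W ∧ p ∈ W ∧ ∀ k, ∀ y ∈ W, y ∉ (dch k).source)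

end Pool.Agent.Nef6.UM
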