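import Pool.Agent.H.MP_6a1d6a_ag.SM.C3
import Pool.Agent.H.MP_6a1d6a_ag.UM.Base2

/-!
MP_6a1d6a_ag/UM, module C4: a holomorphic map from a connected Riemann surface is constant or locally nonconstant. Adapt `P_alt` in `SN/C4.lean` (copy the private lemmas `C4_chart`, `C4_loc`, `C4_clopen`).

By `C4_clopen` the set `{c | ∀ᶠ c' in 𝓝 c, ν c' = ν c}` is empty or everything. If it is everything, `ν` is locally constant, so constant (as in `P_alt`). If it is empty: near `c`, in the chart, `z ↦ φ (ν (χ.symm z))` is analytic and not constant near `z₀`, so `≠ φ (ν c)` on a punctured neighbourhood (`AnalyticAt.eventually_eq_or_eventually_ne`), as in `P_alt`.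
-/

set_option autoImplicit false

open Set Filter Topology Metric MeasureTheory
open scoped ContDiff Manifold

namespace Pool.Agent.Nef6.UM

open Pool.Agent.Nef6.SN
open Pool.Agent.Nef6.SM (loc_curve A5Loc)
open Pool.Agent.Nef6.DM (disc IsSemi InU rad Good)

variable {n : ℕ} {Y : Type} [TopologicalSpace Y] [ChartedSpace (E n) Y]
  [IsManifold 𝓘(ℂ, E n) ω Y]
  {C : Type} [TopologicalSpace C] [ChartedSpace ℂ C] [IsManifold 𝓘(ℂ) ω C]

omit [IsManifold 𝓘(ℂ) ω C] in
private theorem C4_chart (c : C) {R : ℝ} (hR : 0 < R) :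
    (chartAt ℂ c).source ∩ chartAt ℂ c ⁻¹' ball (chartAt ℂ c c) R ∈ 𝓝 c := by
  refine ((chartAt ℂ c).isOpen_inter_preimage isOpen_ball).mem_nhds ⟨mem_chart_source ℂ c, ?_⟩
  exact mem_ball_self hR

private theorem C4_loc {ν : C → Y} (hν : ContMDiff 𝓘(ℂ) 𝓘(ℂ, E n) ω ν) (c : C) :
    ∃ R : ℝ, 0 < R ∧ ball (chartAt ℂ c c) R ⊆ (chartAt ℂ c).target ∧
      (∀ z ∈ ball (chartAt ℂ c c) R, ν ((chartAt ℂ c).symm z) ∈ (chartAt (E n) (ν c)).source) ∧
      AnalyticOnNhd ℂ (fun z => chartAt (E n) (ν c) (ν ((chartAt ℂ c).symm z)))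
        (ball (chartAt ℂ c c) R) := by
  have hφ : chartAt (E n) (ν c) ∈ Charts (E n) Y :=
    IsManifold.chart_mem_maximalAtlas (I := 𝓘(ℂ, E n)) (n := ω) (ν c)
  have hνφ : ν c ∈ (chartAt (E n) (ν c)).source := mem_chart_source (E n) (ν c)
  set φ := chartAt (E n) (ν c) with hφdef
  have hχ : chartAt ℂ c ∈ Charts ℂ C := IsManifold.chart_mem_maximalAtlas (I := 𝓘(ℂ)) (n := ω) c
  have hct : chartAt ℂ c c ∈ (chartAt ℂ c).target := mem_chart_target ℂ c
  have hsymm : ContinuousAt (chartAt ℂ c).symm (chartAt ℂ c c) :=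
    (chartAt ℂ c).symm.continuousAt hct
  have hsc : (chartAt ℂ c).symm (chartAt ℂ c c) = c :=
    (chartAt ℂ c).left_inv (mem_chart_source ℂ c)
  have hT : ∀ᶠ z in 𝓝 (chartAt ℂ c c), z ∈ (chartAt ℂ c).target :=
    (chartAt ℂ c).open_target.mem_nhds hct
  have hνs : ContinuousAt (fun z => ν ((chartAt ℂ c).symm z)) (chartAt ℂ c c) := by
    refine ContinuousAt.comp' ?_ hsymm
    exact hν.continuous.continuousAt
  have hS : ∀ᶠ z in 𝓝 (chartAt ℂ c c), ν ((chartAt ℂ c).symm z) ∈ φ.source := by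
    refine hνs.eventually_mem ?_
    rw [hsc]
    exact φ.open_source.mem_nhds hνφ
  obtain ⟨R, hR, hball⟩ := Metric.eventually_nhds_iff_ball.1 (hT.and hS)
  have hsub : ball (chartAt ℂ c c) R ⊆ (chartAt ℂ c).target := fun z hz => (hball z hz).1
  have hxm : ContMDiffOn 𝓘(ℂ) 𝓘(ℂ, E n) ω
      (fun z => φ (ν ((chartAt ℂ c).symm z))) (ball (chartAt ℂ c c) R) := by
    have h1 : ContMDiffOn 𝓘(ℂ) 𝓘(ℂ) ω (chartAt ℂ c).symm (ball (chartAt ℂ c c) R) :=
      (contMDiffOn_symm_of_mem_maximalAtlas hχ).mono hsub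
    have h2 : ContMDiffOn 𝓘(ℂ) 𝓘(ℂ, E n) ω
        (fun z => ν ((chartAt ℂ c).symm z)) (ball (chartAt ℂ c c) R) := hν.comp_contMDiffOn h1
    have h3 : ContMDiffOn 𝓘(ℂ, E n) 𝓘(ℂ, E n) ω φ φ.source :=
      contMDiffOn_of_mem_maximalAtlas hφ
    exact h3.comp h2 fun z hz => (hball z hz).2
  have hxd : DifferentiableOn ℂ (fun z => φ (ν ((chartAt ℂ c).symm z)))
      (ball (chartAt ℂ c c) R) :=
    (contMDiffOn_iff_contDiffOn.1 hxm).differentiableOn (by simp)
  exact ⟨R, hR, hsub, fun z hz => (hball z hz).2, hxd.analyticOnNhd isOpen_ball⟩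

private theorem C4_clopen {ν : C → Y} (hν : ContMDiff 𝓘(ℂ) 𝓘(ℂ, E n) ω ν) :
    IsClopen {c : C | ∀ᶠ c' in 𝓝 c, ν c' = ν c} := by
  constructor
  · rw [← closure_subset_iff_isClosed]
    intro c hc
    obtain ⟨R, hR, hsub, hsrc, han⟩ := C4_loc hν c
    obtain ⟨c', ⟨hc's, hc'b⟩, hc'⟩ := mem_closure_iff_nhds.1 hc _ (C4_chart c hR)
    have hc'A : ∀ᶠ c'' in 𝓝 c', ν c'' = ν c' := hc'
    have hz' : chartAt ℂ c c' ∈ ball (chartAt ℂ c c) R := hc'b
    have hinv : (chartAt ℂ c).symm (chartAt ℂ c c') = c' := (chartAt ℂ c).left_inv hc's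
    have hcont : ContinuousAt (chartAt ℂ c).symm (chartAt ℂ c c') :=
      (chartAt ℂ c).symm.continuousAt (hsub hz')
    have hev : (fun z => chartAt (E n) (ν c) (ν ((chartAt ℂ c).symm z))) =ᶠ[𝓝 (chartAt ℂ c c')]
        fun _ => chartAt (E n) (ν c) (ν c') := by
      have h1 : ∀ᶠ z in 𝓝 (chartAt ℂ c c'), ν ((chartAt ℂ c).symm z) = ν c' := by
        have h2 : Tendsto (chartAt ℂ c).symm (𝓝 (chartAt ℂ c c')) (𝓝 c') := by
          have h3 := hcont.tendsto
          rwa [hinv] at h3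
        exact h2.eventually hc'A
      filter_upwards [h1] with z hz
      rw [hz]
    have heq := han.eqOn_of_preconnected_of_eventuallyEq analyticOnNhd_const
      (convex_ball (chartAt ℂ c c) R).isPreconnected hz' hev
    have hall : ∀ z ∈ ball (chartAt ℂ c c) R, ν ((chartAt ℂ c).symm z) = ν c' := by
      intro z hz
      have h1 : chartAt (E n) (ν c) (ν ((chartAt ℂ c).symm z)) =
          chartAt (E n) (ν c) (ν c') := heq hz
      have h2 := hsrc _ hz'
      rw [hinv] at h2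
      exact (chartAt (E n) (ν c)).injOn (hsrc z hz) h2 h1
    have hc0 : ν c = ν c' := by
      have h1 := hall _ (mem_ball_self hR)
      rwa [(chartAt ℂ c).left_inv (mem_chart_source ℂ c)] at h1
    show ∀ᶠ c'' in 𝓝 c, ν c'' = ν c
    filter_upwards [C4_chart c hR] with c'' hc''
    have h1 := hall _ hc''.2
    rw [(chartAt ℂ c).left_inv hc''.1] at h1
    rw [h1, hc0]
  · rw [isOpen_iff_mem_nhds]
    intro c hc
    have hc' : ∀ᶠ c' in 𝓝 c, ν c' = ν c := hc
    filter_upwards [eventually_eventually_nhds.2 hc', hc'] with c' h1 h2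
    show ∀ᶠ c'' in 𝓝 c', ν c'' = ν c'
    rw [h2]
    exact h1

theorem const_alt [ConnectedSpace C] {ν : C → Y} (hν : ContMDiff 𝓘(ℂ) 𝓘(ℂ, E n) ω ν) :
    (∀ c, ∀ᶠ c' in 𝓝[≠] c, ν c' ≠ ν c) ∨ ∃ p, ∀ c, ν c = p := by
  rcases isClopen_iff.1 (C4_clopen hν) with h | h
  · left
    intro c
    obtain ⟨R, hR, hsub, hsrc, han⟩ := C4_loc hν c
    have hcA : ¬ ∀ᶠ c' in 𝓝 c, ν c' = ν c := by
      intro h1
      have h2 : c ∈ {c : C | ∀ᶠ c' in 𝓝 c, ν c' = ν c} := h1
      rw [h] at h2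
      exact h2
    have hcc : ContinuousAt (chartAt ℂ c) c :=
      (chartAt ℂ c).continuousAt (mem_chart_source ℂ c)
    rcases (han _ (mem_ball_self hR)).eventually_eq_or_eventually_ne
      (analyticAt_const (v := chartAt (E n) (ν c) (ν c))) with h1 | h1
    · exfalso
      apply hcA
      have h2 := hcc.tendsto.eventually h1
      filter_upwards [h2, C4_chart c hR] with c' h3 h4
      rw [(chartAt ℂ c).left_inv h4.1] at h3
      have h5 := hsrc _ h4.2
      rw [(chartAt ℂ c).left_inv h4.1] at h5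
      exact (chartAt (E n) (ν c)).injOn h5 (mem_chart_source (E n) (ν c)) h3
    · have h2 : ∀ᶠ z in 𝓝 (chartAt ℂ c c), z ≠ chartAt ℂ c c →
          chartAt (E n) (ν c) (ν ((chartAt ℂ c).symm z)) ≠ chartAt (E n) (ν c) (ν c) :=
        eventually_nhdsWithin_iff.1 h1
      have h3 := hcc.tendsto.eventually h2
      rw [eventually_nhdsWithin_iff]
      filter_upwards [h3, C4_chart c hR] with c' h4 h5 h7 h9
      refine h4 ?_ ?_
      · intro h10
        exact h7 ((chartAt ℂ c).injOn h5.1 (mem_chart_source ℂ c) h10)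
      · rw [(chartAt ℂ c).left_inv h5.1, h9]
  · right
    have hl : IsLocallyConstant ν := by
      rw [IsLocallyConstant.iff_eventually_eq]
      intro c
      have h2 : c ∈ {c : C | ∀ᶠ c' in 𝓝 c, ν c' = ν c} := by
        rw [h]
        exact mem_univ c
      exact h2
    obtain ⟨c₀⟩ := (inferInstance : Nonempty C)
    exact ⟨ν c₀, fun c => hl.apply_eq_of_preconnectedSpace c c₀⟩

end Pool.Agent.Nef6.UM
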