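import Pool.Agent.H.MP_6a1d6a_ag.UM.C2
import Pool.Agent.H.MP_6a1d6a_ag.SM.C3

/-!
MP_6a1d6a_ag/UM, module C5: the length `nu c` of the field `σ` at the point `c` of the curve, and the alternative: its zeros are isolated off
`ν⁻¹ P`, or it vanishes identically.

`nu_eq`: transformation rule of `σ` (first part of `IsMeroField`) and `N_change`. `nu_loc`: `nu_eq`, `loc_curve`, `N_smul`, `norm_zpow`.
`T_alt`. For `c` with `ν c ∉ P`: by `loc_curve` and `N_dich` (with `φ = chartAt (E n) (ν c)`, `x z = φ (ν (χ.symm z))`, `v = g`) and `nu_loc`, either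
`nu = 0` on a punctured neighbourhood of `c` or `nu ≠ 0` on a punctured neighbourhood (transport between `𝓝[≠] c` and `𝓝[≠] (χ c)` by the chart).
Let `T = {c : ∀ᶠ c' in 𝓝[≠] c, nu c' = 0}`. `T` is open (`eventually_eventually_nhdsWithin`...). Its complement is open: let `c ∉ T`. If `ν c ∉ P`, then `nu ≠ 0` on a punctured
neighbourhood `Q` of `c`, and no point of `Q` is in `T` (the point `c'` has no punctured neighbourhood where `nu = 0`, as `𝓝[≠] c'` is nontrivial). If `ν c ∈ P`: take `R`, `g` from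
`loc_curve`, `R` so small that `ν (χ.symm z) ∉ P` for `z ≠ z₀` in the ball (`hP`). The punctured ball is preconnected (it is the image of the convex set
`{w : Re w < log R}` under `w ↦ z₀ + exp w`). The sets `T` and its complement, pulled back to the punctured ball by `χ.symm`, are both open there (by the first
case). So if some point of the punctured ball is in `T`, all are; then for each `z'` of the punctured ball the continuous function
`z ↦ N φ (x z) (g z)` (`N_cont`) vanishes on a punctured neighbourhood of `z'`, so at `z'`, so `nu = 0` at `χ.symm z'` (`nu_loc`); thus `c ∈ T`, a contradiction. So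
`T = ∅` or `T = univ`. If `T = ∅` the first alternative holds by the dichotomy above.
-/

set_option autoImplicit false

open Set Filter Topology Metric
open scoped ContDiff Manifold

namespace Pool.Agent.Nef6.UM

open Pool.Agent.Nef6.SN

open Pool.Agent.Nef6.SM (loc_curve)

variable {n : ℕ} {Y : Type} [TopologicalSpace Y] [ChartedSpace (E n) Y]

/-- the length of `σ` at `c` -/
noncomputable def nu (X : Cone n Y) {C : Type} (ν : C → Y) (σ : Chart n Y → C → E n)
    (c : C) : ℝ :=
  X.N (chartAt (E n) (ν c)) (chartAt (E n) (ν c) (ν c)) (σ (chartAt (E n) (ν c)) c)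

variable [IsManifold 𝓘(ℂ, E n) ω Y] (X : Cone n Y)
  {C : Type} [TopologicalSpace C] [ChartedSpace ℂ C] [IsManifold 𝓘(ℂ) ω C]

omit [IsManifold 𝓘(ℂ) ω C] in
theorem nu_eq {ν : C → Y} {σ : Chart n Y → C → E n} {o : C → ℤ} (hσ : IsMeroField ν σ o)
    {φ : Chart n Y} (hφ : φ ∈ Charts (E n) Y) {c : C} (hc : ν c ∈ φ.source) (hP : ν c ∉ X.P) :
    nu X ν σ c = X.N φ (φ (ν c)) (σ φ c) := by
  have hψ : chartAt (E n) (ν c) ∈ Charts (E n) Y := IsManifold.chart_mem_maximalAtlas _
  rw [nu, hσ.1 φ hφ _ hψ c hc (mem_chart_source _ _)]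
  exact N_change X hφ hψ hc (mem_chart_source _ _) hP _

omit [IsManifold 𝓘(ℂ) ω C] in
/-- the length of `σ` at a point where `σ φ = t • v` -/
theorem nu_loc {ν : C → Y} {σ : Chart n Y → C → E n} {o : C → ℤ} (hσ : IsMeroField ν σ o)
    {φ : Chart n Y} (hφ : φ ∈ Charts (E n) Y) {c : C} (hc : ν c ∈ φ.source) (hP : ν c ∉ X.P)
    {t : ℂ} {k : ℤ} {v : E n} (h : σ φ c = t ^ k • v) :
    nu X ν σ c = ‖t‖ ^ k * X.N φ (φ (ν c)) v := by
  rw [nu_eq X hσ hφ hc hP, h, N_smul X hφ (φ.map_source hc) (by rw [φ.left_inv hc]; exact hP),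
    norm_zpow]


end Pool.Agent.Nef6.UM
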