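import Pool.Agent.H.MP_6a1d6a_ag.UM.Base2
import Pool.Agent.H.MP_6a1d6a_ag.UM.C8
import Pool.Agent.H.MP_6a1d6a_ag.SM.A4
import Pool.Agent.H.MP_6a1d6a_ag.SM.A5

/-!
MP_6a1d6a_ag/UM, module L2: the form of `log ku` near a point, in the second case. Adapt the proof of `case_kernel` in `SN/C10.lean` (with its private lemmas `C10_tend`, `C10_ae`, `C10_chart`): there the same is proved for each point `c`.

Changes: the hypotheses are only given near `c`. Use `rep_exists` (`UM/Base2`) instead of `loc_curve`, with `p c' := ν c' ∉ X.P ∧ ∀ᶠ c'' in 𝓝[≠] c', kr X A ν σ c'' ∧ ku X A ν σ c'' ≠ 0`; then for all `z'` in the ball of radius `R₁` with `ν (χ.symm z') ∉ X.P`: `∀ᶠ c'' in 𝓝[≠] (χ.symm z'), kr X A ν σ c'' ∧ ku X A ν σ c'' ≠ 0`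
(for `z' ≠ z₀` by `p`, for `z' = z₀` by `hT0`; this replaces `hAc`), and `∀ᶠ c'' in 𝓝[≠] (χ.symm z'), ν c'' ∉ X.P` (`hP` for `z' = z₀`; for `z' ≠ z₀` since `p` holds at all points `χ.symm z`, `z ≠ z₀` in the ball; or since the complement of `X.P` is open by `X.cover`). In `C10_chart`, `bound_P` now needs `X.Exc p` (`hE`).
The conclusion is the existence of `R > 0` and of `A5Loc ..` (`⟨fun z => Real.log (f z), wform_log .., ..⟩`, the last two components of what `case_kernel` provides).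
-/

set_option autoImplicit false

open Set Filter Topology Metric MeasureTheory
open scoped ContDiff Manifold

namespace Pool.Agent.Nef6.UM

open Pool.Agent.Nef6.SN
open Pool.Agent.Nef6.SM (loc_curve PSub WForm wform_log A5Loc)
open Pool.Agent.Nef6.DM (disc IsSemi InU rad Good)

variable {n : ℕ} {Y : Type} [TopologicalSpace Y] [ChartedSpace (E n) Y]
  [IsManifold 𝓘(ℂ, E n) ω Y] (X : Cone n Y)
  {C : Type} [TopologicalSpace C] [ChartedSpace ℂ C] [IsManifold 𝓘(ℂ) ω C]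

private theorem L2_ae {f : ℂ → ℝ} {U : Set ℂ} (hU : IsOpen U)
    (hz : ∀ z ∈ U, ∀ᶠ z' in 𝓝[≠] z, f z' ≠ 0) : ∀ᵐ z : ℂ, z ∈ U → f z ≠ 0 := by
  rw [← ae_restrict_iff' hU.measurableSet]
  have h1 : {z : ℂ | f z ≠ 0} ∈ codiscreteWithin U := by
    rw [mem_codiscreteWithin_iff_forall_mem_nhdsNE]
    intro x hx
    filter_upwards [hz x hx] with y hy
    exact Or.inl hy
  exact ae_restrict_le_codiscreteWithin hU.measurableSet h1

/-- the choice of the chart -/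
private theorem L2_chart (hn : 1 < n) {A : ℝ} (hA : 1 < A) (p : Y) (hE : p ∈ X.P → X.Exc p) :
    ∃ φ ∈ Charts (E n) Y, p ∈ φ.source ∧ (p ∈ X.P → ∃ K : ℝ, 0 ≤ K ∧
      ∀ᶠ x in 𝓝[≠] (φ p), ∀ v, X.Ker A φ x v → X.K A φ x v ≤ K * ‖v‖) := by
  by_cases hp : p ∈ X.P
  · obtain ⟨φ, hφ, hs, K, hK, h⟩ := bound_P X hn hp (hE hp) hA
    refine ⟨φ, hφ, hs, fun _ => ⟨K, hK, ?_⟩⟩
    filter_upwards [h] with x hx v hv
    obtain ⟨hxt, hxP, hx⟩ := hx
    obtain ⟨j, hj⟩ := off_P X hxP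
    rw [K_eq X hφ hxt hj hA hv]
    exact hx j hj v ((Ker_iff X hφ hxt hj hA v).1 hv)
  · exact ⟨chartAt (E n) p, IsManifold.chart_mem_maximalAtlas p, mem_chart_source _ p,
      fun h => absurd h hp⟩

theorem cone_loc_ker (hn : 1 < n) {ν : C → Y} (hν : ContMDiff 𝓘(ℂ) 𝓘(ℂ, E n) ω ν)
    {σ : Chart n Y → C → E n} {o : C → ℤ} (hσ : IsMeroField ν σ o) {c : C}
    (hP : ∀ᶠ c' in 𝓝[≠] c, ν c' ∉ X.P) (hE : ν c ∈ X.P → X.Exc (ν c)) {A : ℝ} (hA : 1 < A)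
    (hT : ∀ᶠ c' in 𝓝[≠] c, ∀ᶠ c'' in 𝓝[≠] c', kr X A ν σ c'' ∧ ku X A ν σ c'' ≠ 0)
    (hT0 : ν c ∉ X.P → ∀ᶠ c'' in 𝓝[≠] c, kr X A ν σ c'' ∧ ku X A ν σ c'' ≠ 0) :
    ∃ R > 0, A5Loc (fun z => Real.log (ku X A ν σ ((chartAt ℂ c).symm z))) (chartAt ℂ c c) R
      (o c) := by
  obtain ⟨φ, hφ, hc, hb⟩ := L2_chart X hn hA (ν c) hE
  obtain ⟨R₁, g, hrep, hpz⟩ := rep_exists hν hσ c hφ hc (hP.and hT)
  have hR₁ := hrep.hR
  have hsub := hrep.sub
  have hloc := hrep.loc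
  obtain ⟨f, hf⟩ : ∃ f : ℂ → ℝ,
    f = fun z => X.K A φ (φ (ν ((chartAt ℂ c).symm z))) (g z) := ⟨_, rfl⟩
  have hz₀ : chartAt ℂ c c ∈ ball (chartAt ℂ c c) R₁ := mem_ball_self hR₁
  have hcc : (chartAt ℂ c).symm (chartAt ℂ c c) = c :=
    (chartAt ℂ c).left_inv (mem_chart_source ℂ c)
  have hft : ∀ z ∈ ball (chartAt ℂ c c) R₁, φ (ν ((chartAt ℂ c).symm z)) ∈ φ.target :=
    fun z hz => φ.map_source (hloc z hz).1
  have hfs : ∀ z ∈ ball (chartAt ℂ c c) R₁,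
      φ.symm (φ (ν ((chartAt ℂ c).symm z))) = ν ((chartAt ℂ c).symm z) :=
    fun z hz => φ.left_inv (hloc z hz).1
  have hkr : ∀ z ∈ ball (chartAt ℂ c c) R₁, z ≠ chartAt ℂ c c →
      ν ((chartAt ℂ c).symm z) ∉ X.P → (kr X A ν σ ((chartAt ℂ c).symm z) ↔
        X.Ker A φ (φ (ν ((chartAt ℂ c).symm z))) (g z)) :=
    fun z hz hne hzP => kr_loc X hσ hA hφ (hloc z hz).1 hzP (sub_ne_zero.2 hne)
      ((hloc z hz).2.2.2.2 hne).1
  have hku : ∀ z ∈ ball (chartAt ℂ c c) R₁, z ≠ chartAt ℂ c c →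
      ν ((chartAt ℂ c).symm z) ∉ X.P → X.Ker A φ (φ (ν ((chartAt ℂ c).symm z))) (g z) →
      ku X A ν σ ((chartAt ℂ c).symm z) = ‖z - chartAt ℂ c c‖ ^ (o c) * f z := by
    intro z hz hne hzP hk
    rw [hf]
    exact ku_loc X hσ hA hφ (hloc z hz).1 hzP (sub_ne_zero.2 hne)
      ((hloc z hz).2.2.2.2 hne).1 hk
  -- the kernel near each point which is not mapped to an exceptional point
  have hall : ∀ z' ∈ ball (chartAt ℂ c c) R₁, ν ((chartAt ℂ c).symm z') ∉ X.P →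
      (∀ᶠ z in 𝓝 z', X.Ker A φ (φ (ν ((chartAt ℂ c).symm z))) (g z)) ∧
        ∀ᶠ z in 𝓝[≠] z', f z ≠ 0 := by
    intro z' hz' hzP
    have h1 : ∀ᶠ z in 𝓝[≠] z', kr X A ν σ ((chartAt ℂ c).symm z) ∧
        ku X A ν σ ((chartAt ℂ c).symm z) ≠ 0 := by
      refine (tend_symm c (hsub hz')).eventually
        (p := fun y => kr X A ν σ y ∧ ku X A ν σ y ≠ 0) ?_
      by_cases h : z' = chartAt ℂ c c
      · rw [h, hcc] at hzP ⊢
        exact hT0 hzP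
      · exact (hpz z' hz' h).2
    have h2 : ∀ᶠ z in 𝓝[≠] z', z ∈ ball (chartAt ℂ c c) R₁ :=
      nhdsWithin_le_nhds (isOpen_ball.mem_nhds hz')
    have h3 : ∀ᶠ z in 𝓝[≠] z', z ≠ chartAt ℂ c c := by
      by_cases h : z' = chartAt ℂ c c
      · rw [h]
        exact self_mem_nhdsWithin
      · exact nhdsWithin_le_nhds (isOpen_ne.mem_nhds h)
    have h4 : ∀ᶠ z in 𝓝[≠] z', X.Ker A φ (φ (ν ((chartAt ℂ c).symm z))) (g z) ∧ f z ≠ 0 := by
      filter_upwards [h1, h2, h3] with z hz1 hz2 hz3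
      obtain ⟨ha, hb⟩ := hz1
      have hzP' := (hpz z hz2 hz3).1
      have h5 := (hkr z hz2 hz3 hzP').1 ha
      refine ⟨h5, fun h6 => hb ?_⟩
      rw [hku z hz2 hz3 hzP' h5, h6, mul_zero]
    exact ⟨Ker_closed X hφ (hloc z' hz').2.1 (hloc z' hz').2.2.1 (hft z' hz')
      (by rwa [hfs z' hz']) hA (h4.mono fun z h => h.1).frequently, h4.mono fun z h => h.2⟩
  have hfc : ∀ z ∈ ball (chartAt ℂ c c) R₁, ν ((chartAt ℂ c).symm z) ∉ X.P →
      ContinuousAt f z := by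
    intro z hz hzP
    rw [hf]
    exact K_cont X hφ (hloc z hz).2.1 (hloc z hz).2.2.1 (hft z hz) (by rwa [hfs z hz]) hA
      (hall z hz hzP).1
  -- the points of the punctured ball
  have hev1 : ∀ᶠ z in 𝓝[≠] (chartAt ℂ c c), ν ((chartAt ℂ c).symm z) ∉ X.P := by
    have h1 := tend_symm c (hsub hz₀)
    rw [hcc] at h1
    exact h1.eventually hP
  have hev2 : ∃ M : ℝ, ∀ᶠ z in 𝓝[≠] (chartAt ℂ c c), f z ≤ M := by
    by_cases hcP : ν c ∈ X.P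
    · obtain ⟨K, hK0, hK⟩ := hb hcP
      refine ⟨K * (‖g (chartAt ℂ c c)‖ + 1), ?_⟩
      have h1 : ∀ᶠ z in 𝓝[≠] (chartAt ℂ c c), ‖g z‖ < ‖g (chartAt ℂ c c)‖ + 1 :=
        nhdsWithin_le_nhds ((hloc _ hz₀).2.2.1.continuousAt.norm.eventually_lt_const (by linarith))
      have h2 : ∀ᶠ z in 𝓝[≠] (chartAt ℂ c c), z ∈ ball (chartAt ℂ c c) R₁ :=
        nhdsWithin_le_nhds (isOpen_ball.mem_nhds hz₀)
      have htend : Tendsto (fun z => φ (ν ((chartAt ℂ c).symm z))) (𝓝[≠] (chartAt ℂ c c))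
          (𝓝[≠] (φ (ν c))) := by
        refine tendsto_nhdsWithin_iff.2 ⟨?_, ?_⟩
        · have h5 := (hloc _ hz₀).2.1.continuousAt.tendsto
          rw [hcc] at h5
          exact h5.mono_left nhdsWithin_le_nhds
        · filter_upwards [h2, hev1] with z hz hzP he
          have h6 : ν ((chartAt ℂ c).symm z) = ν c := φ.injOn (hloc z hz).1 hc he
          rw [h6] at hzP
          exact hzP hcP
      filter_upwards [h1, h2, hev1, htend.eventually hK] with z h3 h4 h5 h6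
      rw [hf]
      calc X.K A φ (φ (ν ((chartAt ℂ c).symm z))) (g z) ≤ K * ‖g z‖ :=
            h6 (g z) (hall z h4 h5).1.self_of_nhds
        _ ≤ K * (‖g (chartAt ℂ c c)‖ + 1) := mul_le_mul_of_nonneg_left h3.le hK0
    · refine ⟨f (chartAt ℂ c c) + 1, ?_⟩
      have h1 : ContinuousAt f (chartAt ℂ c c) := hfc _ hz₀ (by rwa [hcc])
      have h2 : ∀ᶠ z in 𝓝 (chartAt ℂ c c), f z < f (chartAt ℂ c c) + 1 :=
        h1.eventually_lt_const (by linarith)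
      filter_upwards [nhdsWithin_le_nhds h2] with z h3
      exact h3.le
  obtain ⟨M, hM⟩ := hev2
  obtain ⟨R₂, hR₂, hRs⟩ := Metric.mem_nhdsWithin_iff.1 (hev1.and hM)
  have hR : 0 < min R₁ R₂ := lt_min hR₁ hR₂
  have hB : ∀ z ∈ ball (chartAt ℂ c c) (min R₁ R₂), z ∈ ball (chartAt ℂ c c) R₁ :=
    fun z hz => ball_subset_ball (min_le_left _ _) hz
  have hBP : ∀ z ∈ ball (chartAt ℂ c c) (min R₁ R₂) \ {chartAt ℂ c c},
      ν ((chartAt ℂ c).symm z) ∉ X.P ∧ f z ≤ M :=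
    fun z hz => hRs ⟨ball_subset_ball (min_le_right _ _) hz.1, hz.2⟩
  have hU : IsOpen (ball (chartAt ℂ c c) (min R₁ R₂) \ {chartAt ℂ c c}) :=
    isOpen_ball.sdiff isClosed_singleton
  have hnu : ∀ z ∈ ball (chartAt ℂ c c) (min R₁ R₂) \ {chartAt ℂ c c},
      ku X A ν σ ((chartAt ℂ c).symm z) = ‖z - chartAt ℂ c c‖ ^ (o c) * f z :=
    fun z hz => hku z (hB z hz.1) hz.2 (hBP z hz).1
      (hall z (hB z hz.1) (hBP z hz).1).1.self_of_nhds
  have hiso : ∀ z ∈ ball (chartAt ℂ c c) (min R₁ R₂) \ {chartAt ℂ c c},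
      ∀ᶠ z' in 𝓝[≠] z, f z' ≠ 0 :=
    fun z hz => (hall z (hB z hz.1) (hBP z hz).1).2
  have hfcont : ContinuousOn f (ball (chartAt ℂ c c) (min R₁ R₂) \ {chartAt ℂ c c}) :=
    fun z hz => (hfc z (hB z hz.1) (hBP z hz).1).continuousWithinAt
  have hf0 : ∀ z ∈ ball (chartAt ℂ c c) (min R₁ R₂) \ {chartAt ℂ c c}, 0 ≤ f z := by
    intro z hz
    rw [hf]
    exact K_nonneg X hφ (hft z (hB z hz.1)) A (g z)
  have hps : PSub f (ball (chartAt ℂ c c) (min R₁ R₂) \ {chartAt ℂ c c}) := by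
    intro z hz hfz
    have hzB := hB z hz.1
    obtain ⟨ρ, hρ, hρs⟩ := K_sub X hφ (hloc z hzB).2.1 (hloc z hzB).2.2.1 (hft z hzB)
      (by rw [hfs z hzB]; exact (hBP z hz).1) hA (hall z hzB (hBP z hz).1).1
      (by rw [hf] at hfz; exact hfz)
    have h0 : ∀ᶠ y in 𝓝 z, y ∈ ball (chartAt ℂ c c) (min R₁ R₂) \ {chartAt ℂ c c} :=
      hU.mem_nhds hz
    have h1 : ∀ᶠ y in 𝓝 z, y ∈ ball (chartAt ℂ c c) (min R₁ R₂) \ {chartAt ℂ c c} ∧ f y ≠ 0 :=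
      h0.and ((hfc z hzB (hBP z hz).1).eventually_ne hfz)
    obtain ⟨t, ht0, ht⟩ := Metric.eventually_nhds_iff_ball.1 h1
    refine ⟨min ρ (t / 2), by positivity, fun b hb => ht b (ball_subset_ball ?_ hb), ?_⟩
    · have := min_le_right ρ (t / 2)
      linarith
    · intro b hb r hr hr'
      rw [hf]
      exact hρs b (ball_subset_ball (min_le_left _ _) hb) r hr (hr'.trans_le (min_le_left _ _))
  refine ⟨min R₁ R₂, hR, fun z => Real.log (f z),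
    wform_log hfcont (fun z hz => ⟨hf0 z hz, (hBP z hz).2⟩) hps hiso, ?_⟩
  have hne : ∀ᵐ z : ℂ, z ≠ chartAt ℂ c c := by
    rw [ae_iff]
    simp
  filter_upwards [L2_ae hU hiso, hne] with z h1 h2 h3
  have hz : z ∈ ball (chartAt ℂ c c) (min R₁ R₂) \ {chartAt ℂ c c} := ⟨h3, h2⟩
  have h4 : ‖z - chartAt ℂ c c‖ ≠ 0 := norm_ne_zero_iff.2 (sub_ne_zero.2 h2)
  show Real.log (ku X A ν σ ((chartAt ℂ c).symm z)) = _
  rw [hnu z hz, Real.log_mul (zpow_ne_zero _ h4) (h1 hz), Real.log_zpow]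

end Pool.Agent.Nef6.UM
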