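import Pool.Agent.H.MP_6a1d6a_ag.SM.A5
import Pool.Agent.H.MP_6a1d6a_ag.DM.Base
import Pool.Agent.H.MP_6a1d6a_ag.SN.Base

/-!
MP_6a1d6a_ag/UM, module L3: two properties of `A5Loc`.

`WForm` (`SM/A2.lean`) is monotone in the radius (`tsupport ⊆ ball c R' ⊆ ball c R`). For the constant: `WForm (fun z => w z + κ) c R`: `(w z + κ) * g z` is integrable, and `∫ (w + κ) lap η = ∫ w lap η + κ ∫ lap η` with `∫ lap η = 0` (integral of the Laplacian of a smooth function with compact support; search in `K3.lean`, `S.lean`, `G.lean`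
for it, e.g. as a special case of `∫ u lap η = ∫ η lap u`; or from `log_pot`-like lemmas).
-/

set_option autoImplicit false

open Set Filter Topology Metric MeasureTheory
open scoped ContDiff Manifold

namespace Pool.Agent.Nef6.UM

open Pool.Agent.Nef6.SM

open Pool.Agent.Nef6

theorem A5Loc_mono {u : ℂ → ℝ} {c : ℂ} {R : ℝ} {m : ℤ} (h : A5Loc u c R m) {R' : ℝ}
    (hR : R' ≤ R) : A5Loc u c R' m := by
  obtain ⟨w, hw, hu⟩ := h
  have hb : ball c R' ⊆ ball c R := ball_subset_ball hR
  refine ⟨w, ⟨fun g hg hgc hgs => hw.int g hg hgc (hgs.trans hb),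
    fun η hη hηc hηs h0 => hw.sub η hη hηc (hηs.trans hb) h0⟩, ?_⟩
  filter_upwards [hu] with z hz hzb
  exact hz (hb hzb)

theorem A5Loc_add {u : ℂ → ℝ} {c : ℂ} {R : ℝ} {m : ℤ} (h : A5Loc u c R m) (κ : ℝ) :
    A5Loc (fun z => u z + κ) c R m := by
  obtain ⟨w, hw, hu⟩ := h
  have hint : ∀ g : ℂ → ℝ, Continuous g → HasCompactSupport g →
      Integrable fun z => κ * g z := fun g hg hgc =>
    (hg.integrable_of_hasCompactSupport hgc).const_mul κ
  refine ⟨fun z => w z + κ, ⟨?_, ?_⟩, ?_⟩
  · intro g hg hgc hgs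
    refine ((hw.int g hg hgc hgs).add (hint g hg hgc)).congr (Eventually.of_forall fun z => ?_)
    simp only [Pi.add_apply]
    ring
  · intro η hη hηc hηs h0
    have h1 := hw.sub η hη hηc hηs h0
    have h2 : 0 ≤ ∫ z, κ * lap η z := by
      have h3 := int_sub (c := c) (R := R) (w := fun _ : ℂ => κ) continuousOn_const
        (fun a r _ _ => (Real.circleAverage_const κ a r).ge) hη hηc hηs h0
      exact h3
    have hts : tsupport (lap η) ⊆ tsupport η := by
      refine closure_minimal ?_ (isClosed_tsupport η)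
      intro z hz
      by_contra hn
      exact hz (lap_off hn)
    have h4 := hw.int (lap η) (K3_lap_cont hη) (K3_lap_cs hηc) (hts.trans hηs)
    have h5 := hint (lap η) (K3_lap_cont hη) (K3_lap_cs hηc)
    have h6 : ∫ z, (w z + κ) * lap η z = (∫ z, w z * lap η z) + ∫ z, κ * lap η z := by
      rw [← integral_add h4 h5]
      refine integral_congr_ae (Eventually.of_forall fun z => ?_)
      simp only
      ring
    rw [h6]
    exact add_nonneg h1 h2
  · filter_upwards [hu] with z hz hzb
    rw [hz hzb]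
    ring

end Pool.Agent.Nef6.UM
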