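import Pool.Agent.H.MP_6a1d6a_ag.UM.Base2

/-!
MP_6a1d6a_ag/UM, module R2: a good representation at a point of a cone chart.

`φ = chartAt (E n) (ν c)`. The complement of `X.P` is open (`X.cover`), so `ν c' ∉ X.P` for `c'` near `c`. `rep_exists` (`UM/Base2`) with `p c' := ν c' ∉ X.P ∧ (A = 1 ∧ nu X ν σ c' ≠ 0 ∨ 1 < A ∧ kr X A ν σ c' ∧ ku X A ν σ c' ≠ 0)`. For `z ≠ z₀` in the ball: if `A = 1`, `nu_loc` and `nu X ν σ (χ.symm z) ≠ 0` give `X.N φ .. (g z) ≠ 0`; if `1 < A`: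
`kr_loc` gives `X.Ker A φ .. (g z)`, `ku_loc` gives `X.K A φ .. (g z) ≠ 0`. (`Kr`, `L`: unfold; `A ≠ 1` if `1 < A`.)
-/

set_option autoImplicit false

open Set Filter Topology Metric MeasureTheory
open scoped ContDiff Manifold

namespace Pool.Agent.Nef6.UM

open Pool.Agent.Nef6.SN
open Pool.Agent.Nef6.SM (loc_curve A5Loc)
open Pool.Agent.Nef6.DM (disc IsSemi InU rad Good)

variable {n : ℕ} {Y : Type} [TopologicalSpace Y] [ChartedSpace (E n) Y]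
  [IsManifold 𝓘(ℂ, E n) ω Y] (X : Cone n Y)
  {C : Type} [TopologicalSpace C] [ChartedSpace ℂ C] [IsManifold 𝓘(ℂ) ω C]

theorem cone_rep {ν : C → Y} (hν : ContMDiff 𝓘(ℂ) 𝓘(ℂ, E n) ω ν) {σ : Chart n Y → C → E n}
    {o : C → ℤ} (hσ : IsMeroField ν σ o) {c : C} (hc : ν c ∉ X.P) {A : ℝ} (hA : Ex X A ν σ c) :
    ∃ φ ∈ Charts (E n) Y, ∃ (R : ℝ) (g : ℂ → E n), Rep ν σ o c φ R g ∧
      ∀ z ∈ ball (chartAt ℂ c c) R, z ≠ chartAt ℂ c c →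
        ν ((chartAt ℂ c).symm z) ∉ X.P ∧
        X.Kr A φ (φ (ν ((chartAt ℂ c).symm z))) (g z) ∧
        X.L A φ (φ (ν ((chartAt ℂ c).symm z))) (g z) ≠ 0 := by
  have hφ : chartAt (E n) (ν c) ∈ Charts (E n) Y := IsManifold.chart_mem_maximalAtlas _
  have hPo : ∀ᶠ c' in 𝓝[≠] c, ν c' ∉ X.P := by
    obtain ⟨j, hj⟩ := (X.cover _).1 hc
    have h1 : ν ⁻¹' (X.ch j).source ∈ 𝓝 c :=
      hν.continuous.continuousAt.preimage_mem_nhds ((X.ch j).open_source.mem_nhds hj)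
    filter_upwards [nhdsWithin_le_nhds h1] with c' h2
    exact (X.cover _).2 ⟨j, h2⟩
  rcases hA with ⟨hA1, hnu⟩ | ⟨hA1, hk⟩
  · obtain ⟨R, g, H, h⟩ := rep_exists hν hσ c hφ (mem_chart_source _ _) (hPo.and hnu)
    refine ⟨_, hφ, R, g, H, fun z hz hne => ?_⟩
    obtain ⟨h1, h2⟩ := h z hz hne
    obtain ⟨h3, _, _, _, h5⟩ := H.loc z hz
    obtain ⟨h6, _⟩ := h5 hne
    refine ⟨h1, Or.inl hA1, ?_⟩
    unfold Cone.L
    rw [if_pos hA1]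
    intro h7
    apply h2
    rw [nu_loc X hσ hφ h3 h1 h6, h7, mul_zero]
  · obtain ⟨R, g, H, h⟩ := rep_exists hν hσ c hφ (mem_chart_source _ _) (hPo.and hk)
    refine ⟨_, hφ, R, g, H, fun z hz hne => ?_⟩
    obtain ⟨h1, h2, h2'⟩ := h z hz hne
    obtain ⟨h3, _, _, _, h5⟩ := H.loc z hz
    obtain ⟨h6, _⟩ := h5 hne
    have ht : z - chartAt ℂ c c ≠ 0 := sub_ne_zero.2 hne
    have h8 := (kr_loc X hσ hA1 hφ h3 h1 ht h6).1 h2
    refine ⟨h1, Or.inr h8, ?_⟩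
    unfold Cone.L
    rw [if_neg hA1.ne']
    intro h7
    apply h2'
    rw [ku_loc X hσ hA1 hφ h3 h1 ht h6 h8, h7, mul_zero]

end Pool.Agent.Nef6.UM
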