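import Pool.Agent.H.MP_6a1d6a_ag.UM.X2
import Pool.Agent.H.MP_6a1d6a_ag.UM.L1
import Pool.Agent.H.MP_6a1d6a_ag.UM.L2
import Pool.Agent.H.MP_6a1d6a_ag.UM.L3
import Pool.Agent.H.MP_6a1d6a_ag.UM.R2

/-!
MP_6a1d6a_ag/UM, module CDx: existence of the data at a point which is not in a disc chart.

`hP : ∀ᶠ c' in 𝓝[≠] c, ν c' ∉ X.P`: if `ν c ∉ X.P` because the complement of `X.P` is open (`X.cover`); if `ν c ∈ X.P`, `X.exc` gives `X.toCone.Exc (ν c)` and `W` (`hc` excludes the first alternative), the first part of `Exc` an open `W' ∋ ν c` with `W' ∩ X.P ⊆ {ν c}`, and `ν c' ≠ ν c` for `c' ≠ c` near `c` (`hcst`). `A` from `ex_punct` (`UM/X2`).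
`loc`: `pot` unfolds to `log nu` if `A = 1` (`cone_loc_one`; `Ex X 1 ν σ c'` is `∀ᶠ c'' in 𝓝[≠] c', nu X ν σ c'' ≠ 0`, as `1 < 1` is false) and to `log ku` if `1 < A` (`cone_loc_ker`), on a ball of radius `R₁`. `sub`, `zero` from `rep_exists` for `chartAt (E n) (ν c)` with
`p c' := ν c' ∉ X.P ∧ Ex X A ν σ c'`: also `ex`, radius `R₂`. `alt`: if `ν c ∉ X.P` from `cone_rep` (`UM/R2`), radius `R₃`; if `ν c ∈ X.P`: `ν (χ.symm z) ∈ W` for `z` near `z₀`, so the second alternative. `R` = half of the minimum of the radii; `A5Loc_mono`, `Rep.mono`.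
-/

set_option autoImplicit false

open Set Filter Topology Metric MeasureTheory
open scoped ContDiff Manifold

namespace Pool.Agent.Nef6.UM

open Pool.Agent.Nef6.SN
open Pool.Agent.Nef6.SM (loc_curve PSub WForm wform_log A5Loc)
open Pool.Agent.Nef6.DM (disc IsSemi InU rad Good)

variable {n : ℕ} {Y : Type} [TopologicalSpace Y] [ChartedSpace (E n) Y]
  [IsManifold 𝓘(ℂ, E n) ω Y] {X : Mixed n Y}
  {C : Type} [TopologicalSpace C] [ChartedSpace ℂ C] [IsManifold 𝓘(ℂ) ω C]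

omit [IsManifold 𝓘(ℂ, E n) ω Y] in
/-- the complement of `X.P` is open -/
private theorem CDx_open (X : Mixed n Y) : IsOpen {y : Y | y ∉ X.P} := by
  rw [isOpen_iff_mem_nhds]
  intro y hy
  obtain ⟨j, hj⟩ := (X.cover y).1 hy
  filter_upwards [(X.ch j).open_source.mem_nhds hj] with y' hy'
  exact (X.cover y').2 ⟨j, hy'⟩

omit [IsManifold 𝓘(ℂ, E n) ω Y] [ChartedSpace ℂ C] [IsManifold 𝓘(ℂ) ω C] in
/-- near `c` the curve does not meet `X.P` -/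
private theorem CDx_P {ν : C → Y} (hν : Continuous ν) {c : C}
    (hcst : ∀ᶠ c' in 𝓝[≠] c, ν c' ≠ ν c) (hE : ν c ∈ X.P → X.toCone.Exc (ν c)) :
    ∀ᶠ c' in 𝓝[≠] c, ν c' ∉ X.P := by
  by_cases h : ν c ∈ X.P
  · obtain ⟨⟨W, hW, hcW, hWP⟩, -⟩ := hE h
    have h1 : ∀ᶠ c' in 𝓝[≠] c, ν c' ∈ W :=
      nhdsWithin_le_nhds (hν.continuousAt.eventually (hW.mem_nhds hcW))
    filter_upwards [h1, hcst] with c' h2 h3 h4
    exact h3 (hWP ⟨h2, h4⟩)
  · exact nhdsWithin_le_nhds (hν.continuousAt.eventually ((CDx_open X).mem_nhds h))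

/-- the form near the point -/
private theorem CDx_loc (hn : 1 < n) {ν : C → Y} (hν : ContMDiff 𝓘(ℂ) 𝓘(ℂ, E n) ω ν)
    {σ : Chart n Y → C → E n} {o : C → ℤ} (hσ : IsMeroField ν σ o) {c : C}
    (hP : ∀ᶠ c' in 𝓝[≠] c, ν c' ∉ X.P) (hE : ν c ∈ X.P → X.toCone.Exc (ν c)) {A : ℝ}
    (hA : 1 ≤ A) (hA1 : ∀ᶠ c' in 𝓝[≠] c, Ex X.toCone A ν σ c')
    (hA2 : ν c ∉ X.P → Ex X.toCone A ν σ c) :
    ∃ R > 0, A5Loc (fun z => pot X.toCone A ν σ ((chartAt ℂ c).symm z)) (chartAt ℂ c c) R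
      (o c) := by
  rcases hA.eq_or_lt with h | h
  · subst h
    have hT : ∀ᶠ c' in 𝓝[≠] c, ∀ᶠ c'' in 𝓝[≠] c', nu X.toCone ν σ c'' ≠ 0 := by
      filter_upwards [hA1] with c' h1
      rcases h1 with h2 | h2
      · exact h2.2
      · exact absurd h2.1 (lt_irrefl _)
    obtain ⟨R, hR, h3⟩ := cone_loc_one X.toCone hn hν hσ hP hE hT
    refine ⟨R, hR, ?_⟩
    have h4 : (fun z => pot X.toCone 1 ν σ ((chartAt ℂ c).symm z)) =
        fun z => Real.log (nu X.toCone ν σ ((chartAt ℂ c).symm z)) := by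
      funext z
      unfold pot
      rw [if_pos rfl]
    rw [h4]
    exact h3
  · have hne : A ≠ 1 := h.ne'
    have hT' : ∀ c', Ex X.toCone A ν σ c' →
        ∀ᶠ c'' in 𝓝[≠] c', kr X.toCone A ν σ c'' ∧ ku X.toCone A ν σ c'' ≠ 0 := by
      intro c' h1
      rcases h1 with h2 | h2
      · exact absurd h2.1 hne
      · exact h2.2
    obtain ⟨R, hR, h3⟩ := cone_loc_ker X.toCone hn hν hσ hP hE h
      (hA1.mono fun c' h1 => hT' c' h1) (fun h1 => hT' c (hA2 h1))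
    refine ⟨R, hR, ?_⟩
    have h4 : (fun z => pot X.toCone A ν σ ((chartAt ℂ c).symm z)) =
        fun z => Real.log (ku X.toCone A ν σ ((chartAt ℂ c).symm z)) := by
      funext z
      unfold pot
      rw [if_neg hne]
    rw [h4]
    exact h3

/-- the alternative -/
private theorem CDx_alt {ν : C → Y} (hν : ContMDiff 𝓘(ℂ) 𝓘(ℂ, E n) ω ν)
    {σ : Chart n Y → C → E n} {o : C → ℤ} (hσ : IsMeroField ν σ o) {c : C} {A : ℝ}
    (hA2 : ν c ∉ X.P → Ex X.toCone A ν σ c)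
    (hW : ν c ∈ X.P → ∃ W, IsOpen W ∧ ν c ∈ W ∧ ∀ k, ∀ y ∈ W, y ∉ (X.dch k).source) :
    ∃ R > 0, (∃ φ ∈ Charts (E n) Y, ∃ g, Rep ν σ o c φ R g ∧
      ∀ z ∈ ball (chartAt ℂ c c) R, z ≠ chartAt ℂ c c →
        X.toCone.Kr A φ (φ (ν ((chartAt ℂ c).symm z))) (g z) ∧
        X.toCone.L A φ (φ (ν ((chartAt ℂ c).symm z))) (g z) ≠ 0) ∨
    ∀ z ∈ ball (chartAt ℂ c c) R, ∀ k, ν ((chartAt ℂ c).symm z) ∉ (X.dch k).source := by
  by_cases h : ν c ∈ X.P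
  · obtain ⟨W, hWo, hcW, hWk⟩ := hW h
    have hcc : (chartAt ℂ c).symm (chartAt ℂ c c) = c :=
      (chartAt ℂ c).left_inv (mem_chart_source ℂ c)
    have h1 : ContinuousAt (fun z => ν ((chartAt ℂ c).symm z)) (chartAt ℂ c c) := by
      refine ContinuousAt.comp (f := fun z => (chartAt ℂ c).symm z) (g := ν) ?_
        ((chartAt ℂ c).continuousAt_symm (mem_chart_target ℂ c))
      exact hν.continuous.continuousAt
    have h2 : ∀ᶠ z in 𝓝 (chartAt ℂ c c), ν ((chartAt ℂ c).symm z) ∈ W := by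
      refine h1.eventually (hWo.mem_nhds ?_)
      show ν ((chartAt ℂ c).symm (chartAt ℂ c c)) ∈ W
      rw [hcc]
      exact hcW
    obtain ⟨R, hR, h3⟩ := Metric.eventually_nhds_iff_ball.1 h2
    exact ⟨R, hR, Or.inr fun z hz k => hWk k _ (h3 z hz)⟩
  · obtain ⟨φ, hφ, R, g, hrep, hg⟩ := cone_rep X.toCone hν hσ h (hA2 h)
    exact ⟨R, hrep.hR, Or.inl ⟨φ, hφ, g, hrep, fun z hz hne => (hg z hz hne).2⟩⟩

theorem CD.exists [T1Space C] (hn : 1 < n) {ν : C → Y} (hν : ContMDiff 𝓘(ℂ) 𝓘(ℂ, E n) ω ν)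
    {σ : Chart n Y → C → E n} {o : C → ℤ} (hσ : IsMeroField ν σ o) {c : C}
    (hcst : ∀ᶠ c' in 𝓝[≠] c, ν c' ≠ ν c) (hc : ∀ k, ν c ∉ (X.dch k).source) :
    ∃ A R, CD X ν σ o c A R := by
  have hEx : ν c ∈ X.P → X.toCone.Exc (ν c) ∧
      ∃ W, IsOpen W ∧ ν c ∈ W ∧ ∀ k, ∀ y ∈ W, y ∉ (X.dch k).source := by
    intro h
    rcases X.exc (ν c) h with ⟨k, hk⟩ | h1
    · exact absurd hk (hc k)
    · exact h1
  have hP := CDx_P hν.continuous hcst (fun h => (hEx h).1)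
  obtain ⟨A, hA, hA1, hA2⟩ := ex_punct X.toCone hν hσ hP
  obtain ⟨R₁, hR₁, h1⟩ := CDx_loc hn hν hσ hP (fun h => (hEx h).1) hA hA1 hA2
  obtain ⟨R₂, g, hrep, h2⟩ := rep_exists hν hσ c
    (IsManifold.chart_mem_maximalAtlas (I := 𝓘(ℂ, E n)) (n := ω) (ν c) :
      chartAt (E n) (ν c) ∈ Charts (E n) Y) (mem_chart_source _ _) (hP.and hA1)
  obtain ⟨R₃, hR₃, h3⟩ := CDx_alt (X := X) hν hσ hA2 (fun h => (hEx h).2)
  have hm : 0 < min (min R₁ R₂) R₃ := lt_min (lt_min hR₁ hrep.hR) hR₃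
  have hm1 : min (min R₁ R₂) R₃ ≤ R₁ := (min_le_left _ _).trans (min_le_left _ _)
  have hm2 : min (min R₁ R₂) R₃ ≤ R₂ := (min_le_left _ _).trans (min_le_right _ _)
  have hm3 : min (min R₁ R₂) R₃ ≤ R₃ := min_le_right _ _
  have h2m : 2 * (min (min R₁ R₂) R₃ / 2) = min (min R₁ R₂) R₃ := by ring
  refine ⟨A, min (min R₁ R₂) R₃ / 2, ⟨by positivity, hA, ?_, ?_, ?_, ?_, ?_⟩⟩
  · rw [h2m]
    exact (ball_subset_ball hm2).trans hrep.sub
  · rw [h2m]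
    intro z hz hne
    exact ((hrep.loc z (ball_subset_ball hm2 hz)).2.2.2.2 hne).2
  · rw [h2m]
    intro z hz hne
    exact h2 z (ball_subset_ball hm2 hz) hne
  · exact A5Loc_mono h1 (by linarith)
  · rw [h2m]
    rcases h3 with ⟨φ, hφ, g', hrep', hg'⟩ | h3
    · exact Or.inl ⟨φ, hφ, g', hrep'.mono hm hm3,
        fun z hz hne => hg' z (ball_subset_ball hm3 hz) hne⟩
    · exact Or.inr fun z hz k => h3 z (ball_subset_ball hm3 hz) k

end Pool.Agent.Nef6.UM
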