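import Pool.Agent.H.MP_6a1d6a_ag.UM.Stab
import Pool.Agent.H.MP_6a1d6a_ag.SN.B1
import Pool.Agent.H.MP_6a1d6a_ag.DM.A1

/-!
MP_6a1d6a_ag/UM, module Ex3: examples: nondegenerate metrics.
-/

set_option autoImplicit false

open Set Filter Topology Metric
open scoped ContDiff Manifold

namespace Pool.Agent.Nef6.UM

open Pool.Agent.Nef6.SN
open Pool.Agent.Nef6.DM (disc IsSemi InU disc_le)

variable {N : ℕ} {h : E N → E N → ℝ} {U : Set (E N)}

theorem semi_of_metric (hh : IsMetric h U) : IsSemi h U where
  op := hh.op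
  cont := hh.cont
  nonneg x hx v := hh.nonneg hx v
  smul := hh.smul
  psh x v b r hr hx hv hU δ hδ := by
    have hpos : ∀ z ∈ closedBall b r, 0 < h (x z) (v z) := fun z hz =>
      hh.pos _ (hU z hz).1 _ (hU z hz).2
    have hc : ContinuousOn (fun z => h (x z) (v z)) (closedBall b r) := by
      refine hh.cont.comp (f := fun z => (x z, v z)) ?_ fun z hz => ⟨(hU z hz).1, mem_univ _⟩
      exact hx.continuousOn.prodMk hv.continuousOn
    have hs : sphere b |r| ⊆ closedBall b r := by
      rw [abs_of_pos hr]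
      exact sphere_subset_closedBall
    have h1 : CircleIntegrable (fun z => Real.log (h (x z) (v z))) b r := by
      refine ContinuousOn.circleIntegrable hr.le ?_
      rw [abs_of_pos hr] at hs
      exact (hc.mono hs).log fun z hz => (hpos z (hs hz)).ne'
    have h2 : CircleIntegrable (fun z => Real.log (max δ (h (x z) (v z)))) b r := by
      refine ContinuousOn.circleIntegrable hr.le ?_
      rw [abs_of_pos hr] at hs
      exact (ContinuousOn.sup continuousOn_const (hc.mono hs)).log fun z _ =>
        (lt_max_of_lt_left hδ).ne'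
    have hb := hpos b (mem_closedBall_self hr.le)
    have h3 : Real.log (h (x b) (v b)) ≤
        Real.circleAverage (fun z => Real.log (max δ (h (x z) (v z)))) b r := by
      refine (hh.psh x v b r hr hx hv hU).trans ?_
      refine Real.circleAverage_mono h1 h2 fun z hz => ?_
      exact Real.log_le_log (hpos z (hs hz)) (le_max_right _ _)
    have h4 : Real.log δ ≤
        Real.circleAverage (fun z => Real.log (max δ (h (x z) (v z)))) b r := by
      have h5 : Real.circleAverage (fun _ => Real.log δ) b r = Real.log δ :=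
        Real.circleAverage_const _ _ _
      rw [← h5]
      refine Real.circleAverage_mono (circleIntegrable_const _ _ _) h2 fun z hz => ?_
      exact Real.log_le_log hδ (le_max_left _ _)
    rcases le_total δ (h (x b) (v b)) with h6 | h6
    · rw [max_eq_right h6]
      exact h3
    · rw [max_eq_left h6]
      exact h4
  pos x v hv r hr hi := ⟨0, by rw [norm_zero]; exact hr.le, by
    have h1 := hi 0 (by rw [norm_zero]; exact hr.le)
    exact hh.pos _ h1 _ hv⟩

theorem stable_of_metric (hh : IsMetric h U) : Stable h U := by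
  intro x₀ hx₀ C hC ε hε
  obtain ⟨ρ, hρ, hball⟩ := Metric.nhds_basis_closedBall.mem_iff.1 (hh.op.mem_nhds hx₀)
  -- lower bound
  have hK1 : IsCompact (closedBall x₀ ρ ×ˢ sphere (0 : E N) 1) :=
    (isCompact_closedBall x₀ ρ).prod (isCompact_sphere 0 1)
  have hc1 : ContinuousOn (fun q : E N × E N => h q.1 q.2) (closedBall x₀ ρ ×ˢ sphere (0 : E N) 1) :=
    hh.cont.mono (prod_mono hball (subset_univ _))
  obtain ⟨m, hm, hmin⟩ : ∃ m > 0, ∀ q ∈ closedBall x₀ ρ ×ˢ sphere (0 : E N) 1, m ≤ h q.1 q.2 := by
    rcases (closedBall x₀ ρ ×ˢ sphere (0 : E N) 1).eq_empty_or_nonempty with he | hne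
    · exact ⟨1, one_pos, fun q hq => by rw [he] at hq; exact absurd hq (notMem_empty q)⟩
    · obtain ⟨q₀, hq₀, hq⟩ := hK1.exists_isMinOn hne hc1
      refine ⟨h q₀.1 q₀.2, hh.pos _ (hball hq₀.1) _ ?_, fun q hq' => hq hq'⟩
      intro h0
      have h1 := hq₀.2
      rw [mem_sphere, dist_zero_right, h0, norm_zero] at h1
      exact zero_ne_one h1
  -- uniform continuity
  have hK2 : IsCompact (closedBall x₀ ρ ×ˢ closedBall (0 : E N) 2) :=
    (isCompact_closedBall x₀ ρ).prod (isCompact_closedBall 0 2)
  have hu : UniformContinuousOn (fun q : E N × E N => h q.1 q.2)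
      (closedBall x₀ ρ ×ˢ closedBall (0 : E N) 2) :=
    hK2.uniformContinuousOn_of_continuous (hh.cont.mono (prod_mono hball (subset_univ _)))
  obtain ⟨η, hη, hue⟩ := Metric.uniformContinuousOn_iff.1 hu (ε * m) (mul_pos hε hm)
  refine ⟨min (min (ρ / 4) 1) (min (ρ / (4 * (C + 1))) (min (1 / (C + 1)) (η / (2 * (C + 1))))),
    by positivity, fun x hx v hv r hr hrδ s hs x' w hx' hw => ?_⟩
  have hCp : 0 < C + 1 := by linarith
  have e1 : r < ρ / 4 := hrδ.trans_le ((min_le_left _ _).trans (min_le_left _ _))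
  have e2 : r < 1 := hrδ.trans_le ((min_le_left _ _).trans (min_le_right _ _))
  have e3 : r < ρ / (4 * (C + 1)) := hrδ.trans_le ((min_le_right _ _).trans (min_le_left _ _))
  have e4 : r < 1 / (C + 1) := hrδ.trans_le ((min_le_right _ _).trans
    ((min_le_right _ _).trans (min_le_left _ _)))
  have e5 : r < η / (2 * (C + 1)) := hrδ.trans_le ((min_le_right _ _).trans
    ((min_le_right _ _).trans (min_le_right _ _)))
  have e0 : dist x x₀ < ρ / 4 := hx.trans_le ((min_le_left _ _).trans (min_le_left _ _))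
  rw [lt_div_iff₀ (by positivity)] at e3 e5
  rw [lt_div_iff₀ hCp] at e4
  have hCr : C * r ≤ 1 := by nlinarith
  have hCr2 : C * r ^ 2 ≤ C * r := by
    have : r ^ 2 ≤ r := by nlinarith
    exact mul_le_mul_of_nonneg_left this hC.le
  have hsv : ‖s • v‖ ≤ r := by rw [norm_smul, hv, mul_one]; exact hs
  have hX : ∀ t : ℂ, ‖t‖ ≤ r → x + t • v ∈ closedBall x₀ (ρ / 2) := by
    intro t ht
    rw [mem_closedBall, dist_eq_norm]
    have h1 : x + t • v - x₀ = (x - x₀) + t • v := by abel
    rw [h1]
    have h2 := norm_add_le (x - x₀) (t • v)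
    rw [norm_smul, hv, mul_one] at h2
    rw [dist_eq_norm] at e0
    linarith
  have hXs := hX s hs
  have hX' : x' ∈ closedBall x₀ ρ := by
    rw [mem_closedBall, dist_eq_norm] at hXs ⊢
    have h1 : x' - x₀ = (x' - (x + s • v)) + (x + s • v - x₀) := by abel
    rw [h1]
    have h2 := norm_add_le (x' - (x + s • v)) (x + s • v - x₀)
    nlinarith
  have hXb : closedBall x₀ (ρ / 2) ⊆ closedBall x₀ ρ := closedBall_subset_closedBall (by linarith)
  have hw2 : ‖w‖ ≤ 2 := by
    have h1 : w = (w - v) + v := by abel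
    rw [h1]
    have h2 := norm_add_le (w - v) v
    linarith
  have hdist : dist ((x', w) : E N × E N) (x + s • v, v) < η := by
    rw [Prod.dist_eq, max_lt_iff]
    constructor
    · show dist x' (x + s • v) < η
      rw [dist_eq_norm]
      nlinarith
    · show dist w v < η
      rw [dist_eq_norm]
      nlinarith
  have h1 := hue (x', w) ⟨hX', by rw [mem_closedBall, dist_zero_right]; exact hw2⟩
    (x + s • v, v) ⟨hXb hXs, by rw [mem_closedBall, dist_zero_right, hv]; norm_num⟩ hdist
  rw [Real.dist_eq] at h1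
  refine h1.le.trans (mul_le_mul_of_nonneg_left ?_ hε.le)
  have hi : InU U x v r := fun t ht => hball (hXb (hX t ht))
  have h2 := disc_le (semi_of_metric hh) hi (s := 0) (by rw [norm_zero]; exact hr.le)
  rw [zero_smul, add_zero] at h2
  refine le_trans ?_ h2
  have h3 := hX 0 (by rw [norm_zero]; exact hr.le)
  rw [zero_smul, add_zero] at h3
  exact hmin (x, v) ⟨hXb h3, by rw [mem_sphere, dist_zero_right]; exact hv⟩

end Pool.Agent.Nef6.UM
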