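import Pool.Agent.H.MP_6a1d6a_ag.DM.A3

/-!
MP_6a1d6a_ag/UM, module Ex4a: a continuous function on a closed disc with the local sub-mean value property satisfies the
sub-mean value inequality for the disc.
-/

set_option autoImplicit false

open Set Filter Topology Metric
open scoped ContDiff Manifold

namespace Pool.Agent.Nef6.UM

open Pool.Agent.Nef6.DM (approx_re)

private theorem Ex4a_sq (b c : ℂ) {t : ℝ} (ht : 0 < t) :
    Real.circleAverage (fun z : ℂ => ‖z - b‖ ^ 2) c t = ‖c - b‖ ^ 2 + t ^ 2 := by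
  obtain ⟨g, hg⟩ : ∃ g : ℂ → ℂ, g = fun z => 2 * ((z - c) * (starRingEnd ℂ) (c - b)) := ⟨_, rfl⟩
  have hgc : Continuous g := by
    rw [hg]
    fun_prop
  have hgd : Differentiable ℂ g := by
    rw [hg]
    fun_prop
  have h1 : Real.circleAverage g c t = 0 := by
    have h2 : Real.circleAverage g c t = g c :=
      DiffContOnCl.circleAverage hgd.diffContOnCl
    rw [h2, hg]
    simp
  have h3 : Real.circleAverage (Complex.reCLM ∘ g) c t = 0 := by
    rw [Complex.reCLM.circleAverage_comp_comm hgc.continuousOn.circleIntegrable', h1, map_zero]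
  have h4 : Real.circleAverage (fun z : ℂ => ‖z - b‖ ^ 2) c t =
      Real.circleAverage (fun z => (‖c - b‖ ^ 2 + t ^ 2) + (Complex.reCLM ∘ g) z) c t := by
    refine Real.circleAverage_congr_sphere fun z hz => ?_
    rw [mem_sphere, abs_of_pos ht, dist_eq_norm] at hz
    show ‖z - b‖ ^ 2 = (‖c - b‖ ^ 2 + t ^ 2) + (g z).re
    rw [← hz, hg, ← Complex.normSq_eq_norm_sq, ← Complex.normSq_eq_norm_sq,
      ← Complex.normSq_eq_norm_sq]
    simp only [Complex.normSq_apply, Complex.sub_re, Complex.sub_im, Complex.mul_re,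
      Complex.mul_im, Complex.conj_re, Complex.conj_im, Complex.re_ofNat, Complex.im_ofNat]
    ring
  have hrc : CircleIntegrable (Complex.reCLM ∘ g) c t :=
    (Complex.reCLM.continuous.comp hgc).continuousOn.circleIntegrable'
  rw [h4, Real.circleAverage_fun_add (circleIntegrable_const _ _ _) hrc,
    Real.circleAverage_const, h3, add_zero]

private theorem Ex4a_re {P : ℂ → ℂ} (hP : Differentiable ℂ P) (c : ℂ) (t : ℝ) :
    Real.circleAverage (fun z => (P z).re) c t = (P c).re := by
  have h2 : Real.circleAverage P c t = P c := hP.diffContOnCl.circleAverage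
  have h3 := Complex.reCLM.circleAverage_comp_comm (f := P) (c := c) (R := t)
    hP.continuous.continuousOn.circleIntegrable'
  rw [h2] at h3
  exact h3

private theorem Ex4a_max {u : ℂ → ℝ} {b : ℂ} {r : ℝ} (hr : 0 < r)
    (hc : ContinuousOn u (closedBall b r))
    (hl : ∀ z ∈ ball b r, ∃ ρ > 0, ∀ s, 0 < s → s < ρ → u z ≤ Real.circleAverage u z s)
    {P : ℂ → ℂ} (hP : Differentiable ℂ P) (hle : ∀ z ∈ sphere b r, u z ≤ (P z).re) :
    u b ≤ (P b).re := by
  by_contra hcon
  rw [not_le] at hcon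
  obtain ⟨ε, hε, hε1⟩ : ∃ ε : ℝ, 0 < ε ∧ ε * r ^ 2 = (u b - (P b).re) / 2 :=
    ⟨(u b - (P b).re) / (2 * r ^ 2), div_pos (by linarith) (by positivity), by field_simp⟩
  obtain ⟨G, hG⟩ : ∃ G : ℂ → ℝ, G = fun z => u z - (P z).re + ε * (‖z - b‖ ^ 2 - r ^ 2) :=
    ⟨_, rfl⟩
  have hPc : Continuous fun z => (P z).re := Complex.continuous_re.comp hP.continuous
  have hqc : Continuous fun z : ℂ => ε * (‖z - b‖ ^ 2 - r ^ 2) := by fun_prop
  have hGc : ContinuousOn G (closedBall b r) := by
    rw [hG]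
    exact (hc.sub hPc.continuousOn).add hqc.continuousOn
  obtain ⟨s, hs, hmax⟩ := (isCompact_closedBall b r).exists_isMaxOn
    ⟨b, mem_closedBall_self hr.le⟩ hGc
  have hmax' : ∀ z ∈ closedBall b r, G z ≤ G s := fun z hz => hmax hz
  have hGb : 0 < G b := by
    rw [hG]
    show 0 < u b - (P b).re + ε * (‖b - b‖ ^ 2 - r ^ 2)
    rw [sub_self, norm_zero]
    nlinarith
  have hGs : 0 < G s := hGb.trans_le (hmax' b (mem_closedBall_self hr.le))
  have hsb : s ∈ ball b r := by
    rw [mem_ball]
    refine lt_of_le_of_ne hs fun he => ?_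
    have h1 : s ∈ sphere b r := he
    have h2 : ‖s - b‖ = r := by rw [← dist_eq_norm]; exact he
    have h3 : G s = u s - (P s).re := by
      rw [hG]
      show u s - (P s).re + ε * (‖s - b‖ ^ 2 - r ^ 2) = _
      rw [h2]
      ring
    rw [h3] at hGs
    have := hle s h1
    linarith
  obtain ⟨ρ, hρ, hav⟩ := hl s hsb
  obtain ⟨ρ', hρ', hball⟩ := Metric.isOpen_iff.1 isOpen_ball s hsb
  obtain ⟨t, ht⟩ : ∃ t, t = min ρ ρ' / 2 := ⟨_, rfl⟩
  have ht0 : 0 < t := by rw [ht]; exact half_pos (lt_min hρ hρ')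
  have ht1 : t < ρ := by
    have := min_le_left ρ ρ'
    have := lt_min hρ hρ'
    rw [ht]
    linarith
  have ht2 : t < ρ' := by
    have := min_le_right ρ ρ'
    have := lt_min hρ hρ'
    rw [ht]
    linarith
  have h1 := hav t ht0 ht1
  have hcb : ∀ z ∈ sphere s |t|, z ∈ closedBall b r := by
    intro z hz
    rw [mem_sphere, abs_of_pos ht0] at hz
    refine ball_subset_closedBall (hball ?_)
    rw [mem_ball, hz]
    exact ht2
  have i1 : CircleIntegrable u s t := (hc.mono hcb).circleIntegrable'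
  have i2 : CircleIntegrable (fun z => (P z).re) s t := hPc.continuousOn.circleIntegrable'
  have i3 : CircleIntegrable (fun z : ℂ => ‖z - b‖ ^ 2) s t := by
    refine ContinuousOn.circleIntegrable' (Continuous.continuousOn ?_)
    fun_prop
  have i4 : CircleIntegrable (fun z : ℂ => ε * (‖z - b‖ ^ 2 - r ^ 2)) s t :=
    hqc.continuousOn.circleIntegrable'
  have h2 : Real.circleAverage (fun z : ℂ => ε * (‖z - b‖ ^ 2 - r ^ 2)) s t =
      ε * (‖s - b‖ ^ 2 + t ^ 2 - r ^ 2) := by
    have e1 := Real.circleAverage_fun_smul (a := ε) (f := fun z : ℂ => ‖z - b‖ ^ 2 - r ^ 2)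
      (c := s) (R := t)
    simp only [smul_eq_mul] at e1
    have e2 := Real.circleAverage_fun_sub i3 (circleIntegrable_const (r ^ 2) s t)
    rw [Ex4a_sq b s ht0, Real.circleAverage_const] at e2
    rw [e1, e2]
  have i5 : CircleIntegrable (fun z => u z - (P z).re) s t := i1.sub i2
  have h3 : Real.circleAverage (fun z => (u z - (P z).re) + ε * (‖z - b‖ ^ 2 - r ^ 2)) s t ≤
      G s :=
    Real.circleAverage_mono_on_of_le_circle (i5.add i4) fun z hz => by
      have := hmax' z (hcb z hz)
      rw [hG] at this ⊢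
      exact this
  rw [Real.circleAverage_fun_add i5 i4, h2] at h3
  have h4 := Real.circleAverage_fun_sub i1 i2
  rw [Ex4a_re hP] at h4
  rw [h4, hG] at h3
  have h5 : 0 < ε * t ^ 2 := by positivity
  nlinarith

theorem sub_global {u : ℂ → ℝ} {b : ℂ} {r : ℝ} (hr : 0 < r) (hc : ContinuousOn u (closedBall b r))
    (hl : ∀ z ∈ ball b r, ∃ ρ > 0, ∀ s, 0 < s → s < ρ → u z ≤ Real.circleAverage u z s) :
    u b ≤ Real.circleAverage u b r := by
  have hcs := hc.mono sphere_subset_closedBall
  have hi : CircleIntegrable u b r := hcs.circleIntegrable hr.le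
  refine le_of_forall_pos_le_add fun η hη => ?_
  obtain ⟨P, hP, hle⟩ := approx_re hr hcs hη
  refine (Ex4a_max hr hc hl hP fun z hz => (hle z hz).1).trans ?_
  have h4 : Real.circleAverage (fun z => u z + η) b r = Real.circleAverage u b r + η := by
    have h5 := Real.circleAverage_fun_add hi (circleIntegrable_const η b r)
    rw [h5, Real.circleAverage_const]
  rw [← Ex4a_re hP b r, ← h4]
  refine Real.circleAverage_mono ?_ ?_ fun z hz => ?_
  · exact (Complex.continuous_re.comp hP.continuous).continuousOn.circleIntegrable hr.le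
  · exact hi.add (circleIntegrable_const η b r)
  · rw [abs_of_pos hr] at hz
    exact (hle z hz).2

end Pool.Agent.Nef6.UM
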