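import Pool.Agent.H.MP_6a1d6a_ag.UM.Def

/-!
MP_6a1d6a_ag/UM, module Stab: the condition on degenerate metrics, and isometric coordinate changes (definitions).
-/

set_option autoImplicit false

open Set Filter Topology Metric
open scoped ContDiff Manifold

namespace Pool.Agent.Nef6.UM

open Pool.Agent.Nef6.SN
open Pool.Agent.Nef6.DM (disc IsSemi InU)

/-- Perturbations of second order of small straight discs change the lengths of their tangent vectors only by a small part of
the maximal length: the vectors `w`, `‖w - v‖ ≤ C r`, at the points `x'` with distance `≤ C r ^ 2` from a point `x + s v`, `|s| ≤ r`, of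
the disc have the length of `v` at `x + s v` up to `ε * disc h x v r`, for small `r`, locally uniformly. (True for continuous metrics
with `h x v > 0` for `v ≠ 0`.) -/
def Stable {N : ℕ} (h : E N → E N → ℝ) (U : Set (E N)) : Prop :=
  ∀ x₀ ∈ U, ∀ C > 0, ∀ ε > 0, ∃ δ > 0, ∀ x ∈ ball x₀ δ, ∀ v : E N, ‖v‖ = 1 → ∀ r, 0 < r → r < δ →
    ∀ s : ℂ, ‖s‖ ≤ r → ∀ x' w : E N, ‖x' - (x + s • v)‖ ≤ C * r ^ 2 → ‖w - v‖ ≤ C * r →
      |h x' w - h (x + s • v) v| ≤ ε * disc h x v r

/-- The metrics `h` in the chart `φ` and `h'` in the chart `ψ` are the same. -/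
def Isom {N : ℕ} {Y : Type} [TopologicalSpace Y] [ChartedSpace (E N) Y] (φ : Chart N Y)
    (h : E N → E N → ℝ) (ψ : Chart N Y) (h' : E N → E N → ℝ) : Prop :=
  ∀ y ∈ φ.source, y ∈ ψ.source → ∀ v, h' (ψ y) (fderiv ℂ (ψ ∘ φ.symm) (φ y) v) = h (φ y) v

end Pool.Agent.Nef6.UM
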