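import Pool.Agent.H.MP_6a1d6a_ag.UM.Ex4a
import Pool.Agent.H.MP_6a1d6a_ag.UM.Stab
import Pool.Agent.H.MP_6a1d6a_ag.SN.B4

/-!
MP_6a1d6a_ag/UM, module Ex4b: examples: pull-backs of metrics with cone singularities are continuous degenerate metrics with plurisubharmonic logarithm.

`op`, `cont`, `nonneg`, `smul`: `pull_open`, `pull_cont`, `pull_nonneg`, `pull_smul` (`SN/B1.lean`). `pos`: if `v i ≠ 0` the points `s` with `x i + s v i = 0` are at most one for each `i`, so for all but finitely many `s` in the disc: for each `i`, `v i = 0` or `x i + s v i ≠ 0`, and `pull a h (x + s v) v ≠ 0` by `pull_zero_iff`.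
`psh`: `sub_global` (`Ex4a`) for `u z = log (max δ (pull a h (x z) (v z)))` on `closedBall b r`: continuous (composition with `pull_cont`, `max δ _ > 0`). Local property at `z₀` in the ball: if `pull a h (x z₀) (v z₀) < δ`, `u = log δ` near `z₀`, an equality; otherwise it is `≠ 0` and `pull_sub` (`SN/B4.lean`) at `z₀` (with `b = z₀`) gives
`log (pull ..) z₀ ≤ circleAverage (log pull) z₀ s ≤ circleAverage u z₀ s` for small `s` (near `z₀` `pull > 0`; continuity gives integrability on the circle).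
-/

set_option autoImplicit false

open Set Filter Topology Metric
open scoped ContDiff Manifold

namespace Pool.Agent.Nef6.UM

open Pool.Agent.Nef6.SN
open Pool.Agent.Nef6.DM (disc IsSemi InU)

variable {N : ℕ} {a : Fin N → ℝ} {h : E N → E N → ℝ} {U : Set (E N)}

private theorem Ex4b_log {F : ℂ → ℝ} {K : Set ℂ} {δ : ℝ} (hδ : 0 < δ) (hF : ContinuousOn F K) :
    ContinuousOn (fun z => Real.log (max δ (F z))) K := by
  have h1 : ContinuousOn (fun z => max δ (F z)) K := continuousOn_const.sup hF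
  exact h1.log fun z _ => (lt_of_lt_of_le hδ (le_max_left _ _)).ne'

private theorem Ex4b_loc {F : ℂ → ℝ} {b : ℂ} {r δ : ℝ} (hδ : 0 < δ)
    (hF : ContinuousOn F (closedBall b r)) {z₀ : ℂ} (hz : z₀ ∈ ball b r)
    (h : F z₀ ≠ 0 → ∃ ρ > 0, ∀ s, 0 < s → s < ρ →
      Real.log (F z₀) ≤ Real.circleAverage (fun z => Real.log (F z)) z₀ s) :
    ∃ ρ > 0, ∀ s, 0 < s → s < ρ → Real.log (max δ (F z₀)) ≤
      Real.circleAverage (fun z => Real.log (max δ (F z))) z₀ s := by
  have hd : dist z₀ b < r := hz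
  have hsub : ∀ s, s < r - dist z₀ b → closedBall z₀ s ⊆ closedBall b r := by
    intro s hs z hz1
    have h1 := dist_triangle z z₀ b
    have h2 : dist z z₀ ≤ s := hz1
    rw [mem_closedBall]
    linarith
  have hu := Ex4b_log hδ hF
  have hint : ∀ s, 0 < s → s < r - dist z₀ b →
      CircleIntegrable (fun z => Real.log (max δ (F z))) z₀ s := fun s h0 hs =>
    (hu.mono (sphere_subset_closedBall.trans (hsub s hs))).circleIntegrable h0.le
  rcases lt_or_ge (F z₀) δ with h1 | h1
  · refine ⟨r - dist z₀ b, by linarith, fun s h0 hs => ?_⟩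
    rw [max_eq_left h1.le]
    have h2 := Real.circleAverage_mono (circleIntegrable_const (Real.log δ) z₀ s) (hint s h0 hs)
      (fun z _ => Real.log_le_log hδ (le_max_left _ _))
    rwa [Real.circleAverage_const] at h2
  · have hpos : 0 < F z₀ := lt_of_lt_of_le hδ h1
    obtain ⟨ρ₁, hρ₁, h2⟩ := h hpos.ne'
    have hcF : ContinuousAt F z₀ :=
      (hF z₀ (ball_subset_closedBall hz)).continuousAt (closedBall_mem_nhds_of_mem hz)
    obtain ⟨ρ₂, hρ₂, h3⟩ := Metric.eventually_nhds_iff_ball.mp (hcF.eventually (lt_mem_nhds hpos))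
    refine ⟨min (r - dist z₀ b) (min ρ₁ ρ₂), lt_min (by linarith) (lt_min hρ₁ hρ₂),
      fun s h0 hs => ?_⟩
    have hs1 : s < r - dist z₀ b := lt_of_lt_of_le hs (min_le_left _ _)
    have hs2 : s < ρ₁ := lt_of_lt_of_le hs ((min_le_right _ _).trans (min_le_left _ _))
    have hs3 : s < ρ₂ := lt_of_lt_of_le hs ((min_le_right _ _).trans (min_le_right _ _))
    rw [max_eq_right h1]
    refine (h2 s h0 hs2).trans ?_
    have h4 : ∀ z ∈ sphere z₀ s, 0 < F z := fun z hz1 => by
      refine h3 z ?_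
      have h5 : dist z z₀ = s := hz1
      rw [mem_ball, h5]
      exact hs3
    refine Real.circleAverage_mono ?_ (hint s h0 hs1) ?_
    · refine ContinuousOn.circleIntegrable h0.le ?_
      exact (hF.mono (sphere_subset_closedBall.trans (hsub s hs1))).log
        fun z hz1 => (h4 z hz1).ne'
    · intro z hz1
      rw [abs_of_pos h0] at hz1
      exact Real.log_le_log (h4 z hz1) (le_max_right _ _)

private theorem Ex4b_pos (hh : IsMetric h U) (ha : ∀ i, 1 ≤ a i) {x v : E N} (hv : v ≠ 0) {r : ℝ}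
    (hr0 : 0 < r) (hin : InU {x | pt a x ∈ U} x v r) :
    ∃ s : ℂ, ‖s‖ ≤ r ∧ 0 < pull a h (x + s • v) v := by
  classical
  have h1 : ((fun t : ℝ => (t : ℂ)) '' Ioo 0 r).Infinite :=
    (Ioo_infinite hr0).image Complex.ofReal_injective.injOn
  obtain ⟨s, ⟨t, ht, hts⟩, hs⟩ := h1.exists_notMem_finset
    (Finset.univ.image fun i => - x i / v i)
  have hts' : (t : ℂ) = s := hts
  have hsr : ‖s‖ ≤ r := by
    rw [← hts', Complex.norm_real, Real.norm_eq_abs, abs_of_pos ht.1]
    exact ht.2.le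
  have hU := hin s hsr
  refine ⟨s, hsr, lt_of_le_of_ne (pull_nonneg hh hU v) fun h0 => ?_⟩
  have h2 := (pull_zero_iff hh ha hU v).1 h0.symm
  apply hv
  ext i
  rcases h2 i with h3 | ⟨_, h3⟩
  · exact h3
  · by_contra h4
    apply hs
    refine Finset.mem_image.2 ⟨i, Finset.mem_univ _, ?_⟩
    have h5 : x i + s * v i = 0 := h3
    have h6 : v i ≠ 0 := h4
    rw [div_eq_iff h6]
    linear_combination -h5

theorem semi_pull (hh : IsMetric h U) (ha : ∀ i, 1 ≤ a i) (hr : RotInv a h U) :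
    IsSemi (pull a h) {x | pt a x ∈ U} := by
  refine ⟨pull_open hh ha, pull_cont hh ha, fun x hx v => pull_nonneg hh hx v,
    fun x hx c v => pull_smul hh hx c v, ?_, fun x v hv r hr0 hin => Ex4b_pos hh ha hv hr0 hin⟩
  intro x v b r hr0 hx hv hU δ hδ
  have hF : ContinuousOn (fun z => pull a h (x z) (v z)) (closedBall b r) := by
    have h1 : ContinuousOn (fun z => (x z, v z)) (closedBall b r) := fun z hz =>
      ((hx z hz).continuousAt.prodMk (hv z hz).continuousAt).continuousWithinAt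
    exact ContinuousOn.comp (g := fun q : E N × E N => pull a h q.1 q.2)
      (f := fun z => (x z, v z)) (t := {x | pt a x ∈ U} ×ˢ univ) (pull_cont hh ha) h1
      fun z hz => ⟨(hU z hz).1, mem_univ _⟩
  refine sub_global (u := fun z => Real.log (max δ (pull a h (x z) (v z)))) hr0
    (Ex4b_log hδ hF) fun z₀ hz₀ => ?_
  have hz₁ := ball_subset_closedBall hz₀
  refine Ex4b_loc hδ hF hz₀ fun h0 => ?_
  obtain ⟨ρ, hρ, h1⟩ := pull_sub hh ha hr (hx z₀ hz₁) (hv z₀ hz₁) (hU z₀ hz₁).1 h0
  exact ⟨ρ, hρ, fun s hs hsρ => h1 z₀ (mem_ball_self hρ) s hs hsρ⟩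

end Pool.Agent.Nef6.UM
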