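import Pool.Agent.H.MP_6a1d6a_ag.UM.Stab
import Pool.Agent.H.MP_6a1d6a_ag.SN.B1

/-!
MP_6a1d6a_ag/UM, module Ex4c: examples: cone metrics with cone angles `< 4π` are stable.

Let `b i = a i - 1 ∈ [0, 1)`, `X = x + s • v`, `X' = x'`, `β = max b i < 1`. All constants are locally uniform. (1) `pt a` is locally Lipschitz (or just: `‖pt a X' - pt a X‖ → 0` for `r → 0` uniformly, by uniform continuity). `h` is continuous and positive on `v ≠ 0`, so on a compact set `m ‖w‖ ≤ h p w ≤ M ‖w‖`, and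
`|h p' w' - h p w| ≤ |h p' w' - h p' w| + |h p' w - h p w| ≤ M ‖w' - w‖ + η ‖w‖` (`IsMetric.add`, homogeneity; `η → 0` for `p' → p`), with `w = vec a X v`, `w' = vec a X' w₁` (`w₁` the vector called `w` in `Stable`), and `η ‖w‖ ≤ (η / m) h p w ≤ (η / m) disc (pull a h) x v r`. (2) Components of `w' - w`: `a i (|X' i| ^ b i (w₁ i - v i) + (|X' i| ^ b i - |X i| ^ b i) v i)`:
the first part is `O(r)`; the second is `≤ K₀ r ^ (2 b i) ‖v i‖` (`||p| ^ b - |q| ^ b| ≤ |p - q| ^ b` for `0 ≤ b ≤ 1`; `0` if `b i = 0`). (3) Lower bound: `disc (pull a h) x v r ≥ m' max_i (r ‖v i‖) ^ b i ‖v i‖`, `m' > 0` (for some `s` with `|s| ≤ r`: `|x i + s v i| ≥ r ‖v i‖`). As `‖v‖ = 1`, some `‖v j‖ ≥ 1 / N` (or `1 / √N`), so `disc ≥ c r ^ β` for `r ≤ 1`, and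
`O(r) ≤ ε disc` for small `r` since `β < 1`. (4) For the second part: given `κ > 0` take `K ≥ 1` with `K₀ ≤ κ m' K ^ b i` for all `i` with `b i > 0`; if `‖v i‖ ≥ K r`: `K₀ r ^ (2 b i) ‖v i‖ ≤ κ m' (r ‖v i‖) ^ b i ‖v i‖ ≤ κ disc`; if `‖v i‖ < K r`: it is `≤ K₀ K r`, covered by (3).
-/

set_option autoImplicit false

open Set Filter Topology Metric
open scoped ContDiff Manifold

namespace Pool.Agent.Nef6.UM

open Pool.Agent.Nef6.SN
open Pool.Agent.Nef6.DM (disc IsSemi InU)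

variable {N : ℕ} {a : Fin N → ℝ} {h : E N → E N → ℝ} {U : Set (E N)}

private theorem Ex4c_norm_le (u : E N) : ‖u‖ ≤ ∑ i, ‖u i‖ := by
  have h1 : ‖u‖ ^ 2 = ∑ i, ‖u i‖ ^ 2 := EuclideanSpace.norm_sq_eq u
  have h2 : 0 ≤ ∑ i, ‖u i‖ := Finset.sum_nonneg fun i _ => norm_nonneg _
  refine (pow_le_pow_iff_left₀ (norm_nonneg u) h2 two_ne_zero).1 ?_
  rw [h1, pow_two, Finset.sum_mul]
  refine Finset.sum_le_sum fun i hi => ?_
  rw [pow_two]
  exact mul_le_mul_of_nonneg_left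
    (Finset.single_le_sum (f := fun i => ‖u i‖) (fun j _ => norm_nonneg _) hi) (norm_nonneg _)

private theorem Ex4c_abs {b P Q : ℝ} (hb : 0 ≤ b) (hb1 : b ≤ 1) (hP : 0 ≤ P) (hQ : 0 ≤ Q) :
    |P ^ b - Q ^ b| ≤ |P - Q| ^ b := by
  have key : ∀ x y : ℝ, 0 ≤ x → x ≤ y → |y ^ b - x ^ b| ≤ |y - x| ^ b := by
    intro x y hx hxy
    have h1 := Real.rpow_add_le_add_rpow hx (sub_nonneg.2 hxy) hb hb1
    rw [add_sub_cancel] at h1
    have h2 := Real.rpow_le_rpow hx hxy hb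
    rw [abs_of_nonneg (sub_nonneg.2 h2), abs_of_nonneg (sub_nonneg.2 hxy)]
    linarith
  rcases le_total Q P with h | h
  · exact key Q P hQ h
  · rw [abs_sub_comm (P ^ b), abs_sub_comm P]
    exact key P Q hP h

private theorem Ex4c_r1 {b C κ : ℝ} (hb : 0 ≤ b) (hb1 : b < 1) (hC : 0 < C) (hκ : 0 < κ) :
    ∃ K' : ℝ, 0 ≤ K' ∧ ∀ r t P Q : ℝ, 0 < r → r ≤ 1 → 0 ≤ t → 0 ≤ P → 0 ≤ Q →
      |P - Q| ≤ C * r ^ 2 → |P ^ b - Q ^ b| * t ≤ κ * ((r * t) ^ b * t) + K' * r := by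
  rcases hb.eq_or_lt with h0 | hpos
  · refine ⟨0, le_rfl, fun r t P Q hr hr1 ht hP hQ h => ?_⟩
    rw [← h0, Real.rpow_zero, Real.rpow_zero, Real.rpow_zero, sub_self, abs_zero, zero_mul,
      zero_mul, add_zero, one_mul]
    exact mul_nonneg hκ.le ht
  · obtain ⟨L, hL⟩ : ∃ L, L = κ ^ (1 / b) := ⟨_, rfl⟩
    have hLpos : 0 < L := by rw [hL]; exact Real.rpow_pos_of_pos hκ _
    have hLb : L ^ b = κ := by
      rw [hL, ← Real.rpow_mul hκ.le, one_div, inv_mul_cancel₀ hpos.ne', Real.rpow_one]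
    have hKL : 0 < C / L := by positivity
    have hCb : 0 ≤ C ^ b := Real.rpow_nonneg hC.le b
    refine ⟨C ^ b * (C / L), mul_nonneg hCb hKL.le, fun r t P Q hr hr1 ht hP hQ h => ?_⟩
    have h1 : |P ^ b - Q ^ b| ≤ |P - Q| ^ b := Ex4c_abs hb hb1.le hP hQ
    have h2 : |P ^ b - Q ^ b| ≤ (C * r ^ 2) ^ b :=
      h1.trans (Real.rpow_le_rpow (abs_nonneg _) h hb)
    have hKr : 0 ≤ C ^ b * (C / L) * r := mul_nonneg (mul_nonneg hCb hKL.le) hr.le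
    rcases le_total (C / L * r) t with hc | hc
    · have h3 : C * r ^ 2 ≤ L * (r * t) := by
        have h4 : C * r ≤ L * t := by
          have h5 := mul_le_mul_of_nonneg_left hc hLpos.le
          have h6 : L * (C / L * r) = C * r := by field_simp
          rwa [h6] at h5
        have h7 := mul_le_mul_of_nonneg_right h4 hr.le
        nlinarith
      have h5 : (C * r ^ 2) ^ b ≤ κ * (r * t) ^ b := by
        calc (C * r ^ 2) ^ b ≤ (L * (r * t)) ^ b := Real.rpow_le_rpow (by positivity) h3 hb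
          _ = L ^ b * (r * t) ^ b := Real.mul_rpow hLpos.le (by positivity)
          _ = κ * (r * t) ^ b := by rw [hLb]
      have h6 := mul_le_mul_of_nonneg_right (h2.trans h5) ht
      rw [mul_assoc] at h6
      linarith
    · have hr2 : C * r ^ 2 ≤ C := by
        have : r ^ 2 ≤ 1 := pow_le_one₀ hr.le hr1
        nlinarith
      have h3 : (C * r ^ 2) ^ b ≤ C ^ b := Real.rpow_le_rpow (by positivity) hr2 hb
      have h4 : |P ^ b - Q ^ b| * t ≤ C ^ b * (C / L * r) := mul_le_mul (h2.trans h3) hc ht hCb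
      have h5 : 0 ≤ κ * ((r * t) ^ b * t) := by positivity
      have h6 : C ^ b * (C / L * r) = C ^ b * (C / L) * r := by ring
      linarith

private theorem Ex4c_r2 {b c K : ℝ} (hb1 : b < 1) (hc : 0 < c) (hK : 0 ≤ K) :
    ∃ δ > 0, ∀ r, 0 < r → r < δ → K * r ≤ c * r ^ b := by
  have hb2 : 0 < 1 - b := by linarith
  have hq : 0 < c / (K + 1) := by positivity
  refine ⟨(c / (K + 1)) ^ (1 / (1 - b)), Real.rpow_pos_of_pos hq _, fun r hr hrδ => ?_⟩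
  have h1 : r ^ (1 - b) ≤ c / (K + 1) := by
    have h := Real.rpow_le_rpow hr.le hrδ.le hb2.le
    rwa [← Real.rpow_mul hq.le, one_div, inv_mul_cancel₀ hb2.ne', Real.rpow_one] at h
  have h2 : r ^ (1 - b) * r ^ b = r := by
    rw [← Real.rpow_add hr, sub_add_cancel, Real.rpow_one]
  have h3 : K * r ^ (1 - b) ≤ c := by
    calc K * r ^ (1 - b) ≤ K * (c / (K + 1)) := mul_le_mul_of_nonneg_left h1 hK
      _ = K * c / (K + 1) := by ring
      _ ≤ c := by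
        rw [div_le_iff₀ (by positivity)]
        nlinarith
  calc K * r = K * (r ^ (1 - b) * r ^ b) := by rw [h2]
    _ = K * r ^ (1 - b) * r ^ b := by ring
    _ ≤ c * r ^ b := mul_le_mul_of_nonneg_right h3 (Real.rpow_nonneg hr.le b)

private theorem Ex4c_hom (hh : IsMetric h U) {q : E N} (hq : q ∈ U) {u : E N} (hu : u ≠ 0) :
    ((‖u‖⁻¹ : ℝ) : ℂ) • u ∈ sphere (0 : E N) 1 ∧
      h q u = ‖u‖ * h q (((‖u‖⁻¹ : ℝ) : ℂ) • u) := by
  have h0 : ‖u‖ ≠ 0 := norm_ne_zero_iff.2 hu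
  have h1 : ‖((‖u‖⁻¹ : ℝ) : ℂ)‖ = ‖u‖⁻¹ := by
    rw [Complex.norm_real, Real.norm_eq_abs, abs_of_nonneg (by positivity)]
  constructor
  · rw [mem_sphere_zero_iff_norm, norm_smul, h1, inv_mul_cancel₀ h0]
  · rw [hh.smul q hq, h1, ← mul_assoc, mul_inv_cancel₀ h0, one_mul]

private theorem Ex4c_near (hh : IsMetric h U) (ha : ∀ i, 1 ≤ a i) {x₀ : E N} (hx₀ : pt a x₀ ∈ U) :
    ∃ m > 0, ∃ M > 0, ∀ η > 0, ∀ᶠ p in 𝓝 x₀, pt a p ∈ U ∧ ∀ u, m * ‖u‖ ≤ h (pt a p) u ∧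
      h (pt a p) u ≤ M * ‖u‖ ∧ |h (pt a p) u - h (pt a x₀) u| ≤ η * ‖u‖ := by
  have hc : ContinuousOn (fun q : E N × E N => h (pt a q.1) q.2) ({x | pt a x ∈ U} ×ˢ univ) :=
    hh.cont.comp (((pt_cont ha).comp continuous_fst).prodMk continuous_snd).continuousOn
      (fun q hq => ⟨hq.1, mem_univ _⟩)
  have hca : ∀ u, ContinuousAt (fun q : E N × E N => h (pt a q.1) q.2) (x₀, u) := fun u =>
    hc.continuousAt (((pull_open hh ha).prod isOpen_univ).mem_nhds ⟨hx₀, mem_univ _⟩)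
  have hc0 : Continuous fun u : E N => h (pt a x₀) u := by
    refine continuous_iff_continuousAt.2 fun u => ?_
    exact (hca u).comp (f := fun u : E N => (x₀, u)) (by fun_prop)
  have hsph : IsCompact (sphere (0 : E N) 1) := isCompact_sphere 0 1
  obtain ⟨m₀, hm₀, hm₀'⟩ := hsph.exists_forall_le' hc0.continuousOn (a := 0) (fun u hu =>
    hh.pos _ hx₀ u (by
      rintro rfl
      simp at hu))
  obtain ⟨M₀, hM₀⟩ := hsph.exists_bound_of_continuousOn hc0.continuousOn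
  refine ⟨m₀ / 2, by positivity, |M₀| + m₀, by positivity, fun η hη => ?_⟩
  have htube : ∀ᶠ p in 𝓝 x₀, ∀ u ∈ sphere (0 : E N) 1,
      |h (pt a p) u - h (pt a x₀) u| < min η (m₀ / 2) := by
    refine hsph.eventually_forall_of_forall_eventually
      (P := fun p u => |h (pt a p) u - h (pt a x₀) u| < min η (m₀ / 2)) fun u _ => ?_
    have h1 : ContinuousAt (fun z : E N × E N => |h (pt a z.1) z.2 - h (pt a x₀) z.2|)
        (x₀, u) := ((hca u).sub (hc0.comp continuous_snd).continuousAt).abs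
    refine h1.tendsto.eventually_lt_const ?_
    simp only [sub_self, abs_zero]
    exact lt_min hη (by positivity)
  filter_upwards [htube, (pull_open hh ha).mem_nhds hx₀] with p hp hpU
  refine ⟨hpU, fun u => ?_⟩
  rcases eq_or_ne u 0 with rfl | hu
  · rw [hh.zero hpU, hh.zero hx₀]
    simp
  · obtain ⟨h1, h2⟩ := Ex4c_hom hh hpU hu
    obtain ⟨-, h3⟩ := Ex4c_hom hh hx₀ hu
    have h4 := (hp _ h1).le
    have h5 := hm₀' _ h1
    have h6 := hM₀ _ h1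
    rw [Real.norm_eq_abs] at h6
    have h7 := le_abs_self M₀
    have h8 := abs_le.1 h6
    have h9 := abs_le.1 (h4.trans (min_le_right _ _))
    have hu0 := norm_nonneg u
    refine ⟨?_, ?_, ?_⟩
    · rw [h2, mul_comm]
      exact mul_le_mul_of_nonneg_left (by linarith [h9.1]) hu0
    · rw [h2, mul_comm (|M₀| + m₀)]
      exact mul_le_mul_of_nonneg_left (by linarith [h9.2, h8.2]) hu0
    · rw [h2, h3, ← mul_sub, abs_mul, abs_of_nonneg hu0, mul_comm]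
      exact mul_le_mul_of_nonneg_right (h4.trans (min_le_left _ _)) hu0

private theorem Ex4c_diff (hh : IsMetric h U) {q : E N} (hq : q ∈ U) {M : ℝ}
    (hM : ∀ u, h q u ≤ M * ‖u‖) (u u' : E N) : |h q u' - h q u| ≤ M * ‖u' - u‖ := by
  have h1 := hh.add q hq u (u' - u)
  have h2 := hh.add q hq u' (u - u')
  rw [add_sub_cancel] at h1 h2
  have h3 := hM (u' - u)
  have h4 := hM (u - u')
  rw [norm_sub_rev] at h4
  rw [abs_le]
  constructor <;> linarith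

/-- the difference of the vectors -/
private theorem Ex4c_vec (ha : ∀ i, 1 ≤ a i) (ha2 : ∀ i, a i < 2) {C κ R r : ℝ}
    {K' : Fin N → ℝ} (hK' : ∀ i, ∀ r t P Q : ℝ, 0 < r → r ≤ 1 → 0 ≤ t → 0 ≤ P → 0 ≤ Q →
      |P - Q| ≤ C * r ^ 2 →
      |P ^ (a i - 1) - Q ^ (a i - 1)| * t ≤ κ * ((r * t) ^ (a i - 1) * t) + K' i * r)
    (hR : 1 ≤ R) (hr : 0 < r) (hr1 : r ≤ 1) {p p' v w : E N} (hp' : ‖p'‖ ≤ R)
    (hpp : ‖p' - p‖ ≤ C * r ^ 2) (hw : ‖w - v‖ ≤ C * r) :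
    ‖vec a p' w - vec a p v‖ ≤
      ∑ i, (2 * κ * ((r * ‖v i‖) ^ (a i - 1) * ‖v i‖) + 2 * (R * C + K' i) * r) := by
  refine (Ex4c_norm_le _).trans (Finset.sum_le_sum fun i _ => ?_)
  have hai := ha i
  have hai2 := ha2 i
  have e1 : (vec a p' w - vec a p v) i =
      ((a i * ‖p' i‖ ^ (a i - 1) : ℝ) : ℂ) * (w i - v i) +
        ((a i * (‖p' i‖ ^ (a i - 1) - ‖p i‖ ^ (a i - 1)) : ℝ) : ℂ) * v i := by
    change ((a i * ‖p' i‖ ^ (a i - 1) : ℝ) : ℂ) * w i -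
      ((a i * ‖p i‖ ^ (a i - 1) : ℝ) : ℂ) * v i = _
    push_cast
    ring
  have h1 : ‖p' i‖ ^ (a i - 1) ≤ R := by
    have h2 : ‖p' i‖ ≤ R := (PiLp.norm_apply_le p' i).trans hp'
    calc ‖p' i‖ ^ (a i - 1) ≤ R ^ (a i - 1) := Real.rpow_le_rpow (norm_nonneg _) h2 (by linarith)
      _ ≤ R ^ (1 : ℝ) := Real.rpow_le_rpow_of_exponent_le hR (by linarith)
      _ = R := Real.rpow_one R
  have h3 : ‖w i - v i‖ ≤ C * r := (PiLp.norm_apply_le (w - v) i).trans hw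
  have h4 : |‖p' i‖ - ‖p i‖| ≤ C * r ^ 2 :=
    (abs_norm_sub_norm_le _ _).trans ((PiLp.norm_apply_le (p' - p) i).trans hpp)
  have h5 := hK' i r ‖v i‖ ‖p' i‖ ‖p i‖ hr hr1 (norm_nonneg _) (norm_nonneg _) (norm_nonneg _) h4
  have h6 : 0 ≤ ‖p' i‖ ^ (a i - 1) := Real.rpow_nonneg (norm_nonneg _) _
  rw [e1]
  refine (norm_add_le _ _).trans ?_
  rw [norm_mul, norm_mul, Complex.norm_real, Complex.norm_real, Real.norm_eq_abs,
    Real.norm_eq_abs, abs_mul, abs_mul, abs_of_nonneg (by linarith : (0 : ℝ) ≤ a i),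
    abs_of_nonneg h6]
  have h7 : a i * ‖p' i‖ ^ (a i - 1) * ‖w i - v i‖ ≤ 2 * (R * (C * r)) := by
    rw [mul_assoc]
    exact mul_le_mul hai2.le (mul_le_mul h1 h3 (norm_nonneg _) (by linarith))
      (mul_nonneg h6 (norm_nonneg _)) (by norm_num)
  have h8 : a i * |‖p' i‖ ^ (a i - 1) - ‖p i‖ ^ (a i - 1)| * ‖v i‖ ≤
      2 * (κ * ((r * ‖v i‖) ^ (a i - 1) * ‖v i‖) + K' i * r) := by
    rw [mul_assoc]
    exact mul_le_mul hai2.le h5 (mul_nonneg (abs_nonneg _) (norm_nonneg _)) (by norm_num)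
  calc _ ≤ 2 * (R * (C * r)) + 2 * (κ * ((r * ‖v i‖) ^ (a i - 1) * ‖v i‖) + K' i * r) :=
        add_le_add h7 h8
    _ = _ := by ring

/-- a point of the disc where a coordinate is large -/
private theorem Ex4c_pick (X V : ℂ) {r : ℝ} (hr : 0 < r) :
    ∃ s : ℂ, ‖s‖ ≤ r ∧ r * ‖V‖ ≤ ‖X + s * V‖ := by
  by_contra hcon
  push Not at hcon
  have hn : ‖(r : ℂ)‖ = r := by
    rw [Complex.norm_real, Real.norm_eq_abs, abs_of_pos hr]
  have h1 := hcon (r : ℂ) hn.le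
  have h2 := hcon (-(r : ℂ)) (by rw [norm_neg]; exact hn.le)
  have h3 : ‖(X + r * V) - (X + -(r : ℂ) * V)‖ ≤ ‖X + r * V‖ + ‖X + -(r : ℂ) * V‖ :=
    norm_sub_le _ _
  have h4 : (X + r * V) - (X + -(r : ℂ) * V) = 2 * (r * V) := by ring
  rw [h4, norm_mul, norm_mul, hn, Complex.norm_ofNat] at h3
  linarith

theorem stable_pull (hh : IsMetric h U) (ha : ∀ i, 1 ≤ a i) (ha2 : ∀ i, a i < 2) :
    Stable (pull a h) {x | pt a x ∈ U} := by
  intro x₀ hx₀ C hC ε hε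
  obtain ⟨m, hm, M, hM, hnear⟩ := Ex4c_near hh ha hx₀
  obtain ⟨τ, hτ⟩ : ∃ τ : ℝ, τ = 1 / (N + 1) := ⟨_, rfl⟩
  have hτ0 : 0 < τ := by rw [hτ]; positivity
  have hτN : (N : ℝ) * τ ≤ 1 - τ := by
    rw [hτ]
    field_simp
    linarith
  have hτ1 : τ ≤ 1 := by
    have : 0 ≤ (N : ℝ) * τ := by positivity
    linarith
  obtain ⟨κ, hκ⟩ : ∃ κ, κ = ε * m * τ / (8 * M) := ⟨_, rfl⟩
  have hκ0 : 0 < κ := by rw [hκ]; positivity
  have hb0 : ∀ i, 0 ≤ a i - 1 := fun i => by linarith [ha i]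
  have hb1 : ∀ i, a i - 1 < 1 := fun i => by linarith [ha2 i]
  choose K' hK'0 hK' using fun i => Ex4c_r1 (hb0 i) (hb1 i) hC hκ0
  obtain ⟨R, hR⟩ : ∃ R, R = ‖x₀‖ + 1 := ⟨_, rfl⟩
  have hR1 : 1 ≤ R := by
    rw [hR]
    linarith [norm_nonneg x₀]
  obtain ⟨K, hK⟩ : ∃ K, K = ∑ i, 2 * (R * C + K' i) := ⟨_, rfl⟩
  have hK0 : 0 ≤ K := by
    rw [hK]
    refine Finset.sum_nonneg fun i _ => ?_
    have := hK'0 i
    positivity
  obtain ⟨c, hc⟩ : ∃ c, c = ε / (4 * M) * (m * (τ * τ)) := ⟨_, rfl⟩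
  have hc0 : 0 < c := by rw [hc]; positivity
  choose d hd hd' using fun j => Ex4c_r2 (b := a j - 1) (hb1 j) hc0 hK0
  obtain ⟨δ₀, hδ₀, hnear'⟩ := Metric.eventually_nhds_iff_ball.1
    (hnear (m * ε / 4) (by positivity))
  -- the choice of `δ`
  have hC2 : 0 < 2 + C := by linarith
  have hev : ∀ᶠ δ in 𝓝[>] (0 : ℝ), 0 < δ ∧ δ < 1 / (2 + C) ∧ δ < δ₀ / (2 + C) ∧
      ∀ j, δ < d j := by
    have h1 : ∀ z : ℝ, 0 < z → ∀ᶠ δ in 𝓝[>] (0 : ℝ), δ < z := fun z hz =>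
      (eventually_lt_nhds hz).filter_mono nhdsWithin_le_nhds
    have h2 : ∀ᶠ δ in 𝓝[>] (0 : ℝ), 0 < δ := eventually_mem_nhdsWithin
    have h3 : ∀ᶠ δ in 𝓝[>] (0 : ℝ), ∀ j, δ < d j := eventually_all.2 fun j => h1 _ (hd j)
    filter_upwards [h2, h1 _ (div_pos one_pos hC2), h1 _ (div_pos hδ₀ hC2), h3]
      with δ g1 g2 g3 g4
    exact ⟨g1, g2, g3, g4⟩
  obtain ⟨δ, hδ, hδ1, hδ2, hδ3⟩ := hev.exists
  rw [lt_div_iff₀ hC2] at hδ1 hδ2
  refine ⟨δ, hδ, fun x hx v hv r hr hrδ s hs x' w hx' hw => ?_⟩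
  rw [mem_ball, dist_eq_norm] at hx
  have hδle : δ ≤ 1 := by nlinarith
  have hr1 : r ≤ 1 := by linarith
  -- points near `x₀`
  have hnb : ∀ p : E N, ‖p - x₀‖ ≤ δ * (2 + C) → (pt a p ∈ U ∧ ∀ u, m * ‖u‖ ≤ h (pt a p) u ∧
      h (pt a p) u ≤ M * ‖u‖ ∧ |h (pt a p) u - h (pt a x₀) u| ≤ m * ε / 4 * ‖u‖) ∧ ‖p‖ ≤ R := by
    intro p hp
    refine ⟨hnear' p (by rw [mem_ball, dist_eq_norm]; linarith), ?_⟩
    have h1 : ‖p‖ ≤ ‖p - x₀‖ + ‖x₀‖ := by
      have := norm_add_le (p - x₀) x₀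
      rwa [sub_add_cancel] at this
    rw [hR]
    linarith
  have hpd : ∀ s' : ℂ, ‖s'‖ ≤ r → ‖x + s' • v - x₀‖ ≤ 2 * δ := by
    intro s' hs'
    have h1 : x + s' • v - x₀ = (x - x₀) + s' • v := by abel
    rw [h1]
    refine (norm_add_le _ _).trans ?_
    rw [norm_smul, hv, mul_one]
    linarith
  have hpd' : ∀ s' : ℂ, ‖s'‖ ≤ r → ‖x + s' • v - x₀‖ ≤ δ * (2 + C) := by
    intro s' hs'
    have h1 := hpd s' hs'
    nlinarith
  have hxd : ‖x' - x₀‖ ≤ δ * (2 + C) := by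
    have h1 : x' - x₀ = (x' - (x + s • v)) + (x + s • v - x₀) := by abel
    rw [h1]
    refine (norm_add_le _ _).trans ?_
    have h2 := hpd s hs
    have h3 : C * r ^ 2 ≤ C * δ := by
      have : r ^ 2 ≤ δ := by nlinarith
      exact mul_le_mul_of_nonneg_left this hC.le
    linarith
  obtain ⟨D, hDd⟩ : ∃ D, D = disc (pull a h) x v r := ⟨_, rfl⟩
  have hvi : ∀ i, ‖v i‖ ≤ 1 := fun i => (PiLp.norm_apply_le v i).trans hv.le
  have hvec : ∀ (p : E N) (i : Fin N), ‖(vec a p v) i‖ = a i * ‖p i‖ ^ (a i - 1) * ‖v i‖ := by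
    intro p i
    have h6 : 0 ≤ ‖p i‖ ^ (a i - 1) := Real.rpow_nonneg (norm_nonneg _) _
    have h7 : 0 ≤ a i := by linarith [ha i]
    change ‖((a i * ‖p i‖ ^ (a i - 1) : ℝ) : ℂ) * v i‖ = _
    rw [norm_mul, Complex.norm_real, Real.norm_eq_abs, abs_of_nonneg (mul_nonneg h7 h6)]
  have hD : ∀ s' : ℂ, ‖s'‖ ≤ r → pull a h (x + s' • v) v ≤ D := by
    intro s' hs'
    rw [hDd]
    refine le_csSup ⟨M * ∑ _i : Fin N, 2 * R, ?_⟩ ⟨s', mem_closedBall_zero_iff.2 hs', rfl⟩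
    rintro _ ⟨s₁, hs₁, rfl⟩
    obtain ⟨⟨-, h1⟩, h2⟩ := hnb _ (hpd' s₁ (mem_closedBall_zero_iff.1 hs₁))
    refine (h1 (vec a (x + s₁ • v) v)).2.1.trans (mul_le_mul_of_nonneg_left ?_ hM.le)
    refine (Ex4c_norm_le _).trans (Finset.sum_le_sum fun i _ => ?_)
    rw [hvec]
    have h3 : ‖(x + s₁ • v) i‖ ≤ R := (PiLp.norm_apply_le _ i).trans h2
    have h4 : ‖(x + s₁ • v) i‖ ^ (a i - 1) ≤ R := by
      calc ‖(x + s₁ • v) i‖ ^ (a i - 1) ≤ R ^ (a i - 1) :=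
            Real.rpow_le_rpow (norm_nonneg _) h3 (hb0 i)
        _ ≤ R ^ (1 : ℝ) := Real.rpow_le_rpow_of_exponent_le hR1 (hb1 i).le
        _ = R := Real.rpow_one R
    have h5 : 0 ≤ ‖(x + s₁ • v) i‖ ^ (a i - 1) := Real.rpow_nonneg (norm_nonneg _) _
    calc a i * ‖(x + s₁ • v) i‖ ^ (a i - 1) * ‖v i‖ ≤ 2 * R * 1 := by
          refine mul_le_mul (mul_le_mul (ha2 i).le h4 h5 (by norm_num)) (hvi i) (norm_nonneg _)
            (by positivity)
      _ = 2 * R := mul_one _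
  have hlow : ∀ i, m * ((r * ‖v i‖) ^ (a i - 1) * ‖v i‖) ≤ D := by
    intro i
    obtain ⟨s', hs', hs''⟩ := Ex4c_pick (x i) (v i) hr
    obtain ⟨⟨-, h1⟩, -⟩ := hnb _ (hpd' s' hs')
    refine le_trans ?_ (hD s' hs')
    refine le_trans ?_ (h1 (vec a (x + s' • v) v)).1
    refine mul_le_mul_of_nonneg_left ?_ hm.le
    refine le_trans ?_ (PiLp.norm_apply_le _ i)
    rw [hvec]
    have h2 : r * ‖v i‖ ≤ ‖(x + s' • v) i‖ := hs''
    have h3 : (r * ‖v i‖) ^ (a i - 1) ≤ ‖(x + s' • v) i‖ ^ (a i - 1) :=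
      Real.rpow_le_rpow (by positivity) h2 (hb0 i)
    have h4 : 0 ≤ ‖(x + s' • v) i‖ ^ (a i - 1) := Real.rpow_nonneg (norm_nonneg _) _
    refine mul_le_mul_of_nonneg_right (h3.trans ?_) (norm_nonneg _)
    exact le_mul_of_one_le_left h4 (ha i)
  have hD0 : 0 ≤ D := by
    refine le_trans ?_ (hD 0 (by rw [norm_zero]; exact hr.le))
    exact pull_nonneg hh (hnb _ (hpd' 0 (by rw [norm_zero]; exact hr.le))).1.1 v
  -- a large component of `v`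
  obtain ⟨j, hj⟩ : ∃ j, τ ≤ ‖v j‖ := by
    by_contra hcon
    push Not at hcon
    have h1 : ‖v‖ ≤ ∑ _i : Fin N, τ :=
      (Ex4c_norm_le v).trans (Finset.sum_le_sum fun i _ => (hcon i).le)
    rw [hv, Finset.sum_const, Finset.card_univ, Fintype.card_fin, nsmul_eq_mul] at h1
    linarith
  have hKD : K * r ≤ ε / (4 * M) * D := by
    refine (hd' j r hr (hrδ.trans (hδ3 j))).trans ?_
    rw [hc, mul_assoc]
    refine mul_le_mul_of_nonneg_left ?_ (by positivity)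
    refine le_trans ?_ (hlow j)
    rw [mul_assoc]
    refine mul_le_mul_of_nonneg_left ?_ hm.le
    have h1 : τ ≤ τ ^ (a j - 1) := by
      calc τ = τ ^ (1 : ℝ) := (Real.rpow_one τ).symm
        _ ≤ τ ^ (a j - 1) := Real.rpow_le_rpow_of_exponent_ge hτ0 hτ1 (hb1 j).le
    have h2 : (r * τ) ^ (a j - 1) ≤ (r * ‖v j‖) ^ (a j - 1) :=
      Real.rpow_le_rpow (by positivity) (mul_le_mul_of_nonneg_left hj hr.le) (hb0 j)
    have h3 : (r * τ) ^ (a j - 1) = r ^ (a j - 1) * τ ^ (a j - 1) :=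
      Real.mul_rpow hr.le hτ0.le
    have h4 : 0 ≤ r ^ (a j - 1) := Real.rpow_nonneg hr.le _
    calc τ * τ * r ^ (a j - 1) = r ^ (a j - 1) * τ * τ := by ring
      _ ≤ (r * τ) ^ (a j - 1) * τ := by
        rw [h3]
        exact mul_le_mul_of_nonneg_right (mul_le_mul_of_nonneg_left h1 h4) hτ0.le
      _ ≤ (r * ‖v j‖) ^ (a j - 1) * ‖v j‖ :=
        mul_le_mul h2 hj hτ0.le (Real.rpow_nonneg (by positivity) _)
  -- the two parts
  obtain ⟨⟨hU1, hb1'⟩, hR1'⟩ := hnb x' hxd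
  obtain ⟨⟨hU2, hb2'⟩, hR2'⟩ := hnb _ (hpd' s hs)
  have hA : ‖vec a x' w - vec a (x + s • v) v‖ ≤ 2 * κ * (N * (D / m)) + K * r := by
    refine (Ex4c_vec ha ha2 hK' hR1 hr hr1 hR1' hx' hw).trans ?_
    rw [Finset.sum_add_distrib, ← Finset.sum_mul, ← hK, ← Finset.mul_sum]
    have h1 : ∑ i, (r * ‖v i‖) ^ (a i - 1) * ‖v i‖ ≤ N * (D / m) := by
      calc ∑ i, (r * ‖v i‖) ^ (a i - 1) * ‖v i‖ ≤ ∑ _i : Fin N, D / m := by
            refine Finset.sum_le_sum fun i _ => ?_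
            rw [le_div_iff₀ hm, mul_comm]
            exact hlow i
        _ = N * (D / m) := by
            rw [Finset.sum_const, Finset.card_univ, Fintype.card_fin, nsmul_eq_mul]
    have h2 := mul_le_mul_of_nonneg_left h1 (by positivity : (0 : ℝ) ≤ 2 * κ)
    linarith
  have hMA : M * ‖vec a x' w - vec a (x + s • v) v‖ ≤ ε / 2 * D := by
    have h1 := mul_le_mul_of_nonneg_left hA hM.le
    have h2 : M * (2 * κ * (N * (D / m))) = ε / 4 * D * (N * τ) := by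
      rw [hκ]
      field_simp
      ring
    have h3 : ε / 4 * D * (N * τ) ≤ ε / 4 * D * 1 :=
      mul_le_mul_of_nonneg_left (by linarith) (by positivity)
    have h4 : M * (K * r) ≤ ε / 4 * D := by
      have h5 := mul_le_mul_of_nonneg_left hKD hM.le
      have h6 : M * (ε / (4 * M) * D) = ε / 4 * D := by
        field_simp
      linarith
    rw [mul_add, h2] at h1
    linarith
  have hB1 := Ex4c_diff hh hU1 (fun u => (hb1' u).2.1) (vec a (x + s • v) v) (vec a x' w)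
  have hB2 := (hb1' (vec a (x + s • v) v)).2.2
  have hB3 := (hb2' (vec a (x + s • v) v)).2.2
  have hB4 := (hb2' (vec a (x + s • v) v)).1
  have hB5 : h (pt a (x + s • v)) (vec a (x + s • v) v) ≤ D := hD s hs
  have hB6 : m * ε / 4 * ‖vec a (x + s • v) v‖ ≤ ε / 4 * D := by
    have h1 := mul_le_mul_of_nonneg_left (hB4.trans hB5) (by positivity : (0 : ℝ) ≤ ε / 4)
    calc m * ε / 4 * ‖vec a (x + s • v) v‖ = ε / 4 * (m * ‖vec a (x + s • v) v‖) := by ring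
      _ ≤ _ := h1
  change |h (pt a x') (vec a x' w) - h (pt a (x + s • v)) (vec a (x + s • v) v)| ≤
    ε * disc (pull a h) x v r
  rw [← hDd]
  rw [abs_le] at hB1 hB2 hB3 ⊢
  constructor <;> linarith [hB1.1, hB1.2, hB2.1, hB2.2, hB3.1, hB3.2]

end Pool.Agent.Nef6.UM
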