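import Pool.Agent.H.MP_6a1d6a_ag.UM.Stab
import Pool.Agent.H.MP_6a1d6a_ag.DM.A1

/-!
MP_6a1d6a_ag/UM, module Ex5: examples: the pull-back of a degenerate metric by an injective linear map.
-/

set_option autoImplicit false

open Set Filter Topology Metric
open scoped ContDiff Manifold

namespace Pool.Agent.Nef6.UM

open Pool.Agent.Nef6.SN
open Pool.Agent.Nef6.DM (disc IsSemi InU disc_smul)

variable {N M : ℕ} {h : E M → E M → ℝ} {U : Set (E M)}

theorem semi_linear (hh : IsSemi h U) (L : E N →L[ℂ] E M) (hL : Function.Injective L) :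
    IsSemi (fun x v => h (L x) (L v)) (L ⁻¹' U) where
  op := hh.op.preimage L.continuous
  cont := by
    refine hh.cont.comp (f := fun q : E N × E N => (L q.1, L q.2)) ?_ ?_
    · exact ((L.continuous.comp continuous_fst).prodMk
        (L.continuous.comp continuous_snd)).continuousOn
    · intro q hq
      exact ⟨hq.1, mem_univ _⟩
  nonneg x hx v := hh.nonneg _ hx _
  smul x hx c v := by
    show h (L x) (L (c • v)) = ‖c‖ * h (L x) (L v)
    rw [map_smul]
    exact hh.smul _ hx _ _
  psh x v b r hr hx hv hU δ hδ := by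
    have h1 : AnalyticOnNhd ℂ (fun z => L (x z)) (closedBall b r) := fun z hz =>
      (L.analyticAt _).comp' (hx z hz)
    have h2 : AnalyticOnNhd ℂ (fun z => L (v z)) (closedBall b r) := fun z hz =>
      (L.analyticAt _).comp' (hv z hz)
    refine hh.psh (fun z => L (x z)) (fun z => L (v z)) b r hr h1 h2 (fun z hz => ?_) δ hδ
    refine ⟨(hU z hz).1, fun h0 => (hU z hz).2 (hL ?_)⟩
    rw [h0, map_zero]
  pos x v hv r hr hi := by
    have h1 : InU U (L x) (L v) r := by
      intro s hs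
      have h2 := hi s hs
      rwa [mem_preimage, map_add, map_smul] at h2
    obtain ⟨s, hs, h3⟩ := hh.pos (L x) (L v) (fun h0 => hv (hL (by rw [h0, map_zero]))) r hr h1
    refine ⟨s, hs, ?_⟩
    show 0 < h (L (x + s • v)) (L v)
    rw [map_add, map_smul]
    exact h3

theorem stable_linear (hh : IsSemi h U) (hs : Stable h U) (L : E N →L[ℂ] E M)
    (hL : Function.Injective L) : Stable (fun x v => h (L x) (L v)) (L ⁻¹' U) := by
  intro x₀ hx₀ C hC ε hε
  -- bounds for `L` on the unit sphere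
  obtain ⟨m, hm, hmin⟩ : ∃ m > 0, ∀ v : E N, ‖v‖ = 1 → m ≤ ‖L v‖ := by
    have hK : IsCompact (sphere (0 : E N) 1) := isCompact_sphere 0 1
    rcases (sphere (0 : E N) 1).eq_empty_or_nonempty with he | hne
    · refine ⟨1, one_pos, fun v hv => ?_⟩
      have : v ∈ sphere (0 : E N) 1 := by rw [mem_sphere, dist_zero_right]; exact hv
      rw [he] at this
      exact absurd this (notMem_empty v)
    · obtain ⟨v₀, hv₀, hq⟩ := hK.exists_isMinOn hne L.continuous.norm.continuousOn
      refine ⟨‖L v₀‖, norm_pos_iff.2 fun h0 => ?_, fun v hv => hq ?_⟩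
      · have h1 : v₀ = 0 := hL (by rw [h0, map_zero])
        rw [mem_sphere, dist_zero_right, h1, norm_zero] at hv₀
        exact zero_ne_one hv₀
      · rw [mem_sphere, dist_zero_right]
        exact hv
  obtain ⟨B, hB, hmax⟩ : ∃ B > 0, ∀ v : E N, ‖L v‖ ≤ B * ‖v‖ :=
    ⟨‖L‖ + 1, by positivity, fun v => (L.le_opNorm v).trans
      (mul_le_mul_of_nonneg_right (by linarith) (norm_nonneg v))⟩
  obtain ⟨δ, hδ, H⟩ := hs (L x₀) hx₀ (B * C / m ^ 2 + 1) (by positivity) ε hε
  -- points near `x₀` are in the domain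
  have hU' : IsOpen (L ⁻¹' U) := hh.op.preimage L.continuous
  obtain ⟨ρ, hρ, hball⟩ := Metric.isOpen_iff.1 hU' x₀ hx₀
  refine ⟨min (min (δ / B) (min (ρ / 4) 1)) (ρ / (4 * (C + 1))), by positivity,
    fun x hx v hv r hr hrδ s hsr x' w hx' hw => ?_⟩
  have hCp : 0 < C + 1 := by linarith
  have e1 : r < δ / B := hrδ.trans_le ((min_le_left _ _).trans (min_le_left _ _))
  have e2 : r < ρ / 4 := hrδ.trans_le ((min_le_left _ _).trans ((min_le_right _ _).trans (min_le_left _ _)))
  have e3 : r < 1 := hrδ.trans_le ((min_le_left _ _).trans ((min_le_right _ _).trans (min_le_right _ _)))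
  have e4 : r < ρ / (4 * (C + 1)) := hrδ.trans_le (min_le_right _ _)
  have e5 : dist x x₀ < δ / B := hx.trans_le ((min_le_left _ _).trans (min_le_left _ _))
  have e6 : dist x x₀ < ρ / 4 := hx.trans_le ((min_le_left _ _).trans ((min_le_right _ _).trans (min_le_left _ _)))
  rw [lt_div_iff₀ hB] at e1 e5
  rw [lt_div_iff₀ (by positivity)] at e4
  obtain ⟨t, ht⟩ : ∃ t, t = ‖L v‖ := ⟨_, rfl⟩
  have hmt : m ≤ t := by rw [ht]; exact hmin v hv
  have htB : t ≤ B := by
    rw [ht]
    have := hmax v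
    rwa [hv, mul_one] at this
  have ht0 : 0 < t := hm.trans_le hmt
  have htc : (t : ℂ) ≠ 0 := by exact_mod_cast ht0.ne'
  have hX : ∀ s : ℂ, ‖s‖ ≤ r → x + s • v ∈ ball x₀ (ρ / 2) := by
    intro s hs
    rw [mem_ball, dist_eq_norm]
    have h1 : x + s • v - x₀ = (x - x₀) + s • v := by abel
    rw [h1]
    have h2 := norm_add_le (x - x₀) (s • v)
    rw [norm_smul, hv, mul_one] at h2
    rw [dist_eq_norm] at e6
    linarith
  have hX' : x' ∈ ball x₀ ρ := by
    have h0 := hX s hsr
    rw [mem_ball, dist_eq_norm] at h0 ⊢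
    have h1 : x' - x₀ = (x' - (x + s • v)) + (x + s • v - x₀) := by abel
    rw [h1]
    have h2 := norm_add_le (x' - (x + s • v)) (x + s • v - x₀)
    have h3 : C * r ^ 2 ≤ C * r := mul_le_mul_of_nonneg_left (by nlinarith) hC.le
    nlinarith
  have hLx' : L x' ∈ U := hball hX'
  have hLX : ∀ s : ℂ, ‖s‖ ≤ r → L x + s • L v ∈ U := by
    intro s hs
    have h1 : x + s • v ∈ L ⁻¹' U := hball (ball_subset_ball (by linarith) (hX s hs))
    rwa [mem_preimage, map_add, map_smul] at h1
  -- the rescaled disc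
  have hv' : ‖((t : ℂ)⁻¹) • L v‖ = 1 := by
    rw [norm_smul, norm_inv, Complex.norm_real, Real.norm_eq_abs, abs_of_pos ht0, ← ht,
      inv_mul_cancel₀ ht0.ne']
  have hsv : ((t : ℂ) * s) • (((t : ℂ)⁻¹) • L v) = s • L v := by
    rw [smul_smul]
    congr 1
    field_simp
  have key := H (L x) (by
      rw [mem_ball, dist_eq_norm, ← map_sub]
      refine (hmax _).trans_lt ?_
      rw [dist_eq_norm] at e5
      linarith) (((t : ℂ)⁻¹) • L v) hv' (t * r) (by positivity)
    (by nlinarith) ((t : ℂ) * s) (by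
      rw [norm_mul, Complex.norm_real, Real.norm_eq_abs, abs_of_pos ht0]
      exact mul_le_mul_of_nonneg_left hsr ht0.le) (L x') (((t : ℂ)⁻¹) • L w)
    (by
      rw [hsv, ← map_smul, ← map_add, ← map_sub]
      refine (hmax _).trans ?_
      have h1 : B * ‖x' - (x + s • v)‖ ≤ B * (C * r ^ 2) := mul_le_mul_of_nonneg_left hx' hB.le
      refine h1.trans ?_
      have h2 : B * (C * r ^ 2) = B * C / m ^ 2 * (m * r) ^ 2 := by field_simp
      rw [h2]
      have h3 : (m * r) ^ 2 ≤ (t * r) ^ 2 := by gcongr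
      have h4 : 0 ≤ B * C / m ^ 2 := by positivity
      nlinarith [mul_le_mul_of_nonneg_left h3 h4, sq_nonneg (t * r)])
    (by
      rw [← smul_sub, ← map_sub, norm_smul, norm_inv, Complex.norm_real, Real.norm_eq_abs,
        abs_of_pos ht0, inv_mul_le_iff₀ ht0]
      refine (hmax _).trans ?_
      have h1 : B * ‖w - v‖ ≤ B * (C * r) := mul_le_mul_of_nonneg_left hw hB.le
      refine h1.trans ?_
      have h2 : B * (C * r) = B * C / m ^ 2 * (m ^ 2 * r) := by field_simp
      rw [h2]
      have h3 : m ^ 2 * r ≤ t * (t * r) := by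
        have : m ^ 2 ≤ t ^ 2 := by gcongr
        nlinarith
      have h4 : 0 ≤ B * C / m ^ 2 := by positivity
      nlinarith [mul_le_mul_of_nonneg_left h3 h4, mul_pos ht0 (mul_pos ht0 hr)])
  rw [hsv] at key
  -- homogeneity
  have hti : ‖((t : ℂ)⁻¹)‖ = t⁻¹ := by
    rw [norm_inv, Complex.norm_real, Real.norm_eq_abs, abs_of_pos ht0]
  rw [hh.smul _ hLx', hh.smul _ (hLX s hsr), hti, ← mul_sub, abs_mul,
    abs_of_pos (inv_pos.2 ht0), inv_mul_le_iff₀ ht0] at key
  have hd : t * disc h (L x) (((t : ℂ)⁻¹) • L v) (t * r) = disc h (L x) (L v) r := by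
    have h1 := disc_smul hh (x := L x) (v := ((t : ℂ)⁻¹) • L v) hr.le (c := (t : ℂ)) (by
      intro s' hs'
      rw [Complex.norm_real, Real.norm_eq_abs, abs_of_pos ht0] at hs'
      rw [smul_smul]
      refine hLX _ ?_
      rw [norm_mul, hti]
      rw [mul_comm, inv_mul_le_iff₀ ht0]
      exact hs')
    rw [smul_smul, mul_inv_cancel₀ htc, one_smul, Complex.norm_real, Real.norm_eq_abs,
      abs_of_pos ht0] at h1
    exact h1.symm
  have hd' : disc (fun x v => h (L x) (L v)) x v r = disc h (L x) (L v) r := by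
    unfold disc
    simp only [map_add, map_smul]
  show |h (L x') (L w) - h (L (x + s • v)) (L v)| ≤ ε * disc (fun x v => h (L x) (L v)) x v r
  rw [hd', map_add, map_smul, ← hd]
  refine key.trans (le_of_eq ?_)
  ring

end Pool.Agent.Nef6.UM
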