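import Pool.Agent.H.MP_6a1d6a_ag.UM.Low
import Pool.Agent.H.MP_6a1d6a_ag.DM.A1

/-!
MP_6a1d6a_ag/UM, module Ex6: examples: homogeneous metrics (cones). If the conditions hold off the vertex, they hold at the vertex.

For `x₀ ≠ 0` the hypotheses apply (`Stable`, `LowOrder` involve `U` only through `x₀`). Let `x₀ = 0`; `C`, `ε` (or `M`) given. `S` = the unit sphere, compact: from `hs` with `C' = C + 1`, `ε` (resp. `hl` with `M`) at the points of `S` and a finite subcover: there is `0 < R₀ ≤ 1` such that the conclusion of `Stable` (resp. `LowOrder`) holds for all `X ∈ S`, `‖v‖ = 1`, `0 < R ≤ R₀`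
(with `C'`, `ε`). Scaling: for `t > 0`, `disc h (t • x) v (t * r) = t ^ κ * disc h x v r` (`hom`: `t • x + (t s) • v = t • (x + s • v)`; `sSup` of the scaled set). Let `m > 0` be the minimum of `disc h X v R₀` for `‖X‖ ≤ 1`, `‖v‖ = 1` (`disc_cont`, `disc_pos`, compact). `h` is uniformly continuous on the compact set `‖x‖ ≤ 3`, `‖w‖ ≤ 2`:
`η > 0` with `|h x' w - h x v| ≤ ε m` for distances `≤ η`. Take `δ ≤ 1`, `C δ ≤ η`, `C δ ≤ 1`. For `‖x‖ < δ`, `0 < r < δ`, `‖v‖ = 1` and `s`, `x'`, `w` as in `Stable` let `t = max ‖x‖ (r / R₀)`, `X = t⁻¹ • x`, `R = r / t ≤ R₀`, `X' = t⁻¹ • x'`, `s' = s / t`.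
Case A, `t = ‖x‖`: `X ∈ S`, `‖X' - (X + s' • v)‖ ≤ C r ^ 2 / t = C R ^ 2 t ≤ C' R ^ 2`, `‖w - v‖ ≤ C r = C R t ≤ C' R`: apply the conclusion on `S` and multiply by `t ^ κ`. Case B, `t = r / R₀ > ‖x‖`: `R = R₀`, `‖X‖ ≤ 1`, `‖X' - (X + s' • v)‖ ≤ C r ^ 2 / t = C r R₀ ≤ η`, `‖w - v‖ ≤ C r ≤ η`, so the difference is
`≤ ε m ≤ ε disc h X v R₀`; multiply by `t ^ κ`. `low_homogeneous`: case A: `disc h x v r = t ^ κ disc h X v R ≥ t ^ κ M R = t ^ (κ - 1) M r ≥ M r` (`t ≤ 1`). Case B: `disc h x v r = t ^ κ disc h X v R₀ ≥ t ^ κ m = t ^ (κ - 1) (m / R₀) r`, and `t ^ (κ - 1) m / R₀ ≥ M` for `t < δ / R₀` small, as `κ < 1`.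
-/

set_option autoImplicit false

open Set Filter Topology Metric
open scoped ContDiff Manifold

namespace Pool.Agent.Nef6.UM

open Pool.Agent.Nef6.SN
open Pool.Agent.Nef6.DM (disc IsSemi InU disc_le disc_mem disc_le_of disc_nonneg disc_pos disc_mono disc_smul disc_cont)

variable {N : ℕ} {h : E N → E N → ℝ} {κ : ℝ}

private theorem Ex6_inU (x v : E N) (r : ℝ) : InU (univ : Set (E N)) x v r := fun _ _ => mem_univ _

private theorem Ex6_scale (hh : IsSemi h univ)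
    (hom : ∀ t : ℝ, 0 < t → ∀ x v : E N, h ((t : ℂ) • x) v = t ^ κ * h x v)
    {t : ℝ} (ht : 0 < t) {r : ℝ} (hr : 0 ≤ r) (x v : E N) :
    disc h ((t : ℂ) • x) v (t * r) = t ^ κ * disc h x v r := by
  have ht' : (t : ℂ) ≠ 0 := by exact_mod_cast ht.ne'
  refine le_antisymm (disc_le_of hh (by positivity) (Ex6_inU _ _ _) fun s hs => ?_) ?_
  · have e : (t : ℂ) • x + s • v = (t : ℂ) • (x + (s / t) • v) := by
      rw [smul_add, smul_smul, mul_div_cancel₀ s ht']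
    rw [e, hom t ht]
    refine mul_le_mul_of_nonneg_left (disc_le hh (Ex6_inU _ _ _) ?_) (Real.rpow_nonneg ht.le κ)
    rw [norm_div, Complex.norm_real, Real.norm_of_nonneg ht.le, div_le_iff₀ ht]
    linarith [mul_comm t r]
  · obtain ⟨s, hs, he⟩ := disc_mem hh hr (Ex6_inU x v r)
    rw [← he, ← hom t ht]
    have e : (t : ℂ) • (x + s • v) = (t : ℂ) • x + ((t : ℂ) * s) • v := by
      rw [smul_add, smul_smul]
    rw [e]
    refine disc_le hh (Ex6_inU _ _ _) ?_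
    rw [norm_mul, Complex.norm_real, Real.norm_of_nonneg ht.le]
    exact mul_le_mul_of_nonneg_left hs ht.le

private theorem Ex6_unif {K : Set (E N)} (hK : IsCompact K) {Q : E N → ℝ → Prop}
    (hQ : ∀ x₀ ∈ K, ∃ δ > 0, ∀ x ∈ ball x₀ δ, ∀ r, 0 < r → r < δ → Q x r) :
    ∃ R > 0, ∀ x ∈ K, ∀ r, 0 < r → r < R → Q x r := by
  refine hK.induction_on (p := fun K' => ∃ R > 0, ∀ x ∈ K', ∀ r, 0 < r → r < R → Q x r)
    ⟨1, one_pos, fun x hx => absurd hx (notMem_empty x)⟩ ?_ ?_ ?_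
  · rintro A B hAB ⟨R, hR, h1⟩
    exact ⟨R, hR, fun x hx => h1 x (hAB hx)⟩
  · rintro A B ⟨R, hR, h1⟩ ⟨R', hR', h2⟩
    refine ⟨min R R', lt_min hR hR', ?_⟩
    rintro x (hx | hx) r hr hr'
    · exact h1 x hx r hr (hr'.trans_le (min_le_left _ _))
    · exact h2 x hx r hr (hr'.trans_le (min_le_right _ _))
  · intro x hx
    obtain ⟨δ, hδ, h1⟩ := hQ x hx
    exact ⟨ball x δ, mem_nhdsWithin_of_mem_nhds (ball_mem_nhds x hδ), δ, hδ, h1⟩

private theorem Ex6_min (hh : IsSemi h univ) {R₀ : ℝ} (hR₀ : 0 < R₀) :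
    ∃ m > 0, ∀ X v : E N, ‖X‖ ≤ 1 → ‖v‖ = 1 → m ≤ disc h X v R₀ := by
  have hK : IsCompact ((closedBall (0 : E N) 1) ×ˢ (sphere (0 : E N) 1)) :=
    (isCompact_closedBall _ _).prod (isCompact_sphere _ _)
  have hcont : ContinuousOn (fun q : E N × E N => disc h q.1 q.2 R₀)
      ((closedBall (0 : E N) 1) ×ˢ (sphere (0 : E N) 1)) :=
    disc_cont hh continuous_fst.continuousOn continuous_snd.continuousOn continuousOn_const
      (fun _ _ => hR₀.le) (fun _ _ => Ex6_inU _ _ _)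
  rcases ((closedBall (0 : E N) 1) ×ˢ (sphere (0 : E N) 1)).eq_empty_or_nonempty with he | hne
  · refine ⟨1, one_pos, fun X v hX hv => ?_⟩
    have h1 : (X, v) ∈ (closedBall (0 : E N) 1) ×ˢ (sphere (0 : E N) 1) :=
      ⟨mem_closedBall_zero_iff.2 hX, mem_sphere_zero_iff_norm.2 hv⟩
    rw [he] at h1
    exact absurd h1 (notMem_empty _)
  · obtain ⟨q, hq, hmin⟩ := hK.exists_isMinOn hne hcont
    refine ⟨disc h q.1 q.2 R₀, disc_pos hh ?_ hR₀ (Ex6_inU _ _ _), fun X v hX hv => ?_⟩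
    · have h1 : ‖q.2‖ = 1 := mem_sphere_zero_iff_norm.1 hq.2
      intro h2
      rw [h2, norm_zero] at h1
      exact zero_ne_one h1
    · exact hmin (show (X, v) ∈ (closedBall (0 : E N) 1) ×ˢ (sphere (0 : E N) 1) from
        ⟨mem_closedBall_zero_iff.2 hX, mem_sphere_zero_iff_norm.2 hv⟩)

private theorem Ex6_norm_inv {t : ℝ} (ht : 0 < t) : ‖((t : ℂ))⁻¹‖ = t⁻¹ := by
  rw [norm_inv, Complex.norm_real, Real.norm_of_nonneg ht.le]

theorem stable_homogeneous (hh : IsSemi h univ) (hκ : 0 ≤ κ)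
    (hom : ∀ t : ℝ, 0 < t → ∀ x v : E N, h ((t : ℂ) • x) v = t ^ κ * h x v)
    (hs : Stable h {0}ᶜ) : Stable h univ := by
  intro x₀ _ C hC ε hε
  by_cases hx₀ : x₀ = 0
  swap
  · exact hs x₀ hx₀ C hC ε hε
  subst hx₀
  obtain ⟨R₁, hR₁, hun⟩ := Ex6_unif (isCompact_sphere (0 : E N) 1)
    (Q := fun x r => ∀ v : E N, ‖v‖ = 1 → ∀ s : ℂ, ‖s‖ ≤ r → ∀ x' w : E N,
      ‖x' - (x + s • v)‖ ≤ C * r ^ 2 → ‖w - v‖ ≤ C * r →
        |h x' w - h (x + s • v) v| ≤ ε * disc h x v r) (by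
      intro x₁ hx₁
      have h1 : x₁ ∈ ({0}ᶜ : Set (E N)) := by
        intro h2
        rw [mem_singleton_iff] at h2
        rw [mem_sphere_zero_iff_norm, h2, norm_zero] at hx₁
        exact zero_ne_one hx₁
      obtain ⟨δ, hδ, h3⟩ := hs x₁ h1 C hC ε hε
      exact ⟨δ, hδ, fun x hx r hr hr' v hv s hs' x' w h4 h5 =>
        h3 x hx v hv r hr hr' s hs' x' w h4 h5⟩)
  obtain ⟨R₀, hR₀, hR₀1, hR₀R⟩ : ∃ R₀ : ℝ, 0 < R₀ ∧ R₀ ≤ 1 ∧ R₀ < R₁ :=
    ⟨min (R₁ / 2) 1, lt_min (by linarith) one_pos, min_le_right _ _,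
      (min_le_left _ _).trans_lt (by linarith)⟩
  obtain ⟨m, hm, hmin⟩ := Ex6_min hh hR₀
  have hK2 : IsCompact ((closedBall (0 : E N) 3) ×ˢ (closedBall (0 : E N) 2)) :=
    (isCompact_closedBall _ _).prod (isCompact_closedBall _ _)
  have huc := hK2.uniformContinuousOn_of_continuous
    (hh.cont.mono (prod_mono (subset_univ _) (subset_univ _)))
  rw [Metric.uniformContinuousOn_iff] at huc
  obtain ⟨η, hη, huc⟩ := huc (ε * m) (by positivity)
  refine ⟨min 1 (min (η / (2 * C)) (1 / C)), lt_min one_pos (lt_min (by positivity)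
    (by positivity)), ?_⟩
  intro x hx v hv r hr hr' s hs' x' w hx' hw
  rw [mem_ball_zero_iff] at hx
  have hr1 : r < 1 := hr'.trans_le (min_le_left _ _)
  have hx1 : ‖x‖ < 1 := hx.trans_le (min_le_left _ _)
  have hrη : C * r < η / 2 + 0 := by
    have h1 : r < η / (2 * C) := hr'.trans_le ((min_le_right _ _).trans (min_le_left _ _))
    rw [lt_div_iff₀ (by positivity)] at h1
    linarith
  have hr2 : C * r < 1 := by
    have h1 : r < 1 / C := hr'.trans_le ((min_le_right _ _).trans (min_le_right _ _))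
    rw [lt_div_iff₀ hC] at h1
    linarith
  -- scaling
  have main : ∀ t : ℝ, 0 < t → (∀ X X' : E N, ∀ s' : ℂ, ‖X‖ = t⁻¹ * ‖x‖ → ‖s'‖ ≤ r / t →
      ‖X' - (X + s' • v)‖ ≤ C * r ^ 2 / t →
      |h X' w - h (X + s' • v) v| ≤ ε * disc h X v (r / t)) →
      |h x' w - h (x + s • v) v| ≤ ε * disc h x v r := by
    intro t ht hX
    have ht' : (t : ℂ) ≠ 0 := by exact_mod_cast ht.ne'
    have hti : 0 < t⁻¹ := inv_pos.2 ht
    have e1 : x = (t : ℂ) • ((t : ℂ)⁻¹ • x) := (smul_inv_smul₀ ht' x).symm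
    have e2 : x' = (t : ℂ) • ((t : ℂ)⁻¹ • x') := (smul_inv_smul₀ ht' x').symm
    have e3 : x + s • v = (t : ℂ) • ((t : ℂ)⁻¹ • x + ((t : ℂ)⁻¹ * s) • v) := by
      rw [smul_add, smul_smul, smul_smul, ← mul_assoc, mul_inv_cancel₀ ht', one_smul, one_mul]
    have e4 : r = t * (r / t) := by field_simp
    have h1 := hX ((t : ℂ)⁻¹ • x) ((t : ℂ)⁻¹ • x') ((t : ℂ)⁻¹ * s)
      (by rw [norm_smul, Ex6_norm_inv ht])
      (by
        rw [norm_mul, Ex6_norm_inv ht, div_eq_inv_mul]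
        exact mul_le_mul_of_nonneg_left hs' hti.le)
      (by
        have e5 : (t : ℂ)⁻¹ • x' - ((t : ℂ)⁻¹ • x + ((t : ℂ)⁻¹ * s) • v) =
            (t : ℂ)⁻¹ • (x' - (x + s • v)) := by
          rw [smul_sub, smul_add, smul_smul]
        rw [e5, norm_smul, Ex6_norm_inv ht, div_eq_inv_mul]
        exact mul_le_mul_of_nonneg_left hx' hti.le)
    have htκ : 0 < t ^ κ := Real.rpow_pos_of_pos ht κ
    have e6 : h x' w = t ^ κ * h ((t : ℂ)⁻¹ • x') w := by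
      rw [← hom t ht, ← e2]
    have e7 : h (x + s • v) v = t ^ κ * h ((t : ℂ)⁻¹ • x + ((t : ℂ)⁻¹ * s) • v) v := by
      rw [← hom t ht, ← e3]
    have e8 : disc h x v r = t ^ κ * disc h ((t : ℂ)⁻¹ • x) v (r / t) := by
      rw [← Ex6_scale hh hom ht (by positivity), ← e1, ← e4]
    rw [e6, e7, e8, ← mul_sub, abs_mul, abs_of_pos htκ]
    calc t ^ κ * |h ((t : ℂ)⁻¹ • x') w - h ((t : ℂ)⁻¹ • x + ((t : ℂ)⁻¹ * s) • v) v|
        ≤ t ^ κ * (ε * disc h ((t : ℂ)⁻¹ • x) v (r / t)) := mul_le_mul_of_nonneg_left h1 htκ.le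
      _ = ε * (t ^ κ * disc h ((t : ℂ)⁻¹ • x) v (r / t)) := by ring
  rcases le_total (r / R₀) ‖x‖ with hA | hB
  · -- case A
    have hx0 : 0 < ‖x‖ := lt_of_lt_of_le (by positivity) hA
    refine main ‖x‖ hx0 fun X X' s' hX hs1 hX' => ?_
    have hX1 : ‖X‖ = 1 := by rw [hX, inv_mul_cancel₀ hx0.ne']
    have hR : r / ‖x‖ ≤ R₀ := by
      rw [div_le_iff₀ hx0]
      rw [div_le_iff₀ hR₀] at hA
      linarith
    have hRpos : 0 < r / ‖x‖ := by positivity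
    have er : r = ‖x‖ * (r / ‖x‖) := by field_simp
    refine hun X (mem_sphere_zero_iff_norm.2 hX1) (r / ‖x‖) hRpos (hR.trans_lt hR₀R) v hv s' hs1
      X' w (hX'.trans ?_) (hw.trans ?_)
    · have e1 : C * r ^ 2 / ‖x‖ = C * (r / ‖x‖) ^ 2 * ‖x‖ := by field_simp
      rw [e1]
      exact mul_le_of_le_one_right (by positivity) hx1.le
    · refine mul_le_mul_of_nonneg_left ?_ hC.le
      rw [le_div_iff₀ hx0]
      exact mul_le_of_le_one_right hr.le hx1.le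
  · -- case B
    have ht : 0 < r / R₀ := by positivity
    refine main (r / R₀) ht fun X X' s' hX hs1 hX' => ?_
    have eR : r / (r / R₀) = R₀ := by field_simp
    rw [eR] at hs1 ⊢
    have hX1 : ‖X‖ ≤ 1 := by
      rw [hX, inv_mul_le_iff₀ ht, mul_one]
      exact hB
    have hX2 : ‖X' - (X + s' • v)‖ ≤ C * r := by
      refine hX'.trans ?_
      have e1 : C * r ^ 2 / (r / R₀) = C * r * R₀ := by field_simp
      rw [e1]
      exact mul_le_of_le_one_right (by positivity) hR₀1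
    have h3 : ‖X + s' • v‖ ≤ 2 := by
      refine (norm_add_le _ _).trans ?_
      rw [norm_smul, hv, mul_one]
      linarith
    have h4 : ‖X'‖ ≤ 3 := by
      have e1 : X' = (X' - (X + s' • v)) + (X + s' • v) := (sub_add_cancel _ _).symm
      rw [e1]
      refine (norm_add_le _ _).trans ?_
      linarith
    have h5 : ‖w‖ ≤ 2 := by
      have e1 : w = (w - v) + v := (sub_add_cancel _ _).symm
      rw [e1]
      refine (norm_add_le _ _).trans ?_
      linarith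
    have h6 := huc (X', w) ⟨mem_closedBall_zero_iff.2 h4, mem_closedBall_zero_iff.2 h5⟩
      (X + s' • v, v) ⟨mem_closedBall_zero_iff.2 (by linarith),
        mem_closedBall_zero_iff.2 (by linarith)⟩ (by
        rw [Prod.dist_eq, dist_eq_norm, dist_eq_norm]
        exact max_lt (by linarith) (by linarith))
    rw [Real.dist_eq] at h6
    exact h6.le.trans (mul_le_mul_of_nonneg_left (hmin X v hX1 hv) hε.le)

theorem low_homogeneous (hh : IsSemi h univ) (hκ : 0 ≤ κ) (hκ1 : κ < 1)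
    (hom : ∀ t : ℝ, 0 < t → ∀ x v : E N, h ((t : ℂ) • x) v = t ^ κ * h x v)
    (hl : LowOrder h {0}ᶜ) : LowOrder h univ := by
  intro x₀ _ M hM
  by_cases hx₀ : x₀ = 0
  swap
  · exact hl x₀ hx₀ M hM
  subst hx₀
  obtain ⟨R₁, hR₁, hun⟩ := Ex6_unif (isCompact_sphere (0 : E N) 1)
    (Q := fun x r => ∀ v : E N, ‖v‖ = 1 → M * r ≤ disc h x v r) (by
      intro x₁ hx₁
      have h1 : x₁ ∈ ({0}ᶜ : Set (E N)) := by
        intro h2
        rw [mem_singleton_iff] at h2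
        rw [mem_sphere_zero_iff_norm, h2, norm_zero] at hx₁
        exact zero_ne_one hx₁
      obtain ⟨δ, hδ, h3⟩ := hl x₁ h1 M hM
      exact ⟨δ, hδ, fun x hx r hr hr' v hv => h3 x hx v hv r hr hr'⟩)
  obtain ⟨R₀, hR₀, hR₀1, hR₀R⟩ : ∃ R₀ : ℝ, 0 < R₀ ∧ R₀ ≤ 1 ∧ R₀ < R₁ :=
    ⟨min (R₁ / 2) 1, lt_min (by linarith) one_pos, min_le_right _ _,
      (min_le_left _ _).trans_lt (by linarith)⟩
  obtain ⟨m, hm, hmin⟩ := Ex6_min hh hR₀
  have hq : 0 < 1 - κ := by linarith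
  have hb : 0 < m / (M * R₀) := by positivity
  obtain ⟨t₀, ht₀, ht₀'⟩ : ∃ t₀ : ℝ, 0 < t₀ ∧ t₀ ^ (1 - κ) = m / (M * R₀) := by
    refine ⟨(m / (M * R₀)) ^ (1 / (1 - κ)), Real.rpow_pos_of_pos hb _, ?_⟩
    rw [← Real.rpow_mul hb.le, one_div_mul_cancel hq.ne', Real.rpow_one]
  refine ⟨min 1 (R₀ * t₀), lt_min one_pos (by positivity), ?_⟩
  intro x hx v hv r hr hr'
  rw [mem_ball_zero_iff] at hx
  have hx1 : ‖x‖ < 1 := hx.trans_le (min_le_left _ _)
  have hrt : r < R₀ * t₀ := hr'.trans_le (min_le_right _ _)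
  have e8 : ∀ t : ℝ, 0 < t →
      disc h x v r = t ^ κ * disc h ((t : ℂ)⁻¹ • x) v (r / t) := by
    intro t ht
    have ht' : (t : ℂ) ≠ 0 := by exact_mod_cast ht.ne'
    have e1 : x = (t : ℂ) • ((t : ℂ)⁻¹ • x) := (smul_inv_smul₀ ht' x).symm
    have e4 : r = t * (r / t) := by field_simp
    rw [← Ex6_scale hh hom ht (by positivity), ← e1, ← e4]
  rcases le_total (r / R₀) ‖x‖ with hA | hB
  · have hx0 : 0 < ‖x‖ := lt_of_lt_of_le (by positivity) hA
    have hX1 : ‖((‖x‖ : ℝ) : ℂ)⁻¹ • x‖ = 1 := by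
      rw [norm_smul, Ex6_norm_inv hx0, inv_mul_cancel₀ hx0.ne']
    have hR : r / ‖x‖ ≤ R₀ := by
      rw [div_le_iff₀ hx0]
      rw [div_le_iff₀ hR₀] at hA
      linarith
    have hRpos : 0 < r / ‖x‖ := by positivity
    have h1 := hun _ (mem_sphere_zero_iff_norm.2 hX1) (r / ‖x‖) hRpos (hR.trans_lt hR₀R) v hv
    rw [e8 ‖x‖ hx0]
    have h2 : ‖x‖ ≤ ‖x‖ ^ κ := by
      have := Real.rpow_le_rpow_of_exponent_ge hx0 hx1.le hκ1.le
      rwa [Real.rpow_one] at this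
    have er : M * r = ‖x‖ * (M * (r / ‖x‖)) := by field_simp
    rw [er]
    exact mul_le_mul h2 h1 (by positivity) (by positivity)
  · have ht : 0 < r / R₀ := by positivity
    rw [e8 (r / R₀) ht]
    have eR : r / (r / R₀) = R₀ := by field_simp
    rw [eR]
    have hX1 : ‖((r / R₀ : ℝ) : ℂ)⁻¹ • x‖ ≤ 1 := by
      rw [norm_smul, Ex6_norm_inv ht, inv_mul_le_iff₀ ht, mul_one]
      exact hB
    have h1 := hmin _ v hX1 hv
    have htt : r / R₀ ≤ t₀ := by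
      rw [div_le_iff₀ hR₀]
      linarith [mul_comm R₀ t₀]
    have h2 : (r / R₀) ^ (1 - κ) ≤ m / (M * R₀) := by
      rw [← ht₀']
      exact Real.rpow_le_rpow ht.le htt hq.le
    have h3 : r / R₀ = (r / R₀) ^ κ * (r / R₀) ^ (1 - κ) := by
      rw [← Real.rpow_add ht, add_sub_cancel, Real.rpow_one]
    have h4 : M * r = (M * R₀) * (r / R₀) := by field_simp
    have htκ : 0 < (r / R₀) ^ κ := Real.rpow_pos_of_pos ht κ
    calc M * r = (M * R₀) * (r / R₀) := h4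
      _ = (r / R₀) ^ κ * ((r / R₀) ^ (1 - κ) * (M * R₀)) := by
          conv_lhs => rw [h3]
          ring
      _ ≤ (r / R₀) ^ κ * m := by
          refine mul_le_mul_of_nonneg_left ?_ htκ.le
          rw [← le_div_iff₀ (by positivity)]
          exact h2
      _ ≤ (r / R₀) ^ κ * disc h (((r / R₀ : ℝ) : ℂ)⁻¹ • x) v R₀ :=
          mul_le_mul_of_nonneg_left h1 htκ.le

end Pool.Agent.Nef6.UM
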