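import Pool.Agent.H.MP_6a1d6a_ag.UM.Low
import Pool.Agent.H.MP_6a1d6a_ag.DM.A1

/-!
MP_6a1d6a_ag/UM, module Ex7: examples: products with a flat metric.

`F x v = √(h (L₁ x) (L₁ v) ^ 2 + ‖L₂ v‖ ^ 2)`; the vectors `v ≠ 0` are not in the kernel of both `L₁`, `L₂`. Constants: `B ≥ 1` with `‖L₁ v‖, ‖L₂ v‖ ≤ B ‖v‖`, and `c₀ > 0` with `c₀ ≤ ‖L₁ v‖` or `c₀ ≤ ‖L₂ v‖` for all `‖v‖ = 1` (minimum of `max ‖L₁ v‖ ‖L₂ v‖` on the compact sphere). Points near `x₀` stay in `L₁ ⁻¹' U` (open). Facts: `disc F x v r ≥ disc h (L₁ x) (L₁ v) r`,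
`disc F x v r ≥ ‖L₂ v‖`; `|√(a' ^ 2 + b' ^ 2) - √(a ^ 2 + b ^ 2)| ≤ |a' - a| + |b' - b|` for `a, a', b, b' ≥ 0`. `disc` is the `sSup` over the compact ball of a continuous function (bounded above).
`stable_prod`: `a = h (L₁ (x + s • v)) (L₁ v)`, `a' = h (L₁ x') (L₁ w)`, `b = ‖L₂ v‖`, `b' = ‖L₂ w‖`, `|b' - b| ≤ B C r`. Case 1, `‖L₁ v‖ = t ≥ c₀`: as in `stable_linear` (`UM/Ex5.lean`): `Stable h U` at `L₁ x₀` for the unit vector `t⁻¹ • L₁ v`, radius `t r`, constant `B C / c₀ ^ 2 + 1`, `ε / 2` gives `|a' - a| ≤ (ε / 2) disc h (L₁ x) (L₁ v) r`; and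
`LowOrder h U` with a large `M` gives `disc h (L₁ x) (L₁ v) r = t disc h (L₁ x) (t⁻¹ • L₁ v) (t r) ≥ M t ^ 2 r`, so `B C r ≤ (ε / 2) disc F x v r`. Case 2, `‖L₂ v‖ ≥ c₀`: `disc F x v r ≥ c₀`; `|b' - b| ≤ B C r ≤ ε c₀ / 2` for small `r`, and `|a' - a| ≤ ε c₀ / 2` for small `r` by the uniform continuity of `h` on a compact set
`closedBall (L₁ x₀) ρ ×ˢ closedBall 0 (2 B + 1)` in `U ×ˢ univ` (`‖L₁ x' - L₁ (x + s • v)‖ ≤ B C r ^ 2`, `‖L₁ w - L₁ v‖ ≤ B C r`). `low_prod`: case 1: `disc F x v r ≥ disc h (L₁ x) (L₁ v) r ≥ M' t ^ 2 r ≥ M r` with `M' = M / c₀ ^ 2`; case 2: `disc F x v r ≥ c₀ ≥ M r` for small `r`.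
-/

set_option autoImplicit false

open Set Filter Topology Metric
open scoped ContDiff Manifold

namespace Pool.Agent.Nef6.UM

open Pool.Agent.Nef6.SN
open Pool.Agent.Nef6.DM (disc IsSemi InU disc_le disc_mem disc_le_of disc_nonneg disc_pos disc_mono disc_smul disc_cont)

variable {N M k : ℕ} {h : E N → E N → ℝ} {U : Set (E N)}

private theorem Ex7_sqrt (a a' b b' : ℝ) :
    |√(a' ^ 2 + b' ^ 2) - √(a ^ 2 + b ^ 2)| ≤ |a' - a| + |b' - b| := by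
  have h1 : √(a' ^ 2 + b' ^ 2) = ‖((a' : ℂ) + b' * Complex.I)‖ :=
    (Complex.norm_add_mul_I a' b').symm
  have h2 : √(a ^ 2 + b ^ 2) = ‖((a : ℂ) + b * Complex.I)‖ := (Complex.norm_add_mul_I a b).symm
  rw [h1, h2]
  refine (abs_norm_sub_norm_le _ _).trans ?_
  refine (Complex.norm_le_abs_re_add_abs_im _).trans (le_of_eq ?_)
  simp

private theorem Ex7_const (L₁ : E M →L[ℂ] E N) (L₂ : E M →L[ℂ] E k)
    (hL : ∀ v, L₁ v = 0 → L₂ v = 0 → v = 0) :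
    ∃ B c₀ : ℝ, 1 ≤ B ∧ 0 < c₀ ∧ (∀ v, ‖L₁ v‖ ≤ B * ‖v‖) ∧ (∀ v, ‖L₂ v‖ ≤ B * ‖v‖) ∧
      ∀ v, ‖v‖ = 1 → c₀ ≤ ‖L₁ v‖ ∨ c₀ ≤ ‖L₂ v‖ := by
  obtain ⟨m, hm, hmin⟩ : ∃ m > 0, ∀ v : E M, ‖v‖ = 1 → m ≤ max ‖L₁ v‖ ‖L₂ v‖ := by
    have hK : IsCompact (sphere (0 : E M) 1) := isCompact_sphere 0 1
    rcases (sphere (0 : E M) 1).eq_empty_or_nonempty with he | hne
    · refine ⟨1, one_pos, fun v hv => ?_⟩
      have : v ∈ sphere (0 : E M) 1 := by rw [mem_sphere, dist_zero_right]; exact hv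
      rw [he] at this
      exact absurd this (notMem_empty v)
    · obtain ⟨v₀, hv₀, hq⟩ := hK.exists_isMinOn hne
        (f := fun v => max ‖L₁ v‖ ‖L₂ v‖) (L₁.continuous.norm.max L₂.continuous.norm).continuousOn
      refine ⟨max ‖L₁ v₀‖ ‖L₂ v₀‖, ?_, fun v hv => hq ?_⟩
      · by_contra hc
        have hc' : max ‖L₁ v₀‖ ‖L₂ v₀‖ ≤ 0 := not_lt.1 hc
        have h1 : L₁ v₀ = 0 := norm_le_zero_iff.1 ((le_max_left _ _).trans hc')
        have h2 : L₂ v₀ = 0 := norm_le_zero_iff.1 ((le_max_right _ _).trans hc')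
        rw [mem_sphere, dist_zero_right, hL v₀ h1 h2, norm_zero] at hv₀
        exact zero_ne_one hv₀
      · rw [mem_sphere, dist_zero_right]
        exact hv
  refine ⟨‖L₁‖ + ‖L₂‖ + 1, m, ?_, hm, ?_, ?_, fun v hv => le_max_iff.1 (hmin v hv)⟩
  · linarith [norm_nonneg L₁, norm_nonneg L₂]
  · exact fun v => (L₁.le_opNorm v).trans
      (mul_le_mul_of_nonneg_right (by linarith [norm_nonneg L₂]) (norm_nonneg v))
  · exact fun v => (L₂.le_opNorm v).trans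
      (mul_le_mul_of_nonneg_right (by linarith [norm_nonneg L₁]) (norm_nonneg v))

private theorem Ex7_scale (hh : IsSemi h U) {X V : E N} {r : ℝ} (hr : 0 ≤ r) (hV : 0 < ‖V‖)
    (hi : InU U X V r) :
    ‖V‖ * disc h X ((((‖V‖ : ℝ) : ℂ)⁻¹) • V) (‖V‖ * r) = disc h X V r := by
  have htc : ((‖V‖ : ℝ) : ℂ) ≠ 0 := by exact_mod_cast hV.ne'
  have h1 := disc_smul hh (x := X) (v := (((‖V‖ : ℝ) : ℂ)⁻¹) • V) hr (c := ((‖V‖ : ℝ) : ℂ)) (by
      intro s' hs'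
      rw [Complex.norm_real, norm_norm] at hs'
      rw [smul_smul]
      refine hi _ ?_
      rw [norm_mul, norm_inv, Complex.norm_real, norm_norm, mul_comm, inv_mul_le_iff₀ hV]
      exact hs')
  rw [smul_smul, mul_inv_cancel₀ htc, one_smul, Complex.norm_real, norm_norm] at h1
  exact h1.symm

private theorem Ex7_low (hh : IsSemi h U) (hl : LowOrder h U) {X₀ : E N} (hX₀ : X₀ ∈ U)
    {m B K : ℝ} (hm : 0 < m) (hB : 0 < B) (hK : 0 < K) :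
    ∃ δ > 0, ∀ X ∈ ball X₀ δ, ∀ V : E N, m ≤ ‖V‖ → ‖V‖ ≤ B → ∀ r, 0 < r → r < δ →
      InU U X V r → K * r ≤ disc h X V r := by
  obtain ⟨δ, hδ, H⟩ := hl X₀ hX₀ (K / m ^ 2) (by positivity)
  refine ⟨min δ (δ / B), by positivity, fun X hX V hmV hVB r hr hrδ hi => ?_⟩
  have hV : 0 < ‖V‖ := hm.trans_le hmV
  have h1 := H X (ball_subset_ball (min_le_left _ _) hX) ((((‖V‖ : ℝ) : ℂ)⁻¹) • V) (by
    rw [norm_smul, norm_inv, Complex.norm_real, norm_norm, inv_mul_cancel₀ hV.ne']) (‖V‖ * r)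
    (by positivity) (by
      have h2 : r < δ / B := hrδ.trans_le (min_le_right _ _)
      rw [lt_div_iff₀ hB] at h2
      nlinarith)
  rw [← Ex7_scale hh hr.le hV hi]
  have h2 : K * r ≤ ‖V‖ * (K / m ^ 2 * (‖V‖ * r)) := by
    have h3 : K * r = K / m ^ 2 * (m ^ 2 * r) := by field_simp
    have h4 : ‖V‖ * (K / m ^ 2 * (‖V‖ * r)) = K / m ^ 2 * (‖V‖ ^ 2 * r) := by ring
    rw [h3, h4]
    gcongr
  exact h2.trans (mul_le_mul_of_nonneg_left h1 hV.le)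

private theorem Ex7_stable (hh : IsSemi h U) (hs : Stable h U) {X₀ : E N} (hX₀ : X₀ ∈ U)
    {m B C ε : ℝ} (hm : 0 < m) (hB : 0 < B) (hC : 0 < C) (hε : 0 < ε) :
    ∃ δ > 0, ∀ X ∈ ball X₀ δ, ∀ V : E N, m ≤ ‖V‖ → ‖V‖ ≤ B → ∀ r, 0 < r → r < δ →
      InU U X V r → ∀ s : ℂ, ‖s‖ ≤ r → ∀ X' W : E N, X' ∈ U → ‖X' - (X + s • V)‖ ≤ C * r ^ 2 →
        ‖W - V‖ ≤ C * r → |h X' W - h (X + s • V) V| ≤ ε * disc h X V r := by
  obtain ⟨δ, hδ, H⟩ := hs X₀ hX₀ (C / m ^ 2 + 1) (by positivity) ε hε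
  refine ⟨min δ (δ / B), by positivity,
    fun X hX V hmV hVB r hr hrδ hi s hsr X' W hX' h1 h2 => ?_⟩
  have hV : 0 < ‖V‖ := hm.trans_le hmV
  have hti : ‖(((‖V‖ : ℝ) : ℂ)⁻¹)‖ = ‖V‖⁻¹ := by rw [norm_inv, Complex.norm_real, norm_norm]
  have htc : ((‖V‖ : ℝ) : ℂ) ≠ 0 := by exact_mod_cast hV.ne'
  have hsv : (((‖V‖ : ℝ) : ℂ) * s) • ((((‖V‖ : ℝ) : ℂ)⁻¹) • V) = s • V := by
    rw [smul_smul]
    congr 1
    field_simp
  have hVr : ‖V‖ * r < δ := by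
    have h3 : r < δ / B := hrδ.trans_le (min_le_right _ _)
    rw [lt_div_iff₀ hB] at h3
    nlinarith
  have hq : 0 ≤ C / m ^ 2 := by positivity
  have key := H X (ball_subset_ball (min_le_left _ _) hX) ((((‖V‖ : ℝ) : ℂ)⁻¹) • V) (by
      rw [norm_smul, hti, inv_mul_cancel₀ hV.ne']) (‖V‖ * r) (by positivity) hVr
    (((‖V‖ : ℝ) : ℂ) * s) (by
      rw [norm_mul, Complex.norm_real, norm_norm]
      exact mul_le_mul_of_nonneg_left hsr hV.le) X' ((((‖V‖ : ℝ) : ℂ)⁻¹) • W)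
    (by
      rw [hsv]
      refine h1.trans ?_
      have h3 : C * r ^ 2 = C / m ^ 2 * (m * r) ^ 2 := by field_simp
      rw [h3]
      have h4 : (m * r) ^ 2 ≤ (‖V‖ * r) ^ 2 := by gcongr
      nlinarith [mul_le_mul_of_nonneg_left h4 hq, sq_nonneg (‖V‖ * r)])
    (by
      rw [← smul_sub, norm_smul, hti, inv_mul_le_iff₀ hV]
      refine h2.trans ?_
      have h3 : C * r = C / m ^ 2 * (m ^ 2 * r) := by field_simp
      rw [h3]
      have h4 : m ^ 2 * r ≤ ‖V‖ * (‖V‖ * r) := by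
        have h5 : m ^ 2 ≤ ‖V‖ ^ 2 := by gcongr
        nlinarith
      nlinarith [mul_le_mul_of_nonneg_left h4 hq, mul_pos hV (mul_pos hV hr)])
  rw [hsv] at key
  rw [hh.smul _ hX', hh.smul _ (hi s hsr), hti, ← mul_sub, abs_mul,
    abs_of_pos (inv_pos.2 hV), inv_mul_le_iff₀ hV] at key
  rw [← Ex7_scale hh hr.le hV hi]
  refine key.trans (le_of_eq ?_)
  ring

private theorem Ex7_unif (hh : IsSemi h U) {X₀ : E N} (hX₀ : X₀ ∈ U) {B C η : ℝ} (hB : 0 < B)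
    (hC : 0 < C) (hη : 0 < η) :
    ∃ δ > 0, ∀ X ∈ ball X₀ δ, ∀ V : E N, ‖V‖ ≤ B → ∀ r, 0 < r → r < δ →
      ∀ s : ℂ, ‖s‖ ≤ r → ∀ X' W : E N, ‖X' - (X + s • V)‖ ≤ C * r ^ 2 →
        ‖W - V‖ ≤ C * r → X' ∈ U ∧ InU U X V r ∧ |h X' W - h (X + s • V) V| ≤ η := by
  obtain ⟨ρ, hρ, hball⟩ := Metric.isOpen_iff.1 hh.op X₀ hX₀
  have hK : IsCompact (closedBall X₀ (ρ / 2) ×ˢ closedBall (0 : E N) (B + 1)) :=
    (isCompact_closedBall _ _).prod (isCompact_closedBall _ _)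
  have hsubU : closedBall X₀ (ρ / 2) ⊆ U :=
    (closedBall_subset_ball (by linarith)).trans hball
  have hsub : closedBall X₀ (ρ / 2) ×ˢ closedBall (0 : E N) (B + 1) ⊆
      U ×ˢ (univ : Set (E N)) := by
    rintro q ⟨h1, -⟩
    exact ⟨hsubU h1, mem_univ _⟩
  have huc := hK.uniformContinuousOn_of_continuous (hh.cont.mono hsub)
  obtain ⟨θ, hθ, H⟩ := Metric.uniformContinuousOn_iff.1 huc η hη
  refine ⟨min (min 1 (θ / C)) (min (ρ / 8) (min (ρ / (8 * B)) (min (ρ / (8 * C)) (1 / C)))),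
    by positivity, fun X hX V hVB r hr hrδ s hsr X' W h1 h2 => ?_⟩
  have e1 : r < 1 := hrδ.trans_le ((min_le_left _ _).trans (min_le_left _ _))
  have e2 : r < θ / C := hrδ.trans_le ((min_le_left _ _).trans (min_le_right _ _))
  have e3 : dist X X₀ < ρ / 8 := (mem_ball.1 hX).trans_le
    ((min_le_right _ _).trans (min_le_left _ _))
  have e4 : r < ρ / (8 * B) := hrδ.trans_le
    ((min_le_right _ _).trans ((min_le_right _ _).trans (min_le_left _ _)))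
  have e5 : r < ρ / (8 * C) := hrδ.trans_le
    ((min_le_right _ _).trans ((min_le_right _ _).trans ((min_le_right _ _).trans
      (min_le_left _ _))))
  have e6 : r < 1 / C := hrδ.trans_le
    ((min_le_right _ _).trans ((min_le_right _ _).trans ((min_le_right _ _).trans
      (min_le_right _ _))))
  rw [lt_div_iff₀ hC] at e2 e6
  rw [lt_div_iff₀ (by positivity)] at e4 e5
  rw [dist_eq_norm] at e3
  have hr2 : C * r ^ 2 ≤ C * r := by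
    have : r ^ 2 ≤ r := by nlinarith
    exact mul_le_mul_of_nonneg_left this hC.le
  have hXs : ∀ s : ℂ, ‖s‖ ≤ r → X + s • V ∈ closedBall X₀ (ρ / 4) := by
    intro s hs
    rw [mem_closedBall, dist_eq_norm]
    have h3 : X + s • V - X₀ = (X - X₀) + s • V := by abel
    rw [h3]
    have h4 := norm_add_le (X - X₀) (s • V)
    rw [norm_smul] at h4
    have h5 : ‖s‖ * ‖V‖ ≤ r * B := mul_le_mul hs hVB (norm_nonneg _) hr.le
    linarith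
  have hXs' : X + s • V ∈ closedBall X₀ (ρ / 2) :=
    closedBall_subset_closedBall (by linarith) (hXs s hsr)
  have hX' : X' ∈ closedBall X₀ (ρ / 2) := by
    have h0 := hXs s hsr
    rw [mem_closedBall, dist_eq_norm] at h0 ⊢
    have h3 : X' - X₀ = (X' - (X + s • V)) + (X + s • V - X₀) := by abel
    rw [h3]
    have h4 := norm_add_le (X' - (X + s • V)) (X + s • V - X₀)
    linarith
  have hV' : V ∈ closedBall (0 : E N) (B + 1) := by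
    rw [mem_closedBall_zero_iff]
    linarith
  have hW' : W ∈ closedBall (0 : E N) (B + 1) := by
    rw [mem_closedBall_zero_iff]
    have h3 : W = (W - V) + V := by abel
    rw [h3]
    have h4 := norm_add_le (W - V) V
    linarith
  refine ⟨hsubU hX', fun s hs => hsubU (closedBall_subset_closedBall (by linarith) (hXs s hs)), ?_⟩
  have h5 := H (X', W) ⟨hX', hW'⟩ (X + s • V, V) ⟨hXs', hV'⟩ (by
    rw [Prod.dist_eq, max_lt_iff]
    constructor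
    · show dist X' (X + s • V) < θ
      rw [dist_eq_norm]
      linarith
    · show dist W V < θ
      rw [dist_eq_norm]
      linarith)
  rw [Real.dist_eq] at h5
  exact h5.le

private theorem Ex7_disc (hh : IsSemi h U) (L₁ : E M →L[ℂ] E N) (L₂ : E M →L[ℂ] E k) {x v : E M}
    {r : ℝ} (hr : 0 ≤ r) (hi : InU U (L₁ x) (L₁ v) r) :
    disc h (L₁ x) (L₁ v) r ≤ disc (fun x v => √(h (L₁ x) (L₁ v) ^ 2 + ‖L₂ v‖ ^ 2)) x v r ∧
      ‖L₂ v‖ ≤ disc (fun x v => √(h (L₁ x) (L₁ v) ^ 2 + ‖L₂ v‖ ^ 2)) x v r := by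
  have hb : ∀ s : ℂ, ‖s‖ ≤ r → √(h (L₁ (x + s • v)) (L₁ v) ^ 2 + ‖L₂ v‖ ^ 2) ≤
      disc (fun x v => √(h (L₁ x) (L₁ v) ^ 2 + ‖L₂ v‖ ^ 2)) x v r := by
    intro s hs
    refine le_csSup ⟨√(disc h (L₁ x) (L₁ v) r ^ 2 + ‖L₂ v‖ ^ 2), ?_⟩
      ⟨s, mem_closedBall_zero_iff.2 hs, rfl⟩
    rintro _ ⟨s', hs', rfl⟩
    have hs'' : ‖s'‖ ≤ r := mem_closedBall_zero_iff.1 hs'
    show √(h (L₁ (x + s' • v)) (L₁ v) ^ 2 + ‖L₂ v‖ ^ 2) ≤ _
    apply Real.sqrt_le_sqrt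
    have e : L₁ (x + s' • v) = L₁ x + s' • L₁ v := by rw [map_add, map_smul]
    rw [e]
    have h1 := disc_le hh hi hs''
    have h0 := hh.nonneg _ (hi s' hs'') (L₁ v)
    have h2 := pow_le_pow_left₀ h0 h1 2
    linarith
  constructor
  · obtain ⟨s, hs, he⟩ := disc_mem hh hr hi
    rw [← he]
    refine le_trans ?_ (hb s hs)
    rw [map_add, map_smul]
    exact Real.le_sqrt_of_sq_le (by linarith [sq_nonneg ‖L₂ v‖])
  · refine le_trans ?_ (hb 0 (by rw [norm_zero]; exact hr))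
    exact Real.le_sqrt_of_sq_le (by linarith [sq_nonneg (h (L₁ (x + (0 : ℂ) • v)) (L₁ v))])

theorem stable_prod (hh : IsSemi h U) (hs : Stable h U) (hl : LowOrder h U) (L₁ : E M →L[ℂ] E N)
    (L₂ : E M →L[ℂ] E k) (hL : ∀ v, L₁ v = 0 → L₂ v = 0 → v = 0) :
    Stable (fun x v => √(h (L₁ x) (L₁ v) ^ 2 + ‖L₂ v‖ ^ 2)) (L₁ ⁻¹' U) := by
  intro x₀ hx₀ C hC ε hε
  obtain ⟨B, c₀, hB1, hc₀, hB₁, hB₂, hc⟩ := Ex7_const L₁ L₂ hL
  have hB : 0 < B := lt_of_lt_of_le one_pos hB1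
  have hX₀ : L₁ x₀ ∈ U := hx₀
  obtain ⟨δ₁, hδ₁, H1⟩ := Ex7_stable hh hs hX₀ (m := c₀) (B := B) (C := B * C) (ε := ε / 2)
    hc₀ hB (by positivity) (by positivity)
  obtain ⟨δ₂, hδ₂, H2⟩ := Ex7_low hh hl hX₀ (m := c₀) (B := B) (K := 2 * (B * C) / ε)
    hc₀ hB (by positivity)
  obtain ⟨δ₃, hδ₃, H3⟩ := Ex7_unif hh hX₀ (B := B) (C := B * C) (η := ε * c₀ / 2)
    hB (by positivity) (by positivity)
  refine ⟨min (min (δ₁ / B) (δ₂ / B)) (min (δ₃ / B) (ε * c₀ / (2 * (B * C)))), by positivity,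
    fun x hx v hv r hr hrδ s hsr x' w hx' hw => ?_⟩
  have le_div : ∀ {δ : ℝ}, 0 < δ → δ / B ≤ δ := fun hδ => div_le_self hδ.le hB1
  have f1 : r < δ₁ / B := hrδ.trans_le ((min_le_left _ _).trans (min_le_left _ _))
  have f2 : r < δ₂ / B := hrδ.trans_le ((min_le_left _ _).trans (min_le_right _ _))
  have f3 : r < δ₃ / B := hrδ.trans_le ((min_le_right _ _).trans (min_le_left _ _))
  have f4 : r < ε * c₀ / (2 * (B * C)) := hrδ.trans_le ((min_le_right _ _).trans (min_le_right _ _))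
  have hxd : ∀ {δ : ℝ}, dist x x₀ < δ / B → L₁ x ∈ ball (L₁ x₀) δ := by
    intro δ h
    rw [lt_div_iff₀ hB, dist_eq_norm] at h
    rw [mem_ball, dist_eq_norm, ← map_sub]
    refine (hB₁ _).trans_lt ?_
    linarith
  have g1 := hxd ((mem_ball.1 hx).trans_le ((min_le_left _ _).trans (min_le_left _ _)))
  have g2 := hxd ((mem_ball.1 hx).trans_le ((min_le_left _ _).trans (min_le_right _ _)))
  have g3 := hxd ((mem_ball.1 hx).trans_le ((min_le_right _ _).trans (min_le_left _ _)))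
  have hVB : ‖L₁ v‖ ≤ B := by
    have := hB₁ v
    rwa [hv, mul_one] at this
  have k1 : ‖L₁ x' - (L₁ x + s • L₁ v)‖ ≤ B * C * r ^ 2 := by
    rw [← map_smul, ← map_add, ← map_sub]
    refine (hB₁ _).trans ?_
    rw [mul_assoc]
    exact mul_le_mul_of_nonneg_left hx' hB.le
  have k2 : ‖L₁ w - L₁ v‖ ≤ B * C * r := by
    rw [← map_sub]
    refine (hB₁ _).trans ?_
    rw [mul_assoc]
    exact mul_le_mul_of_nonneg_left hw hB.le
  have k3 : |‖L₂ w‖ - ‖L₂ v‖| ≤ B * C * r := by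
    refine (abs_norm_sub_norm_le _ _).trans ?_
    rw [← map_sub]
    refine (hB₂ _).trans ?_
    rw [mul_assoc]
    exact mul_le_mul_of_nonneg_left hw hB.le
  obtain ⟨hX'U, hi, h3⟩ := H3 (L₁ x) g3 (L₁ v) hVB r hr (f3.trans_le (le_div hδ₃)) s hsr (L₁ x')
    (L₁ w) k1 k2
  obtain ⟨d1, d2⟩ := Ex7_disc hh L₁ L₂ hr.le hi
  obtain ⟨D, hD⟩ : ∃ D, D = disc (fun x v => √(h (L₁ x) (L₁ v) ^ 2 + ‖L₂ v‖ ^ 2)) x v r := ⟨_, rfl⟩
  rw [← hD] at d1 d2 ⊢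
  have hmain : |√(h (L₁ x') (L₁ w) ^ 2 + ‖L₂ w‖ ^ 2) -
      √(h (L₁ (x + s • v)) (L₁ v) ^ 2 + ‖L₂ v‖ ^ 2)| ≤
      |h (L₁ x') (L₁ w) - h (L₁ x + s • L₁ v) (L₁ v)| + B * C * r := by
    have e : L₁ (x + s • v) = L₁ x + s • L₁ v := by rw [map_add, map_smul]
    rw [e]
    refine (Ex7_sqrt _ _ _ _).trans ?_
    linarith
  refine hmain.trans ?_
  rcases hc v hv with h4 | h4
  · have h5 := H1 (L₁ x) g1 (L₁ v) h4 hVB r hr (f1.trans_le (le_div hδ₁)) hi s hsr (L₁ x')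
      (L₁ w) hX'U k1 k2
    have h6 := H2 (L₁ x) g2 (L₁ v) h4 hVB r hr (f2.trans_le (le_div hδ₂)) hi
    have h7 : B * C * r ≤ ε / 2 * disc h (L₁ x) (L₁ v) r := by
      have h8 := mul_le_mul_of_nonneg_left h6 (by positivity : (0 : ℝ) ≤ ε / 2)
      refine le_trans (le_of_eq ?_) h8
      field_simp
    have h9 : ε * disc h (L₁ x) (L₁ v) r ≤ ε * D := mul_le_mul_of_nonneg_left d1 hε.le
    linarith
  · have h5 : B * C * r ≤ ε * c₀ / 2 := by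
      rw [lt_div_iff₀ (by positivity)] at f4
      linarith
    have h6 : ε * c₀ ≤ ε * D := mul_le_mul_of_nonneg_left (h4.trans d2) hε.le
    linarith

theorem low_prod (hh : IsSemi h U) (hl : LowOrder h U) (L₁ : E M →L[ℂ] E N)
    (L₂ : E M →L[ℂ] E k) (hL : ∀ v, L₁ v = 0 → L₂ v = 0 → v = 0) :
    LowOrder (fun x v => √(h (L₁ x) (L₁ v) ^ 2 + ‖L₂ v‖ ^ 2)) (L₁ ⁻¹' U) := by
  intro x₀ hx₀ K hK
  obtain ⟨B, c₀, hB1, hc₀, hB₁, hB₂, hc⟩ := Ex7_const L₁ L₂ hL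
  have hB : 0 < B := lt_of_lt_of_le one_pos hB1
  have hX₀ : L₁ x₀ ∈ U := hx₀
  obtain ⟨δ₂, hδ₂, H2⟩ := Ex7_low hh hl hX₀ (m := c₀) (B := B) (K := K) hc₀ hB hK
  obtain ⟨δ₃, hδ₃, H3⟩ := Ex7_unif hh hX₀ (B := B) (C := 1) (η := 1) hB one_pos one_pos
  refine ⟨min (δ₂ / B) (min (δ₃ / B) (c₀ / K)), by positivity, fun x hx v hv r hr hrδ => ?_⟩
  have le_div : ∀ {δ : ℝ}, 0 < δ → δ / B ≤ δ := fun hδ => div_le_self hδ.le hB1
  have f2 : r < δ₂ / B := hrδ.trans_le (min_le_left _ _)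
  have f3 : r < δ₃ / B := hrδ.trans_le ((min_le_right _ _).trans (min_le_left _ _))
  have f4 : r < c₀ / K := hrδ.trans_le ((min_le_right _ _).trans (min_le_right _ _))
  have hxd : ∀ {δ : ℝ}, dist x x₀ < δ / B → L₁ x ∈ ball (L₁ x₀) δ := by
    intro δ h
    rw [lt_div_iff₀ hB, dist_eq_norm] at h
    rw [mem_ball, dist_eq_norm, ← map_sub]
    refine (hB₁ _).trans_lt ?_
    linarith
  have g2 := hxd ((mem_ball.1 hx).trans_le (min_le_left _ _))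
  have g3 := hxd ((mem_ball.1 hx).trans_le ((min_le_right _ _).trans (min_le_left _ _)))
  have hVB : ‖L₁ v‖ ≤ B := by
    have := hB₁ v
    rwa [hv, mul_one] at this
  obtain ⟨-, hi, -⟩ := H3 (L₁ x) g3 (L₁ v) hVB r hr (f3.trans_le (le_div hδ₃)) 0
    (by rw [norm_zero]; exact hr.le) (L₁ x) (L₁ v)
    (by rw [zero_smul, add_zero, sub_self, norm_zero]; positivity)
    (by rw [sub_self, norm_zero]; positivity)
  obtain ⟨d1, d2⟩ := Ex7_disc hh L₁ L₂ hr.le hi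
  rcases hc v hv with h4 | h4
  · exact (H2 (L₁ x) g2 (L₁ v) h4 hVB r hr (f2.trans_le (le_div hδ₂)) hi).trans d1
  · rw [lt_div_iff₀ hK] at f4
    have h5 := h4.trans d2
    linarith

end Pool.Agent.Nef6.UM
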