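import Pool.Agent.H.MP_6a1d6a_ag.UM.Low
import Pool.Agent.H.MP_6a1d6a_ag.UM.Ex4c
import Pool.Agent.H.MP_6a1d6a_ag.UM.Ex4b
import Pool.Agent.H.MP_6a1d6a_ag.DM.A1

/-!
MP_6a1d6a_ag/UM, module Ex8: examples: cone metrics with cone angles `< 4π` vanish to an order less than one.

See step (3) in the header and the proof of `UM/Ex4c.lean` (copy its private lemmas): `disc (pull a h) x v r ≥ c r ^ β` with `β = max (a i - 1) < 1`, for `‖v‖ = 1`, `r ≤ 1`, locally uniformly; so `≥ M r` for small `r`. (`pull a h` satisfies `IsSemi` by `semi_pull`, needed only for the boundedness of the `sSup`.)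
-/

set_option autoImplicit false

open Set Filter Topology Metric
open scoped ContDiff Manifold

namespace Pool.Agent.Nef6.UM

open Pool.Agent.Nef6.SN
open Pool.Agent.Nef6.DM (disc IsSemi InU disc_le disc_mem disc_le_of disc_nonneg disc_pos disc_mono disc_smul disc_cont)

variable {N : ℕ} {a : Fin N → ℝ} {h : E N → E N → ℝ} {U : Set (E N)}

private theorem Ex8_norm_le (u : E N) : ‖u‖ ≤ ∑ i, ‖u i‖ := by
  have h1 : ‖u‖ ^ 2 = ∑ i, ‖u i‖ ^ 2 := EuclideanSpace.norm_sq_eq u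
  have h2 : 0 ≤ ∑ i, ‖u i‖ := Finset.sum_nonneg fun i _ => norm_nonneg _
  refine (pow_le_pow_iff_left₀ (norm_nonneg u) h2 two_ne_zero).1 ?_
  rw [h1, pow_two, Finset.sum_mul]
  refine Finset.sum_le_sum fun i hi => ?_
  rw [pow_two]
  exact mul_le_mul_of_nonneg_left
    (Finset.single_le_sum (f := fun i => ‖u i‖) (fun j _ => norm_nonneg _) hi) (norm_nonneg _)

private theorem Ex8_r2 {b c K : ℝ} (hb1 : b < 1) (hc : 0 < c) (hK : 0 ≤ K) :
    ∃ δ > 0, ∀ r, 0 < r → r < δ → K * r ≤ c * r ^ b := by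
  have hb2 : 0 < 1 - b := by linarith
  have hq : 0 < c / (K + 1) := by positivity
  refine ⟨(c / (K + 1)) ^ (1 / (1 - b)), Real.rpow_pos_of_pos hq _, fun r hr hrδ => ?_⟩
  have h1 : r ^ (1 - b) ≤ c / (K + 1) := by
    have h := Real.rpow_le_rpow hr.le hrδ.le hb2.le
    rwa [← Real.rpow_mul hq.le, one_div, inv_mul_cancel₀ hb2.ne', Real.rpow_one] at h
  have h2 : r ^ (1 - b) * r ^ b = r := by
    rw [← Real.rpow_add hr, sub_add_cancel, Real.rpow_one]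
  have h3 : K * r ^ (1 - b) ≤ c := by
    calc K * r ^ (1 - b) ≤ K * (c / (K + 1)) := mul_le_mul_of_nonneg_left h1 hK
      _ = K * c / (K + 1) := by ring
      _ ≤ c := by
        rw [div_le_iff₀ (by positivity)]
        nlinarith
  calc K * r = K * (r ^ (1 - b) * r ^ b) := by rw [h2]
    _ = K * r ^ (1 - b) * r ^ b := by ring
    _ ≤ c * r ^ b := mul_le_mul_of_nonneg_right h3 (Real.rpow_nonneg hr.le b)

private theorem Ex8_hom (hh : IsMetric h U) {q : E N} (hq : q ∈ U) {u : E N} (hu : u ≠ 0) :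
    ((‖u‖⁻¹ : ℝ) : ℂ) • u ∈ sphere (0 : E N) 1 ∧
      h q u = ‖u‖ * h q (((‖u‖⁻¹ : ℝ) : ℂ) • u) := by
  have h0 : ‖u‖ ≠ 0 := norm_ne_zero_iff.2 hu
  have h1 : ‖((‖u‖⁻¹ : ℝ) : ℂ)‖ = ‖u‖⁻¹ := by
    rw [Complex.norm_real, Real.norm_eq_abs, abs_of_nonneg (by positivity)]
  constructor
  · rw [mem_sphere_zero_iff_norm, norm_smul, h1, inv_mul_cancel₀ h0]
  · rw [hh.smul q hq, h1, ← mul_assoc, mul_inv_cancel₀ h0, one_mul]

private theorem Ex8_near (hh : IsMetric h U) (ha : ∀ i, 1 ≤ a i) {x₀ : E N} (hx₀ : pt a x₀ ∈ U) :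
    ∃ m > 0, ∃ M > 0, ∀ η > 0, ∀ᶠ p in 𝓝 x₀, pt a p ∈ U ∧ ∀ u, m * ‖u‖ ≤ h (pt a p) u ∧
      h (pt a p) u ≤ M * ‖u‖ ∧ |h (pt a p) u - h (pt a x₀) u| ≤ η * ‖u‖ := by
  have hc : ContinuousOn (fun q : E N × E N => h (pt a q.1) q.2) ({x | pt a x ∈ U} ×ˢ univ) :=
    hh.cont.comp (((pt_cont ha).comp continuous_fst).prodMk continuous_snd).continuousOn
      (fun q hq => ⟨hq.1, mem_univ _⟩)
  have hca : ∀ u, ContinuousAt (fun q : E N × E N => h (pt a q.1) q.2) (x₀, u) := fun u =>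
    hc.continuousAt (((pull_open hh ha).prod isOpen_univ).mem_nhds ⟨hx₀, mem_univ _⟩)
  have hc0 : Continuous fun u : E N => h (pt a x₀) u := by
    refine continuous_iff_continuousAt.2 fun u => ?_
    exact (hca u).comp (f := fun u : E N => (x₀, u)) (by fun_prop)
  have hsph : IsCompact (sphere (0 : E N) 1) := isCompact_sphere 0 1
  obtain ⟨m₀, hm₀, hm₀'⟩ := hsph.exists_forall_le' hc0.continuousOn (a := 0) (fun u hu =>
    hh.pos _ hx₀ u (by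
      rintro rfl
      simp at hu))
  obtain ⟨M₀, hM₀⟩ := hsph.exists_bound_of_continuousOn hc0.continuousOn
  refine ⟨m₀ / 2, by positivity, |M₀| + m₀, by positivity, fun η hη => ?_⟩
  have htube : ∀ᶠ p in 𝓝 x₀, ∀ u ∈ sphere (0 : E N) 1,
      |h (pt a p) u - h (pt a x₀) u| < min η (m₀ / 2) := by
    refine hsph.eventually_forall_of_forall_eventually
      (P := fun p u => |h (pt a p) u - h (pt a x₀) u| < min η (m₀ / 2)) fun u _ => ?_
    have h1 : ContinuousAt (fun z : E N × E N => |h (pt a z.1) z.2 - h (pt a x₀) z.2|)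
        (x₀, u) := ((hca u).sub (hc0.comp continuous_snd).continuousAt).abs
    refine h1.tendsto.eventually_lt_const ?_
    simp only [sub_self, abs_zero]
    exact lt_min hη (by positivity)
  filter_upwards [htube, (pull_open hh ha).mem_nhds hx₀] with p hp hpU
  refine ⟨hpU, fun u => ?_⟩
  rcases eq_or_ne u 0 with rfl | hu
  · rw [hh.zero hpU, hh.zero hx₀]
    simp
  · obtain ⟨h1, h2⟩ := Ex8_hom hh hpU hu
    obtain ⟨-, h3⟩ := Ex8_hom hh hx₀ hu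
    have h4 := (hp _ h1).le
    have h5 := hm₀' _ h1
    have h6 := hM₀ _ h1
    rw [Real.norm_eq_abs] at h6
    have h7 := le_abs_self M₀
    have h8 := abs_le.1 h6
    have h9 := abs_le.1 (h4.trans (min_le_right _ _))
    have hu0 := norm_nonneg u
    refine ⟨?_, ?_, ?_⟩
    · rw [h2, mul_comm]
      exact mul_le_mul_of_nonneg_left (by linarith [h9.1]) hu0
    · rw [h2, mul_comm (|M₀| + m₀)]
      exact mul_le_mul_of_nonneg_left (by linarith [h9.2, h8.2]) hu0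
    · rw [h2, h3, ← mul_sub, abs_mul, abs_of_nonneg hu0, mul_comm]
      exact mul_le_mul_of_nonneg_right (h4.trans (min_le_left _ _)) hu0

/-- a point of the disc where a coordinate is large -/
private theorem Ex8_pick (X V : ℂ) {r : ℝ} (hr : 0 < r) :
    ∃ s : ℂ, ‖s‖ ≤ r ∧ r * ‖V‖ ≤ ‖X + s * V‖ := by
  by_contra hcon
  push Not at hcon
  have hn : ‖(r : ℂ)‖ = r := by
    rw [Complex.norm_real, Real.norm_eq_abs, abs_of_pos hr]
  have h1 := hcon (r : ℂ) hn.le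
  have h2 := hcon (-(r : ℂ)) (by rw [norm_neg]; exact hn.le)
  have h3 : ‖(X + r * V) - (X + -(r : ℂ) * V)‖ ≤ ‖X + r * V‖ + ‖X + -(r : ℂ) * V‖ :=
    norm_sub_le _ _
  have h4 : (X + r * V) - (X + -(r : ℂ) * V) = 2 * (r * V) := by ring
  rw [h4, norm_mul, norm_mul, hn, Complex.norm_ofNat] at h3
  linarith

theorem low_pull (hh : IsMetric h U) (ha : ∀ i, 1 ≤ a i) (ha2 : ∀ i, a i < 2) :
    LowOrder (pull a h) {x | pt a x ∈ U} := by
  intro x₀ hx₀ M' hM'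
  obtain ⟨m, hm, M, hM, hnear⟩ := Ex8_near hh ha hx₀
  obtain ⟨τ, hτ⟩ : ∃ τ : ℝ, τ = 1 / (N + 1) := ⟨_, rfl⟩
  have hτ0 : 0 < τ := by rw [hτ]; positivity
  have hτN : (N : ℝ) * τ ≤ 1 - τ := by
    rw [hτ]
    field_simp
    linarith
  have hτ1 : τ ≤ 1 := by
    have : 0 ≤ (N : ℝ) * τ := by positivity
    linarith
  have hb0 : ∀ i, 0 ≤ a i - 1 := fun i => by linarith [ha i]
  have hb1 : ∀ i, a i - 1 < 1 := fun i => by linarith [ha2 i]
  obtain ⟨R, hR⟩ : ∃ R, R = ‖x₀‖ + 1 := ⟨_, rfl⟩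
  have hR1 : 1 ≤ R := by
    rw [hR]
    linarith [norm_nonneg x₀]
  obtain ⟨c, hc⟩ : ∃ c, c = m * (τ * τ) := ⟨_, rfl⟩
  have hc0 : 0 < c := by rw [hc]; positivity
  choose d hd hd' using fun j => Ex8_r2 (b := a j - 1) (hb1 j) hc0 hM'.le
  obtain ⟨δ₀, hδ₀, hnear'⟩ := Metric.eventually_nhds_iff_ball.1 (hnear 1 one_pos)
  have hev : ∀ᶠ δ in 𝓝[>] (0 : ℝ), 0 < δ ∧ δ < 1 / 2 ∧ δ < δ₀ / 2 ∧ ∀ j, δ < d j := by
    have h1 : ∀ z : ℝ, 0 < z → ∀ᶠ δ in 𝓝[>] (0 : ℝ), δ < z := fun z hz =>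
      (eventually_lt_nhds hz).filter_mono nhdsWithin_le_nhds
    have h2 : ∀ᶠ δ in 𝓝[>] (0 : ℝ), 0 < δ := eventually_mem_nhdsWithin
    have h3 : ∀ᶠ δ in 𝓝[>] (0 : ℝ), ∀ j, δ < d j := eventually_all.2 fun j => h1 _ (hd j)
    filter_upwards [h2, h1 _ one_half_pos, h1 _ (half_pos hδ₀), h3] with δ g1 g2 g3 g4
    exact ⟨g1, g2, g3, g4⟩
  obtain ⟨δ, hδ, hδ1, hδ2, hδ3⟩ := hev.exists
  refine ⟨δ, hδ, fun x hx v hv r hr hrδ => ?_⟩
  rw [mem_ball, dist_eq_norm] at hx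
  have hnb : ∀ p : E N, ‖p - x₀‖ ≤ 2 * δ → (pt a p ∈ U ∧ ∀ u, m * ‖u‖ ≤ h (pt a p) u ∧
      h (pt a p) u ≤ M * ‖u‖ ∧ |h (pt a p) u - h (pt a x₀) u| ≤ 1 * ‖u‖) ∧ ‖p‖ ≤ R := by
    intro p hp
    refine ⟨hnear' p (by rw [mem_ball, dist_eq_norm]; linarith), ?_⟩
    have h1 : ‖p‖ ≤ ‖p - x₀‖ + ‖x₀‖ := by
      have := norm_add_le (p - x₀) x₀
      rwa [sub_add_cancel] at this
    rw [hR]
    linarith
  have hpd : ∀ s' : ℂ, ‖s'‖ ≤ r → ‖x + s' • v - x₀‖ ≤ 2 * δ := by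
    intro s' hs'
    have h1 : x + s' • v - x₀ = (x - x₀) + s' • v := by abel
    rw [h1]
    refine (norm_add_le _ _).trans ?_
    rw [norm_smul, hv, mul_one]
    linarith
  obtain ⟨D, hDd⟩ : ∃ D, D = disc (pull a h) x v r := ⟨_, rfl⟩
  have hvi : ∀ i, ‖v i‖ ≤ 1 := fun i => (PiLp.norm_apply_le v i).trans hv.le
  have hvec : ∀ (p : E N) (i : Fin N), ‖(vec a p v) i‖ = a i * ‖p i‖ ^ (a i - 1) * ‖v i‖ := by
    intro p i
    have h6 : 0 ≤ ‖p i‖ ^ (a i - 1) := Real.rpow_nonneg (norm_nonneg _) _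
    have h7 : 0 ≤ a i := by linarith [ha i]
    change ‖((a i * ‖p i‖ ^ (a i - 1) : ℝ) : ℂ) * v i‖ = _
    rw [norm_mul, Complex.norm_real, Real.norm_eq_abs, abs_of_nonneg (mul_nonneg h7 h6)]
  have hD : ∀ s' : ℂ, ‖s'‖ ≤ r → pull a h (x + s' • v) v ≤ D := by
    intro s' hs'
    rw [hDd]
    refine le_csSup ⟨M * ∑ _i : Fin N, 2 * R, ?_⟩ ⟨s', mem_closedBall_zero_iff.2 hs', rfl⟩
    rintro _ ⟨s₁, hs₁, rfl⟩
    obtain ⟨⟨-, h1⟩, h2⟩ := hnb _ (hpd s₁ (mem_closedBall_zero_iff.1 hs₁))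
    refine (h1 (vec a (x + s₁ • v) v)).2.1.trans (mul_le_mul_of_nonneg_left ?_ hM.le)
    refine (Ex8_norm_le _).trans (Finset.sum_le_sum fun i _ => ?_)
    rw [hvec]
    have h3 : ‖(x + s₁ • v) i‖ ≤ R := (PiLp.norm_apply_le _ i).trans h2
    have h4 : ‖(x + s₁ • v) i‖ ^ (a i - 1) ≤ R := by
      calc ‖(x + s₁ • v) i‖ ^ (a i - 1) ≤ R ^ (a i - 1) :=
            Real.rpow_le_rpow (norm_nonneg _) h3 (hb0 i)
        _ ≤ R ^ (1 : ℝ) := Real.rpow_le_rpow_of_exponent_le hR1 (hb1 i).le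
        _ = R := Real.rpow_one R
    have h5 : 0 ≤ ‖(x + s₁ • v) i‖ ^ (a i - 1) := Real.rpow_nonneg (norm_nonneg _) _
    calc a i * ‖(x + s₁ • v) i‖ ^ (a i - 1) * ‖v i‖ ≤ 2 * R * 1 := by
          refine mul_le_mul (mul_le_mul (ha2 i).le h4 h5 (by norm_num)) (hvi i) (norm_nonneg _)
            (by positivity)
      _ = 2 * R := mul_one _
  have hlow : ∀ i, m * ((r * ‖v i‖) ^ (a i - 1) * ‖v i‖) ≤ D := by
    intro i
    obtain ⟨s', hs', hs''⟩ := Ex8_pick (x i) (v i) hr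
    obtain ⟨⟨-, h1⟩, -⟩ := hnb _ (hpd s' hs')
    refine le_trans ?_ (hD s' hs')
    refine le_trans ?_ (h1 (vec a (x + s' • v) v)).1
    refine mul_le_mul_of_nonneg_left ?_ hm.le
    refine le_trans ?_ (PiLp.norm_apply_le _ i)
    rw [hvec]
    have h2 : r * ‖v i‖ ≤ ‖(x + s' • v) i‖ := hs''
    have h3 : (r * ‖v i‖) ^ (a i - 1) ≤ ‖(x + s' • v) i‖ ^ (a i - 1) :=
      Real.rpow_le_rpow (by positivity) h2 (hb0 i)
    have h4 : 0 ≤ ‖(x + s' • v) i‖ ^ (a i - 1) := Real.rpow_nonneg (norm_nonneg _) _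
    refine mul_le_mul_of_nonneg_right (h3.trans ?_) (norm_nonneg _)
    exact le_mul_of_one_le_left h4 (ha i)
  -- a large component of `v`
  obtain ⟨j, hj⟩ : ∃ j, τ ≤ ‖v j‖ := by
    by_contra hcon
    push Not at hcon
    have h1 : ‖v‖ ≤ ∑ _i : Fin N, τ :=
      (Ex8_norm_le v).trans (Finset.sum_le_sum fun i _ => (hcon i).le)
    rw [hv, Finset.sum_const, Finset.card_univ, Fintype.card_fin, nsmul_eq_mul] at h1
    linarith
  rw [← hDd]
  refine (hd' j r hr (hrδ.trans (hδ3 j))).trans ?_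
  rw [hc, mul_assoc]
  refine le_trans ?_ (hlow j)
  refine mul_le_mul_of_nonneg_left ?_ hm.le
  have h1 : τ ≤ τ ^ (a j - 1) := by
    calc τ = τ ^ (1 : ℝ) := (Real.rpow_one τ).symm
      _ ≤ τ ^ (a j - 1) := Real.rpow_le_rpow_of_exponent_ge hτ0 hτ1 (hb1 j).le
  have h2 : (r * τ) ^ (a j - 1) ≤ (r * ‖v j‖) ^ (a j - 1) :=
    Real.rpow_le_rpow (by positivity) (mul_le_mul_of_nonneg_left hj hr.le) (hb0 j)
  have h3 : (r * τ) ^ (a j - 1) = r ^ (a j - 1) * τ ^ (a j - 1) :=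
    Real.mul_rpow hr.le hτ0.le
  have h4 : 0 ≤ r ^ (a j - 1) := Real.rpow_nonneg hr.le _
  calc τ * τ * r ^ (a j - 1) = r ^ (a j - 1) * τ * τ := by ring
    _ ≤ (r * τ) ^ (a j - 1) * τ := by
      rw [h3]
      exact mul_le_mul_of_nonneg_right (mul_le_mul_of_nonneg_left h1 h4) hτ0.le
    _ ≤ (r * ‖v j‖) ^ (a j - 1) * ‖v j‖ :=
      mul_le_mul h2 hj hτ0.le (Real.rpow_nonneg (by positivity) _)

end Pool.Agent.Nef6.UM
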