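import Pool.Agent.H.MP_6a1d6a_ag.UM.Stab

/-!
MP_6a1d6a_ag/UM, module H1: second order estimate for holomorphic maps, locally uniform.

`F` is analytic near `x₀`, so `fderiv ℂ F` is `C^1` at `x₀`, thus Lipschitz on a neighbourhood (`ContDiffAt.exists_lipschitzOnWith`; or it is analytic, and the norm of its derivative is bounded near `x₀` by continuity, mean value
inequality). Take a ball `ball x₀ (2 δ)` on which `F` is differentiable and `‖fderiv ℂ F p - fderiv ℂ F q‖ ≤ C ‖p - q‖`. For `x ∈ ball x₀ δ`, `‖u‖ < δ` the points `x + t u` are in it. The second estimate is clear; the first: the derivative of `q ↦ F q - fderiv ℂ F x q` on the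
segment has norm `≤ C ‖u‖` (`Convex.norm_image_sub_le_of_norm_hasFDerivWithin_le` on the segment or on `closedBall x ‖u‖`), so `‖F (x + u) - F x - fderiv ℂ F x u‖ ≤ C ‖u‖ ^ 2`.
-/

set_option autoImplicit false

open Set Filter Topology Metric
open scoped ContDiff Manifold

namespace Pool.Agent.Nef6.UM

open Pool.Agent.Nef6.SN

theorem second_order {n : ℕ} {F : E n → E n} {x₀ : E n} (hF : AnalyticAt ℂ F x₀) :
    ∃ C > 0, ∃ δ > 0, ∀ x ∈ ball x₀ δ, ∀ u : E n, ‖u‖ < δ →
      DifferentiableAt ℂ F (x + u) ∧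
      ‖F (x + u) - (F x + fderiv ℂ F x u)‖ ≤ C * ‖u‖ ^ 2 ∧
      ∀ w : E n, ‖fderiv ℂ F (x + u) w - fderiv ℂ F x w‖ ≤ C * ‖u‖ * ‖w‖ := by
  have h1 : ContDiffAt ℂ 1 (fderiv ℂ F) x₀ := hF.fderiv.contDiffAt
  obtain ⟨K, t, ht, hK⟩ := h1.exists_lipschitzOnWith
  have h2 : ∀ᶠ y in 𝓝 x₀, y ∈ t ∧ DifferentiableAt ℂ F y := by
    filter_upwards [ht, hF.eventually_analyticAt] with y h3 h4
    exact ⟨h3, h4.differentiableAt⟩
  obtain ⟨ε, hε, hb⟩ := Metric.eventually_nhds_iff_ball.1 h2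
  have hlip : ∀ y ∈ ball x₀ ε, ∀ z ∈ ball x₀ ε,
      ‖fderiv ℂ F y - fderiv ℂ F z‖ ≤ K * ‖y - z‖ := by
    intro y hy z hz
    have h3 := hK.dist_le_mul y (hb y hy).1 z (hb z hz).1
    rwa [dist_eq_norm, dist_eq_norm] at h3
  have hK0 : (0 : ℝ) ≤ K := K.2
  refine ⟨K + 1, by linarith, ε / 2, half_pos hε, fun x hx u hu => ?_⟩
  rw [mem_ball] at hx
  have hx' : x ∈ ball x₀ ε := by
    rw [mem_ball]
    linarith
  have hsub : ∀ y ∈ closedBall x ‖u‖, y ∈ ball x₀ ε := by
    intro y hy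
    rw [mem_closedBall] at hy
    rw [mem_ball]
    have h3 := dist_triangle y x x₀
    linarith
  have hxu : x + u ∈ closedBall x ‖u‖ := by
    rw [mem_closedBall, dist_eq_norm, add_sub_cancel_left]
  have hxx : x ∈ closedBall x ‖u‖ := mem_closedBall_self (norm_nonneg u)
  refine ⟨(hb _ (hsub _ hxu)).2, ?_, fun w => ?_⟩
  · have h3 := Convex.norm_image_sub_le_of_norm_hasFDerivWithin_le' (𝕜 := ℂ) (f := F)
      (f' := fderiv ℂ F) (φ := fderiv ℂ F x) (s := closedBall x ‖u‖) (C := K * ‖u‖)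
      (fun y hy => (hb y (hsub y hy)).2.hasFDerivAt.hasFDerivWithinAt)
      (fun y hy => by
        refine (hlip y (hsub y hy) x hx').trans (mul_le_mul_of_nonneg_left ?_ hK0)
        rw [mem_closedBall, dist_eq_norm] at hy
        exact hy)
      (convex_closedBall x ‖u‖) hxx hxu
    rw [add_sub_cancel_left] at h3
    have h4 : F (x + u) - (F x + fderiv ℂ F x u) = F (x + u) - F x - fderiv ℂ F x u := by abel
    rw [h4]
    refine h3.trans ?_
    have h5 : 0 ≤ ‖u‖ ^ 2 := by positivity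
    nlinarith [h5]
  · have h3 : fderiv ℂ F (x + u) w - fderiv ℂ F x w = (fderiv ℂ F (x + u) - fderiv ℂ F x) w := rfl
    rw [h3]
    have h4 := hlip _ (hsub _ hxu) x hx'
    rw [add_sub_cancel_left] at h4
    refine (ContinuousLinearMap.le_opNorm _ w).trans
      (mul_le_mul_of_nonneg_right (h4.trans ?_) (norm_nonneg w))
    have h5 := norm_nonneg u
    nlinarith [h5]

end Pool.Agent.Nef6.UM
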