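import Pool.Agent.H.MP_6a1d6a_ag.UM.H1
import Pool.Agent.H.MP_6a1d6a_ag.CC.Tr
import Pool.Agent.H.MP_6a1d6a_ag.DM.A1

/-!
MP_6a1d6a_ag/UM, module H2: a metric which is stable under perturbations of second order has asymptotically the same disc lengths in each chart.

Let `τ = φ ∘ ψ.symm`, analytic at `ψ y₀` (`CC.tr_smooth`), with `C₁`, `δ₁` from `second_order`. `H2_core`: for `y` near `y₀`, `‖v‖ = 1`, `w = fderiv ℂ (ψ ∘ φ.symm) (φ y) v`: `‖w‖ ≤ M` (the norm of the derivative is bounded near `y₀` by continuity), and `fderiv ℂ τ (ψ y) w = v` (`CC.tr_comp`, `CC.tr_id`).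
For `‖s‖ ≤ r < r₀` the point `ψ y + s • w` is in `ψ.target` and `ψ.symm` of it in `φ.source` (locally uniformly, `r₀ M` small). Let `x = φ y`, `x' = τ (ψ y + s • w)`, `w' = fderiv ℂ τ (ψ y + s • w) w`. By `second_order`: `‖x' - (x + s • v)‖ ≤ C₁ M ^ 2 r ^ 2`, `‖w' - v‖ ≤ C₁ M ^ 2 r`. By `hc` at the point
`ψ.symm (ψ y + s • w)` (and `CC.tr_comp`, `CC.tr_id`: the derivative of `ψ ∘ φ.symm` at `x'` maps `w'` to `w`): `h' (ψ y + s • w) w = h x' w'`. So by `hs` (`x₀ = φ y₀`, `C = C₁ M ^ 2 + 1`, with `ε'`): `|h' (ψ y + s • w) w - h (x + s • v) v| ≤ ε' * disc h x v r` for `‖s‖ ≤ r`. Both discs are `sSup` over `closedBall 0 r`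
(bounded: `disc_le`, `disc_mem` for `IsSemi h φ.target`, `InU` for small `r`; the image for `h'` is bounded by `(1 + ε') * disc h x v r`), so `disc h' (ψ y) w r ≤ (1 + ε') * disc h x v r` and `(1 - ε') * disc h x v r ≤ disc h' (ψ y) w r`.
First part of `stab_of_stable`: `ε' = ε`. Second part: let `‖w₁‖ = 1`, `v₁ = fderiv ℂ τ (ψ y) w₁ ≠ 0`, `v = ‖v₁‖⁻¹ • v₁`, `w = ‖v₁‖⁻¹ • w₁` (the image of `v`), `ρ = ‖v₁‖ * r`. Then `disc h (φ y) v₁ r = ‖v₁‖ * disc h (φ y) v ρ`, `disc h' (ψ y) w₁ r = ‖v₁‖ * disc h' (ψ y) w ρ` (homogeneity: `IsSemi.smul`, `hh'`; `Real.sSup_smul_of_nonneg`,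
image of the ball under multiplication; `‖v₁‖ ≤ M'` near `y₀`, so `ρ` is small), and the estimate for `v`, `ρ` with `ε'`, `1 ≤ (1 + ε) * (1 - ε')`, gives `disc h (φ y) v₁ r ≤ (1 + ε) * disc h' (ψ y) w₁ r`. See also `DM/B2.lean` for such arguments.
-/

set_option autoImplicit false

open Set Filter Topology Metric
open scoped ContDiff Manifold

namespace Pool.Agent.Nef6.UM

open Pool.Agent.Nef6.SN
open Pool.Agent.Nef6.DM (disc IsSemi InU)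

variable {n : ℕ} {Y : Type} [TopologicalSpace Y] [ChartedSpace (E n) Y]
  [IsManifold 𝓘(ℂ, E n) ω Y]

private theorem H2_disc {V : Type} [NormedAddCommGroup V] [NormedSpace ℂ V] {h h' : V → V → ℝ}
    {U : Set V} (hsemi : IsSemi h U) {x v x' w : V} {r ε : ℝ} (hr : 0 ≤ r) (hi : InU U x v r)
    (hp : ∀ s : ℂ, ‖s‖ ≤ r → |h' (x' + s • w) w - h (x + s • v) v| ≤ ε * disc h x v r) :
    disc h' x' w r ≤ (1 + ε) * disc h x v r ∧ (1 - ε) * disc h x v r ≤ disc h' x' w r := by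
  have hne : ((fun s : ℂ => h' (x' + s • w) w) '' closedBall 0 r).Nonempty :=
    ⟨_, 0, mem_closedBall_zero_iff.2 (by rw [norm_zero]; exact hr), rfl⟩
  have hbd : ∀ z ∈ (fun s : ℂ => h' (x' + s • w) w) '' closedBall 0 r,
      z ≤ (1 + ε) * disc h x v r := by
    rintro z ⟨s, hs, rfl⟩
    have hs' := mem_closedBall_zero_iff.1 hs
    have h1 := (abs_le.1 (hp s hs')).2
    have h2 := DM.disc_le hsemi hi hs'
    show h' (x' + s • w) w ≤ _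
    linarith
  refine ⟨csSup_le hne hbd, ?_⟩
  obtain ⟨s, hs, he⟩ := DM.disc_mem hsemi hr hi
  have h1 := (abs_le.1 (hp s hs)).1
  have h2 : h' (x' + s • w) w ≤ disc h' x' w r :=
    le_csSup ⟨_, hbd⟩ ⟨s, mem_closedBall_zero_iff.2 hs, rfl⟩
  rw [he] at h1
  linarith

private theorem H2_bd {φ ψ : Chart n Y} (hφ : φ ∈ Charts (E n) Y) (hψ : ψ ∈ Charts (E n) Y)
    {y₀ : Y} (hy : y₀ ∈ φ.source) (hy' : y₀ ∈ ψ.source) :
    ∃ M : ℝ, 1 ≤ M ∧ ∀ᶠ y in 𝓝 y₀, ‖fderiv ℂ (ψ ∘ φ.symm) (φ y)‖ ≤ M := by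
  have hσ : ContDiffAt ℂ ω (ψ ∘ φ.symm) (φ y₀) := CC.tr_smooth hφ hψ hy hy'
  have hcd : ContinuousAt (fderiv ℂ (ψ ∘ φ.symm)) (φ y₀) :=
    hσ.analyticAt.fderiv.continuousAt
  have hcy : ContinuousAt (fun y => ‖fderiv ℂ (ψ ∘ φ.symm) (φ y)‖) y₀ :=
    (ContinuousAt.comp (f := φ) (x := y₀) hcd (φ.continuousAt hy)).norm
  refine ⟨‖fderiv ℂ (ψ ∘ φ.symm) (φ y₀)‖ + 1, by linarith [norm_nonneg (fderiv ℂ (ψ ∘ φ.symm) (φ y₀))],
    ?_⟩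
  filter_upwards [hcy.eventually_lt continuousAt_const
    (lt_add_one ‖fderiv ℂ (ψ ∘ φ.symm) (φ y₀)‖)] with y h1
  exact h1.le

private theorem H2_pt {φ ψ : Chart n Y} (hφ : φ ∈ Charts (E n) Y) (hψ : ψ ∈ Charts (E n) Y)
    {h h' : E n → E n → ℝ} (hs : Stable h φ.target) (hc : Isom φ h ψ h') {y₀ : Y}
    (hy : y₀ ∈ φ.source) (hy' : y₀ ∈ ψ.source) {ε : ℝ} (hε : 0 < ε) :
    ∃ r₀ > 0, ∀ᶠ y in 𝓝 y₀, ∀ v, ‖v‖ = 1 →
      ∀ r, 0 < r → r < r₀ → InU φ.target (φ y) v r ∧ ∀ s : ℂ, ‖s‖ ≤ r →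
        ψ y + s • fderiv ℂ (ψ ∘ φ.symm) (φ y) v ∈ ψ.target ∧
        |h' (ψ y + s • fderiv ℂ (ψ ∘ φ.symm) (φ y) v) (fderiv ℂ (ψ ∘ φ.symm) (φ y) v) -
          h (φ y + s • v) v| ≤ ε * disc h (φ y) v r := by
  obtain ⟨M, hM1, hM⟩ := H2_bd hφ hψ hy hy'
  have hM0 : 0 < M := by linarith
  obtain ⟨C, hC, δ₁, hδ₁, hso⟩ := second_order (CC.tr_smooth hψ hφ hy' hy).analyticAt
  obtain ⟨δ, hδ, hst⟩ := hs (φ y₀) (φ.map_source hy) (C * M ^ 2) (by positivity) ε hε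
  obtain ⟨δ₂, hδ₂, hb₂⟩ := Metric.isOpen_iff.1 φ.open_target (φ y₀) (φ.map_source hy)
  have hN : ∀ᶠ x in 𝓝 (ψ y₀), x ∈ ψ.target ∧ ψ.symm x ∈ φ.source := by
    have h1 : ∀ᶠ x in 𝓝 (ψ y₀), x ∈ ψ.target := ψ.open_target.mem_nhds (ψ.map_source hy')
    have h2 : ∀ᶠ x in 𝓝 (ψ y₀), ψ.symm x ∈ φ.source := by
      refine (ψ.symm.continuousAt (ψ.map_source hy')).eventually_mem ?_
      rw [ψ.left_inv hy']
      exact φ.open_source.mem_nhds hy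
    exact h1.and h2
  obtain ⟨δ₃, hδ₃, hb₃⟩ := Metric.eventually_nhds_iff.1 hN
  refine ⟨min (min δ (δ₂ / 2)) (min (δ₁ / M) (δ₃ / 2 / M)), by positivity, ?_⟩
  have e1 : ∀ᶠ y in 𝓝 y₀, φ y ∈ ball (φ y₀) (min δ (δ₂ / 2)) :=
    (φ.continuousAt hy).eventually_mem (ball_mem_nhds _ (by positivity))
  have e2 : ∀ᶠ y in 𝓝 y₀, ψ y ∈ ball (ψ y₀) (min δ₁ (δ₃ / 2)) :=
    (ψ.continuousAt hy').eventually_mem (ball_mem_nhds _ (by positivity))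
  have e3 : ∀ᶠ y in 𝓝 y₀, y ∈ φ.source := φ.open_source.mem_nhds hy
  have e4 : ∀ᶠ y in 𝓝 y₀, y ∈ ψ.source := ψ.open_source.mem_nhds hy'
  filter_upwards [hM, e1, e2, e3, e4] with y hMy h1 h2 hyφ hyψ v hv r hr0 hr
  have hrδ : r < δ := hr.trans_le ((min_le_left _ _).trans (min_le_left _ _))
  have hrδ₂ : r < δ₂ / 2 := hr.trans_le ((min_le_left _ _).trans (min_le_right _ _))
  have hrδ₁ : r * M < δ₁ := by
    have h3 := hr.trans_le ((min_le_right _ _).trans (min_le_left _ _))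
    exact (lt_div_iff₀ hM0).1 h3
  have hrδ₃ : r * M < δ₃ / 2 := by
    have h3 := hr.trans_le ((min_le_right _ _).trans (min_le_right _ _))
    exact (lt_div_iff₀ hM0).1 h3
  have h1a : dist (φ y) (φ y₀) < δ := (mem_ball.1 h1).trans_le (min_le_left _ _)
  have h1b : dist (φ y) (φ y₀) < δ₂ / 2 := (mem_ball.1 h1).trans_le (min_le_right _ _)
  have h2a : dist (ψ y) (ψ y₀) < δ₁ := (mem_ball.1 h2).trans_le (min_le_left _ _)
  have h2b : dist (ψ y) (ψ y₀) < δ₃ / 2 := (mem_ball.1 h2).trans_le (min_le_right _ _)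
  have hi : InU φ.target (φ y) v r := by
    intro s hs
    refine hb₂ (mem_ball.2 ?_)
    have h3 : dist (φ y + s • v) (φ y) ≤ r := by
      rw [dist_eq_norm, add_sub_cancel_left, norm_smul, hv, mul_one]
      exact hs
    have h4 := dist_triangle (φ y + s • v) (φ y) (φ y₀)
    linarith
  refine ⟨hi, fun s hs => ?_⟩
  obtain ⟨w, hw⟩ : ∃ w, w = fderiv ℂ (ψ ∘ φ.symm) (φ y) v := ⟨_, rfl⟩
  rw [← hw]
  have hwM : ‖w‖ ≤ M := by
    have h3 := (fderiv ℂ (ψ ∘ φ.symm) (φ y)).le_opNorm v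
    rw [hv, mul_one, ← hw] at h3
    exact h3.trans hMy
  have hwv : fderiv ℂ (φ ∘ ψ.symm) (ψ y) w = v := by
    rw [hw, CC.tr_comp hφ hψ hφ hyφ hyψ hyφ v]
    exact CC.tr_id hyφ v
  have hsw : ‖s • w‖ ≤ r * M := by
    rw [norm_smul]
    exact mul_le_mul hs hwM (norm_nonneg _) hr0.le
  obtain ⟨hx1, hx2⟩ := hb₃ (y := ψ y + s • w) (by
    have h3 : dist (ψ y + s • w) (ψ y) ≤ r * M := by
      rw [dist_eq_norm, add_sub_cancel_left]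
      exact hsw
    have h4 := dist_triangle (ψ y + s • w) (ψ y) (ψ y₀)
    linarith)
  refine ⟨hx1, ?_⟩
  obtain ⟨-, h5, h6⟩ := hso (ψ y) (mem_ball.2 h2a) (s • w) (hsw.trans_lt hrδ₁)
  have h7 : (φ ∘ ψ.symm) (ψ y) = φ y := by
    rw [Function.comp_apply, ψ.left_inv hyψ]
  rw [h7, map_smul, hwv] at h5
  have h8 := h6 w
  rw [hwv] at h8
  have hy1 : ψ.symm (ψ y + s • w) ∈ ψ.source := ψ.map_target hx1
  have hy2 : ψ (ψ.symm (ψ y + s • w)) = ψ y + s • w := ψ.right_inv hx1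
  have h9 := hc _ hx2 hy1 (fderiv ℂ (φ ∘ ψ.symm) (ψ (ψ.symm (ψ y + s • w))) w)
  rw [CC.tr_comp hψ hφ hψ hy1 hx2 hy1 w, CC.tr_id hy1 w, hy2] at h9
  rw [h9]
  have hr2 : ‖s • w‖ ^ 2 ≤ (r * M) ^ 2 := pow_le_pow_left₀ (norm_nonneg _) hsw 2
  refine hst (φ y) (mem_ball.2 h1a) v hv r hr0 hrδ s hs _ _ ?_ ?_
  · refine h5.trans ?_
    calc C * ‖s • w‖ ^ 2 ≤ C * (r * M) ^ 2 := mul_le_mul_of_nonneg_left hr2 hC.le
      _ = C * M ^ 2 * r ^ 2 := by ring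
  · refine h8.trans ?_
    calc C * ‖s • w‖ * ‖w‖ ≤ C * (r * M) * M := by
          refine mul_le_mul (mul_le_mul_of_nonneg_left hsw hC.le) hwM (norm_nonneg _) ?_
          positivity
      _ = C * M ^ 2 * r := by ring

theorem stab_of_stable {φ ψ : Chart n Y} (hφ : φ ∈ Charts (E n) Y) (hψ : ψ ∈ Charts (E n) Y)
    {h h' : E n → E n → ℝ} (hsemi : IsSemi h φ.target) (hs : Stable h φ.target)
    (hh' : ∀ x ∈ ψ.target, ∀ (c : ℂ) (v : E n), h' x (c • v) = ‖c‖ * h' x v)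
    (hc : Isom φ h ψ h') {y₀ : Y} (hy : y₀ ∈ φ.source) (hy' : y₀ ∈ ψ.source) :
    StabAt φ h ψ h' y₀ ∧ StabAt ψ h' φ h y₀ := by
  constructor
  · intro ε hε
    obtain ⟨r₀, hr₀, he⟩ := H2_pt hφ hψ hs hc hy hy' hε
    obtain ⟨W, hWs, hWo, hyW⟩ := mem_nhds_iff.1 he
    refine ⟨W, hWo, hyW, r₀, hr₀, fun y hyW' _ _ v hv r hr0 hr => ?_⟩
    obtain ⟨hi, hp⟩ := hWs hyW' v hv r hr0 hr
    exact (H2_disc hsemi hr0.le hi fun s hs' => (hp s hs').2).1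
  · intro ε hε
    have hε' : 0 < ε / (1 + ε) := by positivity
    obtain ⟨r₀, hr₀, he⟩ := H2_pt hφ hψ hs hc hy hy' hε'
    obtain ⟨M, hM1, hM⟩ := H2_bd hψ hφ hy' hy
    have hM0 : 0 < M := by linarith
    obtain ⟨W, hWs, hWo, hyW⟩ := mem_nhds_iff.1 (he.and hM)
    refine ⟨W, hWo, hyW, r₀ / M, by positivity, fun y hyW' hyψ hyφ w₁ hw₁ r hr0 hr => ?_⟩
    obtain ⟨hp, hMy⟩ := hWs hyW'
    obtain ⟨v₁, hv₁⟩ : ∃ v₁, v₁ = fderiv ℂ (φ ∘ ψ.symm) (ψ y) w₁ := ⟨_, rfl⟩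
    rw [← hv₁]
    have hvw : fderiv ℂ (ψ ∘ φ.symm) (φ y) v₁ = w₁ := by
      rw [hv₁, CC.tr_comp hψ hφ hψ hyψ hyφ hyψ w₁]
      exact CC.tr_id hyψ w₁
    have hv0 : v₁ ≠ 0 := by
      intro h0
      rw [h0, map_zero] at hvw
      rw [← hvw, norm_zero] at hw₁
      exact zero_ne_one hw₁
    have hvM : ‖v₁‖ ≤ M := by
      have h3 := (fderiv ℂ (φ ∘ ψ.symm) (ψ y)).le_opNorm w₁
      rw [hw₁, mul_one, ← hv₁] at h3
      exact h3.trans hMy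
    obtain ⟨c, hc0⟩ : ∃ c : ℂ, c = (‖v₁‖ : ℂ) := ⟨_, rfl⟩
    have hcn : ‖c‖ = ‖v₁‖ := by
      rw [hc0, Complex.norm_real, norm_norm]
    have hcne : c ≠ 0 := norm_ne_zero_iff.1 (by rw [hcn]; exact norm_ne_zero_iff.2 hv0)
    have hcp : 0 < ‖c‖ := norm_pos_iff.2 hcne
    obtain ⟨v, hv⟩ : ∃ v, v = c⁻¹ • v₁ := ⟨_, rfl⟩
    have hv1 : ‖v‖ = 1 := by
      rw [hv, norm_smul, norm_inv, hcn]
      exact inv_mul_cancel₀ (norm_ne_zero_iff.2 hv0)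
    have hcv : c • v = v₁ := by rw [hv, smul_inv_smul₀ hcne]
    have hcr : ‖c‖ * r < r₀ := by
      have h3 : r * M < r₀ := (lt_div_iff₀ hM0).1 hr
      have h4 : ‖c‖ * r ≤ M * r := mul_le_mul_of_nonneg_right (by rw [hcn]; exact hvM) hr0.le
      linarith
    obtain ⟨hi, hp'⟩ := hp v hv1 (‖c‖ * r) (by positivity) hcr
    have hi' : InU φ.target (φ y) v₁ r := by
      rw [← hcv]
      exact hi.smul
    have hcw : c • fderiv ℂ (ψ ∘ φ.symm) (φ y) v = w₁ := by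
      rw [← map_smul, hcv, hvw]
    have hD : disc h (φ y) v₁ r = ‖c‖ * disc h (φ y) v (‖c‖ * r) := by
      rw [← hcv]
      exact DM.disc_smul hsemi hr0.le hi
    have hpt : ∀ s : ℂ, ‖s‖ ≤ r → |h' (ψ y + s • w₁) w₁ - h (φ y + s • v₁) v₁| ≤
        ε / (1 + ε) * disc h (φ y) v₁ r := by
      intro s hs'
      have hsc : ‖s * c‖ ≤ ‖c‖ * r := by
        rw [norm_mul, mul_comm]
        exact mul_le_mul_of_nonneg_left hs' (norm_nonneg _)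
      obtain ⟨h3, h4⟩ := hp' (s * c) hsc
      have h5 : s • w₁ = (s * c) • fderiv ℂ (ψ ∘ φ.symm) (φ y) v := by
        rw [← hcw, smul_smul]
      have h6 : s • v₁ = (s * c) • v := by rw [← hcv, smul_smul]
      have h7 : h' (ψ y + s • w₁) w₁ = ‖c‖ * h' (ψ y + (s * c) • fderiv ℂ (ψ ∘ φ.symm) (φ y) v)
          (fderiv ℂ (ψ ∘ φ.symm) (φ y) v) := by
        rw [h5, ← hh' _ h3 c, hcw]
      have h8 : h (φ y + s • v₁) v₁ = ‖c‖ * h (φ y + (s * c) • v) v := by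
        rw [h6, ← hsemi.smul _ (hi _ hsc) c, hcv]
      rw [h7, h8, hD, ← mul_sub, abs_mul, abs_norm]
      calc ‖c‖ * |h' (ψ y + (s * c) • fderiv ℂ (ψ ∘ φ.symm) (φ y) v)
            (fderiv ℂ (ψ ∘ φ.symm) (φ y) v) - h (φ y + (s * c) • v) v|
          ≤ ‖c‖ * (ε / (1 + ε) * disc h (φ y) v (‖c‖ * r)) :=
            mul_le_mul_of_nonneg_left h4 (norm_nonneg _)
        _ = ε / (1 + ε) * (‖c‖ * disc h (φ y) v (‖c‖ * r)) := by ring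
    have h9 := (H2_disc hsemi hr0.le hi' hpt).2
    have h10 : (1 + ε) * (1 - ε / (1 + ε)) = 1 := by
      field_simp
      ring
    calc disc h (φ y) v₁ r = (1 + ε) * ((1 - ε / (1 + ε)) * disc h (φ y) v₁ r) := by
          rw [← mul_assoc, h10, one_mul]
      _ ≤ (1 + ε) * disc h' (ψ y) w₁ r := mul_le_mul_of_nonneg_left h9 (by positivity)

end Pool.Agent.Nef6.UM
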