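import Pool.Agent.H.MP_6a1d6a_ag.UM.Stab

/-!
MP_6a1d6a_ag/UM, module Low: metrics which vanish to an order less than one (definition, for the examples).
-/

set_option autoImplicit false

open Set Filter Topology Metric

namespace Pool.Agent.Nef6.UM

open Pool.Agent.Nef6.SN
open Pool.Agent.Nef6.DM (disc)

/-- The maximal lengths of the small straight discs are large compared with their radii. -/
def LowOrder {N : ℕ} (h : E N → E N → ℝ) (U : Set (E N)) : Prop :=
  ∀ x₀ ∈ U, ∀ M > 0, ∃ δ > 0, ∀ x ∈ ball x₀ δ, ∀ v : E N, ‖v‖ = 1 → ∀ r, 0 < r → r < δ →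
    M * r ≤ disc h x v r

end Pool.Agent.Nef6.UM
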