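import Pool.Agent.H.MP_6a1d6a_ag.UM.Def
import Pool.Agent.H.MP_6a1d6a_ag.SN.B1
import Pool.Agent.H.MP_6a1d6a_ag.SN.B6

/-!
MP_6a1d6a_ag/UM, module M1: asymptotics of the lengths of the discs in a cone chart.

`disc_pull_one`: `f (x, v, s) = pull a h (x + s v) v` is continuous at `(x₀, v₀, 0)` (`pull_cont`, `pull_open`) with the value `m₀ = pull a h x₀ v₀ > 0` (`pull_nonneg`). Take `δ > 0` with
`m₀ + δ ≤ (1 + ε) (m₀ - δ)`, `δ < m₀`; for `(x, v)` near `(x₀, v₀)` and `‖s‖ < r₀` all values of `f` are in `(m₀ - δ, m₀ + δ)`. `disc (pull a h) x v r` is the `sSup` of such values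
(for `‖s‖ ≤ r`; bounded above, `le_csSup`, `csSup_le`), and the value at `s = 0` is `pull a h x v`.
`disc_pull_ker`: let `Φ (s, v)` be the vector with the components `a i ‖s‖ ^ (a i - A) ‖v i‖ ^ (a i - 1) v i` if `A ≤ a i`, and `0` otherwise; it is continuous in `(s, v)` (exponents `≥ 0`), and `Φ (0, v) = leadA a A v`.
If `KerA a A x v`, then `vec a (x + s v) v = ‖s‖ ^ (A - 1) Φ (s, v)` (if `v i ≠ 0` then `x i = 0`, `A ≤ a i`, and `a i ‖s v i‖ ^ (a i - 1) v i = a i ‖s‖ ^ (A - 1) ‖s‖ ^ (a i - A) ‖v i‖ ^ (a i - 1) v i`; for `s = 0` both are `0`),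
so `pull a h (x + s v) v = ‖s‖ ^ (A - 1) g (x, v, s)`, `g (x, v, s) = h (pt a (x + s v)) (Φ (s, v))` (`IsMetric.smul`; `pt a (x + s v) ∈ U` for `(x, v, s)` near `(x₀, v₀, 0)`). `g` is continuous at `(x₀, v₀, 0)` with the value
`m₀ = h (pt a x₀) (leadA a A v₀) > 0` (`knA ... ≠ 0`), and `g (x, v, 0) = h (pt a x) (leadA a A v) = knA a A h x v ^ A`. With `δ` as before all values of `g` are in `(m₀ - δ, m₀ + δ)`: for `‖s‖ ≤ r`
`pull a h (x + s v) v ≤ r ^ (A - 1) (m₀ + δ) ≤ (1 + ε) knA ^ A r ^ (A - 1)`, and at `s = r`: `knA ^ A r ^ (A - 1) ≤ (m₀ + δ) r ^ (A - 1) ≤ (1 + ε) pull a h (x + r v) v ≤ (1 + ε) disc`.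
-/

set_option autoImplicit false

open Set Filter Topology Metric MeasureTheory
open scoped ContDiff Manifold

namespace Pool.Agent.Nef6.UM

open Pool.Agent.Nef6.SN
open Pool.Agent.Nef6.DM (disc IsSemi InU rad Good)

variable {n : ℕ} {a : Fin n → ℝ} {h : E n → E n → ℝ} {U : Set (E n)}

private theorem M1_near {n : ℕ} {x₀ v₀ : E n} {P : (E n × E n) × ℂ → Prop}
    (hP : ∀ᶠ p in 𝓝 ((x₀, v₀), (0 : ℂ)), P p) :
    ∃ r₀ > 0, ∀ᶠ q : E n × E n in 𝓝 (x₀, v₀), ∀ s : ℂ, ‖s‖ < r₀ → P (q, s) := by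
  rw [nhds_prod_eq, Filter.eventually_prod_iff] at hP
  obtain ⟨pa, ha, pb, hb, h⟩ := hP
  obtain ⟨r₀, hr₀, hr⟩ := Metric.eventually_nhds_iff.1 hb
  refine ⟨r₀, hr₀, ha.mono fun q hq s hs => h hq (hr ?_)⟩
  rw [dist_zero_right]
  exact hs

private theorem M1_delta {m ε : ℝ} (hm : 0 < m) (hε : 0 < ε) :
    ∃ δ > 0, δ < m ∧ m + δ ≤ (1 + ε) * (m - δ) := by
  have h2 : 0 < 2 + ε := by linarith
  refine ⟨ε * m / (2 + ε), by positivity, ?_, ?_⟩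
  · rw [div_lt_iff₀ h2]
    nlinarith
  · have h3 : ε * m / (2 + ε) * (2 + ε) = ε * m := div_mul_cancel₀ _ h2.ne'
    nlinarith

private theorem M1_sup {F : ℂ → ℝ} {r B : ℝ} (hB : ∀ s : ℂ, ‖s‖ ≤ r → F s ≤ B) (hr : 0 ≤ r) :
    sSup (F '' closedBall 0 r) ≤ B ∧ ∀ s : ℂ, ‖s‖ ≤ r → F s ≤ sSup (F '' closedBall 0 r) := by
  have h1 : ∀ y ∈ F '' closedBall 0 r, y ≤ B := by
    rintro _ ⟨s, hs, rfl⟩
    exact hB s (mem_closedBall_zero_iff.1 hs)
  refine ⟨csSup_le ⟨F 0, 0, mem_closedBall_zero_iff.2 (by rw [norm_zero]; exact hr), rfl⟩ h1, ?_⟩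
  intro s hs
  exact le_csSup ⟨B, h1⟩ ⟨s, mem_closedBall_zero_iff.2 hs, rfl⟩

theorem disc_pull_one (hh : IsMetric h U) (ha : ∀ i, 1 ≤ a i) {x₀ v₀ : E n} (hx : pt a x₀ ∈ U)
    (hv : pull a h x₀ v₀ ≠ 0) {ε : ℝ} (hε : 0 < ε) :
    ∃ r₀ > 0, ∀ᶠ q : E n × E n in 𝓝 (x₀, v₀), ∀ r, 0 < r → r < r₀ →
      0 < pull a h q.1 q.2 ∧
      disc (pull a h) q.1 q.2 r ≤ (1 + ε) * pull a h q.1 q.2 ∧
      pull a h q.1 q.2 ≤ (1 + ε) * disc (pull a h) q.1 q.2 r := by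
  obtain ⟨m, hm⟩ : ∃ m, m = pull a h x₀ v₀ := ⟨_, rfl⟩
  have hm0 : 0 < m := by
    rw [hm]
    exact lt_of_le_of_ne (pull_nonneg hh hx v₀) (Ne.symm hv)
  obtain ⟨δ, hδ, hδm, hδε⟩ := M1_delta hm0 hε
  have hc : ContinuousAt (fun p : (E n × E n) × ℂ => pull a h (p.1.1 + p.2 • p.1.2) p.1.2)
      ((x₀, v₀), (0 : ℂ)) := by
    have h1 : ContinuousAt (fun q : E n × E n => pull a h q.1 q.2) (x₀ + (0 : ℂ) • v₀, v₀) := by
      rw [zero_smul, add_zero]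
      exact (pull_cont hh ha).continuousAt
        (((pull_open hh ha).prod isOpen_univ).mem_nhds ⟨hx, mem_univ _⟩)
    have h2 : Continuous fun p : (E n × E n) × ℂ =>
        ((p.1.1 + p.2 • p.1.2, p.1.2) : E n × E n) := by fun_prop
    exact ContinuousAt.comp (f := fun p : (E n × E n) × ℂ =>
      ((p.1.1 + p.2 • p.1.2, p.1.2) : E n × E n)) (x := ((x₀, v₀), (0 : ℂ))) h1 h2.continuousAt
  have hval : pull a h (x₀ + (0 : ℂ) • v₀) v₀ = m := by rw [zero_smul, add_zero, hm]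
  have hP : ∀ᶠ p in 𝓝 ((x₀, v₀), (0 : ℂ)), m - δ < pull a h (p.1.1 + p.2 • p.1.2) p.1.2 ∧
      pull a h (p.1.1 + p.2 • p.1.2) p.1.2 < m + δ := by
    have h1 : Tendsto (fun p : (E n × E n) × ℂ => pull a h (p.1.1 + p.2 • p.1.2) p.1.2)
        (𝓝 ((x₀, v₀), (0 : ℂ))) (𝓝 m) := by
      have h2 := hc.tendsto
      simp only [hval] at h2
      exact h2
    exact (h1.eventually (lt_mem_nhds (by linarith))).and (h1.eventually (gt_mem_nhds (by linarith)))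
  obtain ⟨r₀, hr₀, hq⟩ := M1_near hP
  refine ⟨r₀, hr₀, hq.mono fun q hq r hr hrr => ?_⟩
  have h0 := hq 0 (by rw [norm_zero]; exact hr₀)
  simp only [zero_smul, add_zero] at h0
  have hs : ∀ s : ℂ, ‖s‖ ≤ r → pull a h (q.1 + s • q.2) q.2 ≤ m + δ :=
    fun s hs => (hq s (hs.trans_lt hrr)).2.le
  obtain ⟨k1, k2⟩ := M1_sup hs hr.le
  have k3 := k2 0 (by rw [norm_zero]; exact hr.le)
  simp only [zero_smul, add_zero] at k3
  have k4 : 0 < pull a h q.1 q.2 := by linarith [h0.1]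
  have k5 : disc (pull a h) q.1 q.2 r =
    sSup ((fun s : ℂ => pull a h (q.1 + s • q.2) q.2) '' closedBall 0 r) := rfl
  refine ⟨k4, ?_, ?_⟩
  · rw [k5]
    refine k1.trans (hδε.trans (mul_le_mul_of_nonneg_left h0.1.le (by linarith)))
  · rw [k5]
    refine k3.trans ?_
    have k6 := k4.trans_le k3
    nlinarith

/-- the vector `Φ (s, v)` -/
private noncomputable def M1_phi (a : Fin n → ℝ) (A : ℝ) (s : ℂ) (v : E n) : E n :=
  WithLp.toLp 2 (fun i => if A ≤ a i then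
    ((a i * ‖s‖ ^ (a i - A) * ‖v i‖ ^ (a i - 1) : ℝ) : ℂ) * v i else 0)

private theorem M1_phi_apply (A : ℝ) (s : ℂ) (v : E n) (i : Fin n) :
    M1_phi a A s v i = if A ≤ a i then
      ((a i * ‖s‖ ^ (a i - A) * ‖v i‖ ^ (a i - 1) : ℝ) : ℂ) * v i else 0 := rfl

private theorem M1_phi_cont (ha : ∀ i, 1 ≤ a i) (A : ℝ) :
    Continuous fun p : ℂ × E n => M1_phi a A p.1 p.2 := by
  refine (PiLp.continuous_toLp 2 _).comp (continuous_pi fun i => ?_)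
  by_cases hi : A ≤ a i
  · simp only [if_pos hi]
    have h1 : Continuous fun p : ℂ × E n => ‖p.1‖ ^ (a i - A) :=
      (Real.continuous_rpow_const (by linarith)).comp continuous_fst.norm
    have h2 : Continuous fun p : ℂ × E n => p.2 i := by fun_prop
    have h3 : Continuous fun p : ℂ × E n => ‖p.2 i‖ ^ (a i - 1) :=
      (Real.continuous_rpow_const (by linarith [ha i])).comp h2.norm
    exact (Complex.continuous_ofReal.comp ((continuous_const.mul h1).mul h3)).mul h2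
  · simp only [if_neg hi]
    exact continuous_const

private theorem M1_phi_zero (A : ℝ) (v : E n) : M1_phi a A 0 v = leadA a A v := by
  ext i
  have e : leadA a A v i = if a i = A then ((A * ‖v i‖ ^ (A - 1) : ℝ) : ℂ) * v i else 0 := rfl
  rw [M1_phi_apply, e, norm_zero]
  by_cases h1 : a i = A
  · rw [if_pos h1, if_pos h1.ge, h1, sub_self, Real.rpow_zero, mul_one]
  · rw [if_neg h1]
    by_cases h2 : A ≤ a i
    · have h3 : a i - A ≠ 0 := sub_ne_zero.2 h1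
      rw [if_pos h2, Real.zero_rpow h3, mul_zero, zero_mul, Complex.ofReal_zero, zero_mul]
    · rw [if_neg h2]

private theorem M1_vec {A : ℝ} (hA : 1 < A) {x v : E n} (hk : KerA a A x v) (s : ℂ) :
    vec a (x + s • v) v = ((‖s‖ ^ (A - 1) : ℝ) : ℂ) • M1_phi a A s v := by
  ext i
  have e1 : vec a (x + s • v) v i = ((a i * ‖x i + s * v i‖ ^ (a i - 1) : ℝ) : ℂ) * v i := rfl
  have e2 : (((‖s‖ ^ (A - 1) : ℝ) : ℂ) • M1_phi a A s v) i =
      ((‖s‖ ^ (A - 1) : ℝ) : ℂ) * M1_phi a A s v i := rfl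
  rw [e1, e2, M1_phi_apply]
  rcases hk i with h1 | ⟨h1, h2⟩
  · rw [h1, mul_zero, mul_zero]
    split_ifs <;> simp
  · rw [if_pos h1, h2, zero_add, norm_mul, Real.mul_rpow (norm_nonneg _) (norm_nonneg _)]
    have h3 : ‖s‖ ^ (a i - 1) = ‖s‖ ^ (A - 1) * ‖s‖ ^ (a i - A) := by
      rw [← Real.rpow_add_of_nonneg (norm_nonneg _) (by linarith) (by linarith)]
      congr 1
      ring
    rw [h3]
    push_cast
    ring

private theorem M1_pull (hh : IsMetric h U) {A : ℝ} (hA : 1 < A) {x v : E n}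
    (hk : KerA a A x v) {s : ℂ} (hx : pt a (x + s • v) ∈ U) :
    pull a h (x + s • v) v = ‖s‖ ^ (A - 1) * h (pt a (x + s • v)) (M1_phi a A s v) := by
  unfold pull
  rw [M1_vec hA hk, hh.smul _ hx, Complex.norm_real, Real.norm_eq_abs,
    abs_of_nonneg (Real.rpow_nonneg (norm_nonneg _) _)]

theorem disc_pull_ker (hh : IsMetric h U) (ha : ∀ i, 1 ≤ a i) {A : ℝ} (hA : 1 < A)
    {x₀ v₀ : E n} (hx : pt a x₀ ∈ U) (hk : KerA a A x₀ v₀) (hv : knA a A h x₀ v₀ ≠ 0) {ε : ℝ}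
    (hε : 0 < ε) :
    ∃ r₀ > 0, ∀ᶠ q : E n × E n in 𝓝 (x₀, v₀), KerA a A q.1 q.2 → ∀ r, 0 < r → r < r₀ →
      0 < knA a A h q.1 q.2 ∧
      disc (pull a h) q.1 q.2 r ≤ (1 + ε) * (knA a A h q.1 q.2 ^ A * r ^ (A - 1)) ∧
      knA a A h q.1 q.2 ^ A * r ^ (A - 1) ≤ (1 + ε) * disc (pull a h) q.1 q.2 r := by
  have hA0 : A ≠ 0 := by linarith
  have hA1 : 0 < 1 / A := one_div_pos.2 (by linarith)
  obtain ⟨m, hm⟩ : ∃ m, m = h (pt a x₀) (leadA a A v₀) := ⟨_, rfl⟩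
  have hm0 : 0 < m := by
    refine lt_of_le_of_ne (by rw [hm]; exact hh.nonneg hx _) fun h0 => hv ?_
    unfold knA
    rw [← hm, ← h0, Real.zero_rpow hA1.ne']
  obtain ⟨δ, hδ, hδm, hδε⟩ := M1_delta hm0 hε
  have h2 : Continuous fun p : (E n × E n) × ℂ =>
      ((pt a (p.1.1 + p.2 • p.1.2), M1_phi a A p.2 p.1.2) : E n × E n) := by
    have k1 : Continuous fun p : (E n × E n) × ℂ => p.1.1 + p.2 • p.1.2 := by fun_prop
    have k2 : Continuous fun p : (E n × E n) × ℂ => ((p.2, p.1.2) : ℂ × E n) := by fun_prop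
    exact ((pt_cont ha).comp k1).prodMk ((M1_phi_cont ha A).comp k2)
  have hval : h (pt a (x₀ + (0 : ℂ) • v₀)) (M1_phi a A 0 v₀) = m := by
    rw [zero_smul, add_zero, M1_phi_zero, hm]
  have hmem : ((pt a (x₀ + (0 : ℂ) • v₀), M1_phi a A 0 v₀) : E n × E n) ∈ U ×ˢ univ := by
    rw [zero_smul, add_zero]
    exact ⟨hx, mem_univ _⟩
  have hP : ∀ᶠ p in 𝓝 ((x₀, v₀), (0 : ℂ)), pt a (p.1.1 + p.2 • p.1.2) ∈ U ∧
      m - δ < h (pt a (p.1.1 + p.2 • p.1.2)) (M1_phi a A p.2 p.1.2) ∧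
      h (pt a (p.1.1 + p.2 • p.1.2)) (M1_phi a A p.2 p.1.2) < m + δ := by
    have h1 : Tendsto (fun p : (E n × E n) × ℂ =>
        h (pt a (p.1.1 + p.2 • p.1.2)) (M1_phi a A p.2 p.1.2))
        (𝓝 ((x₀, v₀), (0 : ℂ))) (𝓝 m) := by
      have k1 : ContinuousAt (fun q : E n × E n => h q.1 q.2)
          (pt a (x₀ + (0 : ℂ) • v₀), M1_phi a A 0 v₀) :=
        hh.cont.continuousAt ((hh.op.prod isOpen_univ).mem_nhds hmem)
      have k2 := (ContinuousAt.comp (f := fun p : (E n × E n) × ℂ =>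
        ((pt a (p.1.1 + p.2 • p.1.2), M1_phi a A p.2 p.1.2) : E n × E n))
        (x := ((x₀, v₀), (0 : ℂ))) k1 h2.continuousAt).tendsto
      simp only [Function.comp_def, hval] at k2
      exact k2
    have h3 : ∀ᶠ p : (E n × E n) × ℂ in 𝓝 ((x₀, v₀), (0 : ℂ)), pt a (p.1.1 + p.2 • p.1.2) ∈ U := by
      have k1 : Continuous fun p : (E n × E n) × ℂ => pt a (p.1.1 + p.2 • p.1.2) :=
        continuous_fst.comp h2
      exact (hh.op.preimage k1).mem_nhds hmem.1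
    exact h3.and ((h1.eventually (lt_mem_nhds (by linarith))).and
      (h1.eventually (gt_mem_nhds (by linarith))))
  obtain ⟨r₀, hr₀, hq⟩ := M1_near hP
  refine ⟨r₀, hr₀, hq.mono fun q hq hkq r hr hrr => ?_⟩
  obtain ⟨u0, u1, u2⟩ := hq 0 (by rw [norm_zero]; exact hr₀)
  simp only [zero_smul, add_zero, M1_phi_zero] at u0 u1 u2
  obtain ⟨g, hg⟩ : ∃ g, g = h (pt a q.1) (leadA a A q.2) := ⟨_, rfl⟩
  rw [← hg] at u1 u2
  have hg0 : 0 < g := by linarith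
  have hkn : knA a A h q.1 q.2 = g ^ (1 / A) := by
    rw [hg]
    rfl
  have hknA : knA a A h q.1 q.2 ^ A = g := by
    rw [hkn, ← Real.rpow_mul hg0.le, one_div_mul_cancel hA0, Real.rpow_one]
  have hrA : 0 < r ^ (A - 1) := Real.rpow_pos_of_pos hr _
  have hs : ∀ s : ℂ, ‖s‖ ≤ r → pull a h (q.1 + s • q.2) q.2 ≤ (1 + ε) * (g * r ^ (A - 1)) := by
    intro s hs
    obtain ⟨w0, w1, w2⟩ := hq s (hs.trans_lt hrr)
    rw [M1_pull hh hA hkq w0]
    have k1 : ‖s‖ ^ (A - 1) ≤ r ^ (A - 1) :=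
      Real.rpow_le_rpow (norm_nonneg _) hs (by linarith)
    have k2 : h (pt a (q.1 + s • q.2)) (M1_phi a A s q.2) ≤ (1 + ε) * g :=
      w2.le.trans (hδε.trans (mul_le_mul_of_nonneg_left u1.le (by linarith)))
    calc _ ≤ r ^ (A - 1) * ((1 + ε) * g) :=
          mul_le_mul k1 k2 (by linarith) hrA.le
      _ = _ := by ring
  obtain ⟨k1, k2⟩ := M1_sup hs hr.le
  have k5 : disc (pull a h) q.1 q.2 r =
    sSup ((fun s : ℂ => pull a h (q.1 + s • q.2) q.2) '' closedBall 0 r) := rfl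
  rw [hknA, k5]
  refine ⟨by rw [hkn]; exact Real.rpow_pos_of_pos hg0 _, k1, ?_⟩
  have hrn : ‖((r : ℝ) : ℂ)‖ = r := by
    rw [Complex.norm_real, Real.norm_eq_abs, abs_of_pos hr]
  obtain ⟨w0, w1, w2⟩ := hq (r : ℂ) (by rw [hrn]; exact hrr)
  have k3 := k2 (r : ℂ) hrn.le
  rw [M1_pull hh hA hkq w0, hrn] at k3
  have k6 : g ≤ (1 + ε) * h (pt a (q.1 + (r : ℂ) • q.2)) (M1_phi a A (r : ℂ) q.2) :=
    u2.le.trans (hδε.trans (mul_le_mul_of_nonneg_left w1.le (by linarith)))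
  calc g * r ^ (A - 1) ≤
        ((1 + ε) * h (pt a (q.1 + (r : ℂ) • q.2)) (M1_phi a A (r : ℂ) q.2)) * r ^ (A - 1) :=
        mul_le_mul_of_nonneg_right k6 hrA.le
    _ = (1 + ε) * (r ^ (A - 1) * h (pt a (q.1 + (r : ℂ) • q.2)) (M1_phi a A (r : ℂ) q.2)) := by
        ring
    _ ≤ _ := mul_le_mul_of_nonneg_left k3 (by linarith)

end Pool.Agent.Nef6.UM
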