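import Pool.Agent.H.MP_6a1d6a_ag.UM.Base2
import Pool.Agent.H.MP_6a1d6a_ag.DM.B2

/-!
MP_6a1d6a_ag/UM, module S1: comparison of the lengths of the discs in two charts.

Adapt `DM/B2.lean` (`B2_half`, `B2_inU`, `B2_loc`, `stable_compact`; its private lemmas have to be copied). There the metrics satisfy `IsSemi`; here only the homogeneity
`hh`, `hh'` is known, which gives for `c ≠ 0` and small `r` (the disc in the target): `disc h x (c • v) r = ‖c‖ * disc h x v (‖c‖ * r)` (`disc` is the `sSup` of the image of `closedBall 0 r`;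
`Real.sSup_smul_of_nonneg`, `s ↦ s * c` maps `closedBall 0 r` onto `closedBall 0 (‖c‖ * r)`). `stab_compact` from `stab_loc` by a finite subcover.
-/

set_option autoImplicit false

open Set Filter Topology Metric MeasureTheory
open scoped ContDiff Manifold

namespace Pool.Agent.Nef6.UM

open Pool.Agent.Nef6.SN
open Pool.Agent.Nef6.SM (loc_curve A5Loc)
open Pool.Agent.Nef6.DM (disc IsSemi InU rad Good)

variable {n : ℕ} {Y : Type} [TopologicalSpace Y] [ChartedSpace (E n) Y]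
  [IsManifold 𝓘(ℂ, E n) ω Y]

open scoped Pointwise in
private theorem S1_disc_smul {U : Set (E n)} {h : E n → E n → ℝ}
    (hh : ∀ x ∈ U, ∀ (c : ℂ) (v : E n), h x (c • v) = ‖c‖ * h x v) {x v : E n} {r : ℝ} {c : ℂ}
    (hc : c ≠ 0) (hi : InU U x v (‖c‖ * r)) :
    disc h x (c • v) r = ‖c‖ * disc h x v (‖c‖ * r) := by
  have hcn : 0 < ‖c‖ := norm_pos_iff.2 hc
  have h1 : (fun s : ℂ => h (x + s • (c • v)) (c • v)) '' closedBall 0 r =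
      ‖c‖ • ((fun s : ℂ => h (x + s • v) v) '' closedBall 0 (‖c‖ * r)) := by
    ext t
    simp only [Set.mem_image, Set.mem_smul_set, mem_closedBall, dist_zero_right, smul_eq_mul]
    constructor
    · rintro ⟨s, hs, rfl⟩
      have h2 : ‖s * c‖ ≤ ‖c‖ * r := by
        rw [norm_mul, mul_comm]
        exact mul_le_mul_of_nonneg_left hs hcn.le
      refine ⟨h (x + (s * c) • v) v, ⟨s * c, h2, rfl⟩, ?_⟩
      rw [smul_smul, hh _ (hi (s * c) h2) c v]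
    · rintro ⟨_, ⟨s, hs, rfl⟩, rfl⟩
      refine ⟨s / c, ?_, ?_⟩
      · rw [norm_div, div_le_iff₀ hcn, mul_comm]
        exact hs
      · rw [smul_smul, div_mul_cancel₀ s hc, hh _ (hi s hs) c v]
  unfold Pool.Agent.Nef6.DM.disc
  rw [h1, Real.sSup_smul_of_nonneg hcn.le, smul_eq_mul]

omit [ChartedSpace (E n) Y] [IsManifold 𝓘(ℂ, E n) ω Y] in
private theorem S1_half {φ ψ : Chart n Y} {h h' : E n → E n → ℝ}
    (hh : ∀ x ∈ φ.target, ∀ (c : ℂ) (v : E n), h x (c • v) = ‖c‖ * h x v)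
    (hh' : ∀ x ∈ ψ.target, ∀ (c : ℂ) (v : E n), h' x (c • v) = ‖c‖ * h' x v)
    {y₀ : Y} (hs : StabAt φ h ψ h' y₀) {ε : ℝ} (hε : 0 < ε) :
    ∃ r₀ > 0, ∀ᶠ y in 𝓝 y₀, y ∈ φ.source → y ∈ ψ.source →
      ∀ v : E n, v ≠ 0 → ∀ r, 0 < r → ‖v‖ * r < r₀ →
      InU φ.target (φ y) v r →
      InU ψ.target (ψ y) (fderiv ℂ (ψ ∘ φ.symm) (φ y) v) r →
      disc h' (ψ y) (fderiv ℂ (ψ ∘ φ.symm) (φ y) v) r ≤ (1 + ε) * disc h (φ y) v r := by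
  obtain ⟨W, hW, hyW, r₀, hr₀, hst⟩ := hs ε hε
  refine ⟨r₀, hr₀, ?_⟩
  filter_upwards [hW.mem_nhds hyW] with y hy hyi hyj v hv r hr hvr hin hin'
  have hn : 0 < ‖v‖ := norm_pos_iff.2 hv
  obtain ⟨c, hc⟩ : ∃ c : ℂ, c = ((‖v‖ : ℝ) : ℂ) := ⟨_, rfl⟩
  have hcn : ‖c‖ = ‖v‖ := by rw [hc, Complex.norm_real, norm_norm]
  have hc0 : c ≠ 0 := by
    rw [← norm_pos_iff, hcn]
    exact hn
  obtain ⟨v₁, hv₁⟩ : ∃ v₁ : E n, v₁ = c⁻¹ • v := ⟨_, rfl⟩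
  have hv₁n : ‖v₁‖ = 1 := by
    rw [hv₁, norm_smul, norm_inv, hcn, inv_mul_cancel₀ hn.ne']
  have hvc : v = c • v₁ := by
    rw [hv₁, smul_smul, mul_inv_cancel₀ hc0, one_smul]
  have hcr : ‖c‖ * r < r₀ := by
    rw [hcn]
    exact hvr
  have hcr0 : 0 < ‖c‖ * r := by
    rw [hcn]
    exact mul_pos hn hr
  have h1 := hst y hy hyi hyj v₁ hv₁n (‖c‖ * r) hcr0 hcr
  rw [hvc] at hin hin' ⊢
  rw [map_smul] at hin' ⊢
  rw [S1_disc_smul hh' hc0 (hin'.of_smul hc0), S1_disc_smul hh hc0 (hin.of_smul hc0)]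
  have h2 := mul_le_mul_of_nonneg_left h1 (norm_nonneg c)
  linarith

omit [ChartedSpace (E n) Y] [IsManifold 𝓘(ℂ, E n) ω Y] in
private theorem S1_inU (φ : Chart n Y) {y₀ : Y} (hi : y₀ ∈ φ.source) :
    ∃ δ > 0, ∀ᶠ y in 𝓝 y₀, ∀ v : E n, ∀ r, ‖v‖ * r < δ → InU φ.target (φ y) v r := by
  obtain ⟨δ, hδ, h⟩ := Metric.isOpen_iff.1 φ.open_target (φ y₀) (φ.map_source hi)
  refine ⟨δ / 2, half_pos hδ, ?_⟩
  have h1 : ∀ᶠ y in 𝓝 y₀, φ y ∈ ball (φ y₀) (δ / 2) :=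
    (φ.continuousAt hi).eventually_mem (ball_mem_nhds _ (half_pos hδ))
  filter_upwards [h1] with y hy v r hvr s hs
  refine h ?_
  rw [mem_ball, dist_eq_norm] at hy ⊢
  have h2 : φ y + s • v - φ y₀ = (φ y - φ y₀) + s • v := by abel
  rw [h2]
  have h3 : ‖s • v‖ ≤ ‖v‖ * r := by
    rw [norm_smul, mul_comm]
    exact mul_le_mul_of_nonneg_left hs (norm_nonneg v)
  have h4 := norm_add_le (φ y - φ y₀) (s • v)
  linarith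

theorem stab_loc {φ ψ : Chart n Y} (hφ : φ ∈ Charts (E n) Y) (hψ : ψ ∈ Charts (E n) Y)
    {h h' : E n → E n → ℝ}
    (hh : ∀ x ∈ φ.target, ∀ (c : ℂ) (v : E n), h x (c • v) = ‖c‖ * h x v)
    (hh' : ∀ x ∈ ψ.target, ∀ (c : ℂ) (v : E n), h' x (c • v) = ‖c‖ * h' x v)
    {y₀ : Y} (hy : y₀ ∈ φ.source) (hy' : y₀ ∈ ψ.source) (hs : StabAt φ h ψ h' y₀)
    (hs' : StabAt ψ h' φ h y₀) {ε : ℝ} (hε : 0 < ε) :
    ∃ r₀ > 0, ∀ᶠ y in 𝓝 y₀, ∀ v : E n, v ≠ 0 → ∀ r, 0 < r → ‖v‖ * r < r₀ →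
      disc h' (ψ y) (fderiv ℂ (ψ ∘ φ.symm) (φ y) v) r ≤ (1 + ε) * disc h (φ y) v r ∧
      disc h (φ y) v r ≤ (1 + ε) * disc h' (ψ y) (fderiv ℂ (ψ ∘ φ.symm) (φ y) v) r := by
  obtain ⟨r₁, hr₁, h₁⟩ := S1_half hh hh' hs hε
  obtain ⟨r₂, hr₂, h₂⟩ := S1_half hh' hh hs' hε
  obtain ⟨δ₁, hδ₁, k₁⟩ := S1_inU φ hy
  obtain ⟨δ₂, hδ₂, k₂⟩ := S1_inU ψ hy'
  have hD : ContinuousAt (fun y => fderiv ℂ (ψ ∘ φ.symm) (φ y)) y₀ := by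
    have h1 := ((CC.tr_smooth hφ hψ hy hy').fderiv_right (m := 0) (by simp)).continuousAt
    exact ContinuousAt.comp (f := φ) h1 (φ.continuousAt hy)
  obtain ⟨C, hC⟩ : ∃ C : ℝ, C = ‖fderiv ℂ (ψ ∘ φ.symm) (φ y₀)‖ + 1 := ⟨_, rfl⟩
  have hC0 : 0 < C := by
    rw [hC]
    positivity
  have hDC : ∀ᶠ y in 𝓝 y₀, ‖fderiv ℂ (ψ ∘ φ.symm) (φ y)‖ < C := by
    refine hD.norm.eventually_lt_const ?_
    rw [hC]
    exact lt_add_one _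
  refine ⟨min (min r₁ δ₁) (min (r₂ / C) (δ₂ / C)), by positivity, ?_⟩
  filter_upwards [h₁, h₂, k₁, k₂, hDC, φ.open_source.mem_nhds hy,
    ψ.open_source.mem_nhds hy'] with y h₁ h₂ k₁ k₂ hDC hyi hyj v hv r hr hvr
  obtain ⟨hv12, hv34⟩ := lt_min_iff.1 hvr
  obtain ⟨hv1, hv2⟩ := lt_min_iff.1 hv12
  obtain ⟨hv3, hv4⟩ := lt_min_iff.1 hv34
  obtain ⟨w, hw⟩ : ∃ w : E n, w = fderiv ℂ (ψ ∘ φ.symm) (φ y) v := ⟨_, rfl⟩
  have hwn : ‖w‖ * r ≤ C * (‖v‖ * r) := by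
    have h3 : ‖w‖ ≤ C * ‖v‖ := by
      rw [hw]
      exact (ContinuousLinearMap.le_opNorm _ _).trans
        (mul_le_mul_of_nonneg_right hDC.le (norm_nonneg v))
    have h4 := mul_le_mul_of_nonneg_right h3 hr.le
    linarith
  have hw2 : ‖w‖ * r < r₂ := by
    rw [lt_div_iff₀ hC0] at hv3
    linarith
  have hw4 : ‖w‖ * r < δ₂ := by
    rw [lt_div_iff₀ hC0] at hv4
    linarith
  have hback : fderiv ℂ (φ ∘ ψ.symm) (ψ y) w = v := by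
    rw [hw, CC.tr_comp hφ hψ hφ hyi hyj hyi, CC.tr_id hyi]
  have hw0 : w ≠ 0 := by
    intro h3
    rw [h3, map_zero] at hback
    exact hv hback.symm
  have a1 := k₁ v r hv2
  have a2 := k₂ w r hw4
  have a3 := h₁ hyi hyj v hv r hr hv1 a1 (by rw [← hw]; exact a2)
  have a4 := h₂ hyj hyi w hw0 r hr hw2 a2 (by rw [hback]; exact a1)
  rw [hback] at a4
  rw [← hw] at a3 ⊢
  exact ⟨a3, a4⟩

theorem stab_compact {φ ψ : Chart n Y} (hφ : φ ∈ Charts (E n) Y) (hψ : ψ ∈ Charts (E n) Y)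
    {h h' : E n → E n → ℝ}
    (hh : ∀ x ∈ φ.target, ∀ (c : ℂ) (v : E n), h x (c • v) = ‖c‖ * h x v)
    (hh' : ∀ x ∈ ψ.target, ∀ (c : ℂ) (v : E n), h' x (c • v) = ‖c‖ * h' x v)
    (hs : ∀ y ∈ φ.source, y ∈ ψ.source → StabAt φ h ψ h' y)
    (hs' : ∀ y ∈ φ.source, y ∈ ψ.source → StabAt ψ h' φ h y)
    {Q : Set Y} (hQ : IsCompact Q) (hQφ : Q ⊆ φ.source) (hQψ : Q ⊆ ψ.source) {ε : ℝ}
    (hε : 0 < ε) :
    ∃ r₀ > 0, ∀ y ∈ Q, ∀ v : E n, v ≠ 0 → ∀ r, 0 < r → ‖v‖ * r < r₀ →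
      disc h' (ψ y) (fderiv ℂ (ψ ∘ φ.symm) (φ y) v) r ≤ (1 + ε) * disc h (φ y) v r ∧
      disc h (φ y) v r ≤ (1 + ε) * disc h' (ψ y) (fderiv ℂ (ψ ∘ φ.symm) (φ y) v) r := by
  refine hQ.induction_on (p := fun S => ∃ r₀ > 0, ∀ y ∈ S, ∀ v : E n, v ≠ 0 → ∀ r, 0 < r →
      ‖v‖ * r < r₀ →
      disc h' (ψ y) (fderiv ℂ (ψ ∘ φ.symm) (φ y) v) r ≤ (1 + ε) * disc h (φ y) v r ∧
      disc h (φ y) v r ≤ (1 + ε) * disc h' (ψ y) (fderiv ℂ (ψ ∘ φ.symm) (φ y) v) r) ?_ ?_ ?_ ?_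
  · exact ⟨1, one_pos, fun y hy => absurd hy (Set.notMem_empty y)⟩
  · rintro S T hST ⟨r₀, hr₀, k⟩
    exact ⟨r₀, hr₀, fun y hy => k y (hST hy)⟩
  · rintro S T ⟨r₁, hr₁, h₁⟩ ⟨r₂, hr₂, h₂⟩
    refine ⟨min r₁ r₂, lt_min hr₁ hr₂, fun y hy v hv r hr hvr => ?_⟩
    obtain ⟨h3, h4⟩ := lt_min_iff.1 hvr
    rcases hy with hy | hy
    · exact h₁ y hy v hv r hr h3
    · exact h₂ y hy v hv r hr h4
  · intro y₀ hy₀
    obtain ⟨r₀, hr₀, k⟩ := stab_loc hφ hψ hh hh' (hQφ hy₀) (hQψ hy₀)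
      (hs y₀ (hQφ hy₀) (hQψ hy₀)) (hs' y₀ (hQφ hy₀) (hQψ hy₀)) hε
    exact ⟨_, mem_nhdsWithin_of_mem_nhds k, r₀, hr₀, fun y hy => hy⟩

end Pool.Agent.Nef6.UM
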