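import Pool.Agent.H.MP_6a1d6a_ag.UM.M1
import Pool.Agent.H.MP_6a1d6a_ag.UM.S1
import Pool.Agent.H.MP_6a1d6a_ag.UM.Base2

/-!
MP_6a1d6a_ag/UM, module M2: asymptotics of the lengths of the discs in a disc chart, at points which are also in a cone chart.

Let `φ = X.dch k`, `y₀ = φ.symm (x z₀)`, `j` with `y₀ ∈ (X.ch j).source` (`off_P`), `ξ z = X.ch j (φ.symm (x z))`, `w z = fderiv ℂ (X.ch j ∘ φ.symm) (x z) (v z)`; these are analytic (so continuous) at `z₀` (`loc_rep` in `UM/C2`), and near `z₀`: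
`X.N φ (x z) (v z) = pull (a j) (h j) (ξ z) (w z)`, `X.Ker A φ (x z) (v z) ↔ KerA (a j) A (ξ z) (w z)` (`Ker_iff`), `X.K A φ (x z) (v z) = knA (a j) A (h j) (ξ z) (w z)` if `X.Ker A φ (x z) (v z)` (`K_eq`).
Choose `ε' > 0` with `(1 + ε') * (1 + ε') ≤ 1 + ε`. By `disc_pull_one` (if `A = 1`; then `r ^ (A - 1) = 1`, `L ^ A = L`) or `disc_pull_ker` (if `1 < A`) with `ε'` at `(ξ z₀, w z₀)`, and by `stab_loc` (for `φ`, `X.F k` and
`X.ch j`, `pull (X.a j) (X.h j)` with `ε'`; homogeneity from `IsSemi.smul` and `pull_smul`, `X.maps`; `X.stabCD`, `X.stabDC`) at `y₀` for `y = φ.symm (x z)`, `v z ≠ 0` near `z₀`, `‖v z‖ * r < r₀` for `r < r₀ / (‖v z₀‖ + 1)`: both discs are comparable up to `1 + ε'`.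
-/

set_option autoImplicit false

open Set Filter Topology Metric MeasureTheory
open scoped ContDiff Manifold

namespace Pool.Agent.Nef6.UM

open Pool.Agent.Nef6.SN
open Pool.Agent.Nef6.SM (loc_curve A5Loc)
open Pool.Agent.Nef6.DM (disc IsSemi InU rad Good)

variable {n : ℕ} {Y : Type} [TopologicalSpace Y] [ChartedSpace (E n) Y]
  [IsManifold 𝓘(ℂ, E n) ω Y]

/-- The comparison in the cone chart. -/
private theorem M2_cone (X : Mixed n Y) (k : X.D) {x v : ℂ → E n} {z₀ : ℂ}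
    (hx : AnalyticAt ℂ x z₀) (hv : AnalyticAt ℂ v z₀) (ht : x z₀ ∈ (X.dch k).target) {j : X.J}
    (hj : (X.dch k).symm (x z₀) ∈ (X.ch j).source) {A : ℝ} (hA : 1 ≤ A)
    (hk : ∀ᶠ z in 𝓝 z₀, X.toCone.Kr A (X.dch k) (x z) (v z))
    (hL : X.toCone.L A (X.dch k) (x z₀) (v z₀) ≠ 0) {ε : ℝ} (hε : 0 < ε) :
    ∃ r₀ > 0, ∀ᶠ z in 𝓝 z₀, ∀ r, 0 < r → r < r₀ →
      0 < X.toCone.L A (X.dch k) (x z) (v z) ∧
      disc (pull (X.a j) (X.h j)) (X.ch j ((X.dch k).symm (x z)))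
        (fderiv ℂ (X.ch j ∘ (X.dch k).symm) (x z) (v z)) r ≤
        (1 + ε) * (X.toCone.L A (X.dch k) (x z) (v z) ^ A * r ^ (A - 1)) ∧
      X.toCone.L A (X.dch k) (x z) (v z) ^ A * r ^ (A - 1) ≤
        (1 + ε) * disc (pull (X.a j) (X.h j)) (X.ch j ((X.dch k).symm (x z)))
          (fderiv ℂ (X.ch j ∘ (X.dch k).symm) (x z) (v z)) r := by
  obtain ⟨hf, hg, he⟩ := loc_rep X.toCone (X.dhol k) hx hv ht hj
  have hcont : Tendsto (fun z => (X.ch j ((X.dch k).symm (x z)),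
      fderiv ℂ (X.ch j ∘ (X.dch k).symm) (x z) (v z))) (𝓝 z₀)
      (𝓝 (X.ch j ((X.dch k).symm (x z₀)),
        fderiv ℂ (X.ch j ∘ (X.dch k).symm) (x z₀) (v z₀))) :=
    (hf.continuousAt.prodMk hg.continuousAt)
  have h0 := he.self_of_nhds
  rcases hA.eq_or_lt with h1 | h1
  · subst h1
    have hN : ∀ x' v' : E n, X.toCone.L 1 (X.dch k) x' v' = X.toCone.N (X.dch k) x' v' := by
      intro x' v'
      unfold Cone.L
      rw [if_pos rfl]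
    rw [hN, h0.2.2.2] at hL
    obtain ⟨r₀, hr₀, hev⟩ := disc_pull_one (X.metric j) (X.one_le j) h0.2.2.1 hL hε
    refine ⟨r₀, hr₀, ?_⟩
    filter_upwards [hcont.eventually hev, he] with z hz1 hz2 r hr hr2
    rw [hN, hz2.2.2.2, Real.rpow_one, sub_self, Real.rpow_zero, mul_one]
    exact hz1 r hr hr2
  · have hne : ¬ A = 1 := ne_of_gt h1
    have hK : ∀ x' v' : E n, X.toCone.L A (X.dch k) x' v' = X.toCone.K A (X.dch k) x' v' := by
      intro x' v'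
      unfold Cone.L
      rw [if_neg hne]
    have hker : ∀ᶠ z in 𝓝 z₀, X.toCone.Ker A (X.dch k) (x z) (v z) := by
      filter_upwards [hk] with z hz
      exact hz.resolve_left hne
    have hk0 := hker.self_of_nhds
    rw [hK, K_eq X.toCone (X.dhol k) ht hj h1 hk0] at hL
    obtain ⟨r₀, hr₀, hev⟩ := disc_pull_ker (X.metric j) (X.one_le j) h1 h0.2.2.1
      ((Ker_iff X.toCone (X.dhol k) ht hj h1 _).1 hk0) hL hε
    refine ⟨r₀, hr₀, ?_⟩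
    filter_upwards [hcont.eventually hev, he, hker] with z hz1 hz2 hz3 r hr hr2
    rw [hK, K_eq X.toCone (X.dhol k) hz2.1 hz2.2.1 h1 hz3]
    exact hz1 ((Ker_iff X.toCone (X.dhol k) hz2.1 hz2.2.1 h1 _).1 hz3) r hr hr2

/-- The arithmetic. -/
private theorem M2_arith {ε ε' d d' M : ℝ} (h0 : 0 < ε') (h1 : ε' ≤ 1) (h2 : 3 * ε' ≤ ε)
    (hM : 0 ≤ M) (h3 : d ≤ (1 + ε') * d') (h4 : d' ≤ (1 + ε') * d) (h5 : d' ≤ (1 + ε') * M)
    (h6 : M ≤ (1 + ε') * d') : d ≤ (1 + ε) * M ∧ M ≤ (1 + ε) * d := by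
  have h7 : (1 + ε') * (1 + ε') ≤ 1 + ε := by nlinarith
  have h8 : (0 : ℝ) < 1 + ε' := by linarith
  have h9 : d ≤ (1 + ε') * ((1 + ε') * M) := h3.trans (mul_le_mul_of_nonneg_left h5 h8.le)
  have h10 : M ≤ (1 + ε') * ((1 + ε') * d) := h6.trans (mul_le_mul_of_nonneg_left h4 h8.le)
  have h11 : 0 ≤ d := by
    have h12 : 0 ≤ (1 + ε') * (1 + ε') * d := by
      rw [mul_assoc]
      exact hM.trans h10
    exact nonneg_of_mul_nonneg_right h12 (mul_pos h8 h8)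
  constructor
  · rw [← mul_assoc] at h9
    exact h9.trans (mul_le_mul_of_nonneg_right h7 hM)
  · rw [← mul_assoc] at h10
    exact h10.trans (mul_le_mul_of_nonneg_right h7 h11)

theorem disc_asym (X : Mixed n Y) (k : X.D) {x v : ℂ → E n} {z₀ : ℂ} (hx : AnalyticAt ℂ x z₀)
    (hv : AnalyticAt ℂ v z₀) (hv0 : v z₀ ≠ 0) (ht : x z₀ ∈ (X.dch k).target)
    (hP : (X.dch k).symm (x z₀) ∉ X.P) {A : ℝ} (hA : 1 ≤ A)
    (hk : ∀ᶠ z in 𝓝 z₀, X.toCone.Kr A (X.dch k) (x z) (v z))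
    (hL : X.toCone.L A (X.dch k) (x z₀) (v z₀) ≠ 0) {ε : ℝ} (hε : 0 < ε) :
    ∃ r₀ > 0, ∀ᶠ z in 𝓝 z₀, ∀ r, 0 < r → r < r₀ →
      0 < X.toCone.L A (X.dch k) (x z) (v z) ∧
      disc (X.F k) (x z) (v z) r ≤
        (1 + ε) * (X.toCone.L A (X.dch k) (x z) (v z) ^ A * r ^ (A - 1)) ∧
      X.toCone.L A (X.dch k) (x z) (v z) ^ A * r ^ (A - 1) ≤
        (1 + ε) * disc (X.F k) (x z) (v z) r := by
  obtain ⟨j, hj⟩ := off_P X.toCone hP
  obtain ⟨ε', hε'⟩ : ∃ e : ℝ, e = min 1 (ε / 3) := ⟨_, rfl⟩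
  have he0 : 0 < ε' := by
    rw [hε']
    exact lt_min one_pos (by positivity)
  have he1 : ε' ≤ 1 := by
    rw [hε']
    exact min_le_left _ _
  have he2 : 3 * ε' ≤ ε := by
    have h1 : ε' ≤ ε / 3 := by
      rw [hε']
      exact min_le_right _ _
    linarith
  obtain ⟨r₁, hr₁, hev1⟩ := M2_cone X k hx hv ht hj hA hk hL he0
  have hy : (X.dch k).symm (x z₀) ∈ (X.dch k).source := (X.dch k).map_target ht
  obtain ⟨r₂, hr₂, hev2⟩ := stab_loc (X.dhol k) (X.hol j) (h := X.F k)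
    (h' := pull (X.a j) (X.h j)) (X.semi k).smul
    (fun x' hx' c v' => pull_smul (X.metric j) (X.maps j x' hx') c v') hy hj
    (X.stabDC j k _ hj hy) (X.stabCD j k _ hj hy) he0
  have hc1 : Tendsto (fun z => (X.dch k).symm (x z)) (𝓝 z₀) (𝓝 ((X.dch k).symm (x z₀))) :=
    ContinuousAt.comp ((X.dch k).continuousAt_symm ht) hx.continuousAt
  have hc2 : ∀ᶠ z in 𝓝 z₀, x z ∈ (X.dch k).target :=
    hx.continuousAt.eventually ((X.dch k).open_target.mem_nhds ht)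
  have hc3 : ∀ᶠ z in 𝓝 z₀, v z ≠ 0 := hv.continuousAt.eventually_ne hv0
  have hc4 : ∀ᶠ z in 𝓝 z₀, ‖v z‖ < ‖v z₀‖ + 1 :=
    hv.continuousAt.norm.eventually_lt_const (lt_add_one _)
  have hpos : 0 < ‖v z₀‖ + 1 := by positivity
  refine ⟨min r₁ (r₂ / (‖v z₀‖ + 1)), lt_min hr₁ (div_pos hr₂ hpos), ?_⟩
  filter_upwards [hev1, hc1.eventually hev2, hc2, hc3, hc4] with z hz1 hz2 hz3 hz4 hz5 r hr hr2
  obtain ⟨hL1, hL2, hL3⟩ := hz1 r hr (lt_of_lt_of_le hr2 (min_le_left _ _))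
  have h6 : ‖v z‖ * r < r₂ := by
    have h7 : r < r₂ / (‖v z₀‖ + 1) := lt_of_lt_of_le hr2 (min_le_right _ _)
    rw [lt_div_iff₀ hpos] at h7
    have h8 : ‖v z‖ * r ≤ (‖v z₀‖ + 1) * r := mul_le_mul_of_nonneg_right hz5.le hr.le
    linarith
  have h9 := hz2 (v z) hz4 r hr h6
  rw [(X.dch k).right_inv hz3] at h9
  have hM : 0 ≤ X.toCone.L A (X.dch k) (x z) (v z) ^ A * r ^ (A - 1) := by positivity
  exact ⟨hL1, M2_arith he0 he1 he2 hM h9.2 h9.1 hL2 hL3⟩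

end Pool.Agent.Nef6.UM
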