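import Pool.Agent.H.MP_6a1d6a_ag.UM.Base2
import Pool.Agent.H.MP_6a1d6a_ag.DM.C1
import Pool.Agent.H.MP_6a1d6a_ag.DM.B3

/-!
MP_6a1d6a_ag/UM, module P1: the function of a point of a disc chart. See the first part of the proof of `nef_disc` in `DM/Main.lean`.
-/

set_option autoImplicit false

open Set Filter Topology Metric MeasureTheory
open scoped ContDiff Manifold

namespace Pool.Agent.Nef6.UM

open Pool.Agent.Nef6.SN
open Pool.Agent.Nef6.SM (loc_curve A5Loc)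
open Pool.Agent.Nef6.DM (disc IsSemi InU rad Good exists_R exists_T loc_form)

variable {n : ℕ} {Y : Type} [TopologicalSpace Y] [ChartedSpace (E n) Y]
  [IsManifold 𝓘(ℂ, E n) ω Y] {X : Mixed n Y}
  {C : Type} [TopologicalSpace C] [ChartedSpace ℂ C] [IsManifold 𝓘(ℂ) ω C]

theorem DD.exists {ν : C → Y} (hν : ContMDiff 𝓘(ℂ) 𝓘(ℂ, E n) ω ν) {σ : Chart n Y → C → E n}
    {o : C → ℤ} (hσ : IsMeroField ν σ o) {c : C} {k : X.D} (hk : ν c ∈ (X.dch k).source) :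
    ∃ R g Q, DD X ν σ o c k R g Q := by
  obtain ⟨ρ, g, hρ, hsub, hloc⟩ := loc_curve hν hσ c (X.dhol k) hk
  have hcb : closedBall (chartAt ℂ c c) (ρ / 2) ⊆ ball (chartAt ℂ c c) ρ :=
    closedBall_subset_ball (by linarith)
  obtain ⟨Q, hQ, hi⟩ := exists_R (x := fun z => X.dch k (ν ((chartAt ℂ c).symm z))) (g := g)
    (X.semi k).op (isCompact_closedBall (chartAt ℂ c c) (ρ / 2))
    (fun z hz => (hloc z (hcb hz)).2.1.continuousAt.continuousWithinAt)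
    (fun z hz => (hloc z (hcb hz)).2.2.1.continuousAt.continuousWithinAt)
    (fun z hz => (X.dch k).map_source (hloc z (hcb hz)).1)
  refine ⟨ρ / 2, g, Q, by linarith, hQ, ⟨by linarith, ?_, fun z hz => hloc z ?_⟩, hi⟩
  · have : 2 * (ρ / 2) = ρ := by ring
    rw [this]
    exact hsub
  · have : 2 * (ρ / 2) = ρ := by ring
    rwa [this] at hz

omit [IsManifold 𝓘(ℂ, E n) ω Y] [IsManifold 𝓘(ℂ) ω C] in
theorem DD.sub (X : Mixed n Y) {ν : C → Y} {σ : Chart n Y → C → E n} {o : C → ℤ} {c : C} {k : X.D}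
    {R : ℝ} {g : ℂ → E n} {Q : ℝ} (H : DD X ν σ o c k R g Q) :
    closedBall (chartAt ℂ c c) R ⊆ ball (chartAt ℂ c c) (2 * R) :=
  closedBall_subset_ball (by linarith [H.hR])

omit [IsManifold 𝓘(ℂ, E n) ω Y] [IsManifold 𝓘(ℂ) ω C] in
/-- the radii are defined for small `T` -/
theorem DD.good (X : Mixed n Y) {ν : C → Y} {σ : Chart n Y → C → E n} {o : C → ℤ} {c : C} {k : X.D}
    {R : ℝ} {g : ℂ → E n} {Q : ℝ} (H : DD X ν σ o c k R g Q) {r₁ : ℝ} (hr₁ : 0 < r₁) :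
    ∃ T₀ > 0, ∀ T, 0 < T → T < T₀ → ∀ z ∈ closedBall (chartAt ℂ c c) R,
      Good (X.F k) (X.dch k).target T (X.dch k (ν ((chartAt ℂ c).symm z))) (g z) Q ∧
      ‖g z‖ * rad (X.F k) T (X.dch k (ν ((chartAt ℂ c).symm z))) (g z) Q < r₁ :=
  exists_T (x := fun z => X.dch k (ν ((chartAt ℂ c).symm z))) (X.semi k)
    (isCompact_closedBall (chartAt ℂ c c) R)
    (fun z hz => (H.rep.loc z (DD.sub X H hz)).2.1.continuousAt.continuousWithinAt)
    (fun z hz => (H.rep.loc z (DD.sub X H hz)).2.2.1.continuousAt.continuousWithinAt)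
    (fun z hz => (H.rep.loc z (DD.sub X H hz)).2.2.2.1) H.hQ H.inU hr₁

omit [IsManifold 𝓘(ℂ, E n) ω Y] [IsManifold 𝓘(ℂ) ω C] in
theorem DD.uD_loc {ν : C → Y} {σ : Chart n Y → C → E n} {o : C → ℤ} {c : C} {k : X.D} {R : ℝ}
    {g : ℂ → E n} {Q : ℝ} (H : DD X ν σ o c k R g Q) :
    ∃ T₀ > 0, ∀ T, 0 < T → T < T₀ →
      A5Loc (fun z => uD X ν o c k g Q T ((chartAt ℂ c).symm z)) (chartAt ℂ c c) R (o c) := by
  obtain ⟨T₀, hT₀, h1⟩ := DD.good X H one_pos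
  refine ⟨T₀, hT₀, fun T hT hT' => ?_⟩
  refine ⟨fun z => - Real.log (rad (X.F k) T (X.dch k (ν ((chartAt ℂ c).symm z))) (g z) Q), ?_, ?_⟩
  · exact loc_form (x := fun z => X.dch k (ν ((chartAt ℂ c).symm z))) (X.semi k) H.hR
      (fun z hz => (H.rep.loc z (DD.sub X H hz)).2.1)
      (fun z hz => (H.rep.loc z (DD.sub X H hz)).2.2.1) fun z hz => (h1 T hT hT' z hz).1
  · refine Filter.Eventually.of_forall fun z hz => ?_
    simp only [uD]
    rw [(chartAt ℂ c).right_inv (H.rep.sub (ball_subset_ball (by linarith [H.hR]) hz))]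

end Pool.Agent.Nef6.UM
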