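import Pool.Agent.H.MP_6a1d6a_ag.UM.P1
import Pool.Agent.H.MP_6a1d6a_ag.UM.S1
import Pool.Agent.H.MP_6a1d6a_ag.DM.B1
import Pool.Agent.H.MP_6a1d6a_ag.DM.B3

/-!
MP_6a1d6a_ag/UM, module P2: the functions of two points of disc charts are close. This is the second part of the proof of `nef_disc` in
`DM/Main.lean` for one pair of points.
-/

set_option autoImplicit false

open Set Filter Topology Metric MeasureTheory
open scoped ContDiff Manifold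

namespace Pool.Agent.Nef6.UM

open Pool.Agent.Nef6.SN
open Pool.Agent.Nef6.SM (loc_curve A5Loc)
open Pool.Agent.Nef6.DM (disc IsSemi InU rad Good rad_smul rad_eq log_close)

variable {n : ℕ} {Y : Type} [TopologicalSpace Y] [ChartedSpace (E n) Y]
  [IsManifold 𝓘(ℂ, E n) ω Y] {X : Mixed n Y}
  {C : Type} [TopologicalSpace C] [ChartedSpace ℂ C] [IsManifold 𝓘(ℂ) ω C]

omit [IsManifold 𝓘(ℂ, E n) ω Y] [IsManifold 𝓘(ℂ) ω C] in
private theorem P2_compact {ν : C → Y} {σ : Chart n Y → C → E n} {o : C → ℤ} {c : C} {k : X.D}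
    {R : ℝ} {g : ℂ → E n} {Q : ℝ} (H : DD X ν σ o c k R g Q) :
    IsCompact ((chartAt ℂ c).symm '' closedBall (chartAt ℂ c c) R) ∧
      ∀ y ∈ (chartAt ℂ c).symm '' closedBall (chartAt ℂ c c) R, ν y ∈ (X.dch k).source := by
  refine ⟨(isCompact_closedBall _ _).image_of_continuousOn
    ((chartAt ℂ c).continuousOn_symm.mono ((DD.sub X H).trans H.rep.sub)), ?_⟩
  rintro _ ⟨z, hz, rfl⟩
  exact (H.rep.loc z (DD.sub X H hz)).1

omit [IsManifold 𝓘(ℂ, E n) ω Y] [IsManifold 𝓘(ℂ) ω C] in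
/-- the values in terms of `σ` -/
private theorem P2_key {ν : C → Y} {σ : Chart n Y → C → E n} {o : C → ℤ} {c : C} {k : X.D}
    {R : ℝ} {g : ℂ → E n} {Q : ℝ} (H : DD X ν σ o c k R g Q) {T r₁ : ℝ}
    (hG : ∀ z ∈ closedBall (chartAt ℂ c c) R,
      Good (X.F k) (X.dch k).target T (X.dch k (ν ((chartAt ℂ c).symm z))) (g z) Q ∧
      ‖g z‖ * rad (X.F k) T (X.dch k (ν ((chartAt ℂ c).symm z))) (g z) Q < r₁)
    {y : C} (hy : y ∈ (chartAt ℂ c).source) (hz : chartAt ℂ c y ∈ ball (chartAt ℂ c c) R)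
    (hne : y ≠ c) :
    y ∈ (chartAt ℂ c).symm '' closedBall (chartAt ℂ c c) R ∧ σ (X.dch k) y ≠ 0 ∧
      ∃ R', Good (X.F k) (X.dch k).target T (X.dch k (ν y)) (σ (X.dch k) y) R' ∧
        ‖σ (X.dch k) y‖ * rad (X.F k) T (X.dch k (ν y)) (σ (X.dch k) y) R' < r₁ ∧
        uD X ν o c k g Q T y =
          - Real.log (rad (X.F k) T (X.dch k (ν y)) (σ (X.dch k) y) R') := by
  have hz' : chartAt ℂ c y ∈ closedBall (chartAt ℂ c c) R := ball_subset_closedBall hz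
  have hsy : (chartAt ℂ c).symm (chartAt ℂ c y) = y := (chartAt ℂ c).left_inv hy
  have hzne : chartAt ℂ c y ≠ chartAt ℂ c c := fun he =>
    hne ((chartAt ℂ c).injOn hy (mem_chart_source ℂ c) he)
  have hσe := ((H.rep.loc _ (DD.sub X H hz')).2.2.2.2 hzne).1
  rw [hsy] at hσe
  have hg0 := (H.rep.loc _ (DD.sub X H hz')).2.2.2.1
  have hk : (chartAt ℂ c y - chartAt ℂ c c) ^ (o c) ≠ 0 := zpow_ne_zero _ (sub_ne_zero.2 hzne)
  obtain ⟨G, Gr⟩ := hG _ hz'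
  rw [hsy] at G Gr
  have G' := G.smul (X.semi k) hk
  have hr' := rad_smul (X.semi k) G hk
  have hrp := (rad_eq (X.semi k) G).1
  rw [← hσe] at G' hr'
  have hkn : (0 : ℝ) < ‖(chartAt ℂ c y - chartAt ℂ c c) ^ (o c)‖ := norm_pos_iff.2 hk
  refine ⟨⟨_, hz', hsy⟩, ?_, _, G', ?_, ?_⟩
  · rw [hσe]
    exact smul_ne_zero hk hg0
  · rw [hr']
    have e1 : ‖σ (X.dch k) y‖ = ‖(chartAt ℂ c y - chartAt ℂ c c) ^ (o c)‖ *
        ‖g (chartAt ℂ c y)‖ := by rw [hσe, norm_smul]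
    rw [e1]
    have e2 : ‖(chartAt ℂ c y - chartAt ℂ c c) ^ (o c)‖ * ‖g (chartAt ℂ c y)‖ *
        (rad (X.F k) T (X.dch k (ν y)) (g (chartAt ℂ c y)) Q /
          ‖(chartAt ℂ c y - chartAt ℂ c c) ^ (o c)‖) =
        ‖g (chartAt ℂ c y)‖ *
          rad (X.F k) T (X.dch k (ν y)) (g (chartAt ℂ c y)) Q := by
      field_simp
    rw [e2]
    exact Gr
  · rw [uD, hr', Real.log_div hrp.ne' hkn.ne', norm_zpow, Real.log_zpow]
    ring

theorem DD.close [T2Space C] {ν : C → Y} (hν : ContMDiff 𝓘(ℂ) 𝓘(ℂ, E n) ω ν)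
    {σ : Chart n Y → C → E n} {o : C → ℤ} (hσ : IsMeroField ν σ o) {c c' : C} {k k' : X.D}
    {R R' : ℝ} {g g' : ℂ → E n} {Q Q' : ℝ} (H : DD X ν σ o c k R g Q)
    (H' : DD X ν σ o c' k' R' g' Q') {ε : ℝ} (hε : 0 < ε) :
    ∃ T₀ > 0, ∀ T, 0 < T → T < T₀ → ∀ y, y ∈ (chartAt ℂ c).source →
      chartAt ℂ c y ∈ ball (chartAt ℂ c c) R → y ∈ (chartAt ℂ c').source →
      chartAt ℂ c' y ∈ ball (chartAt ℂ c' c') R' → y ≠ c → y ≠ c' →
      |uD X ν o c k g Q T y - uD X ν o c' k' g' Q' T y| ≤ ε := by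
  obtain ⟨hK, hs⟩ := P2_compact H
  obtain ⟨hK', hs'⟩ := P2_compact H'
  have hQ := (hK.inter hK').image hν.continuous
  obtain ⟨r₀, hr₀, hst⟩ := stab_compact (X.dhol k) (X.dhol k') (h := X.F k) (h' := X.F k')
    (X.semi k).smul (X.semi k').smul (fun y hy hy' => X.stab k k' y hy hy')
    (fun y hy hy' => X.stab k' k y hy' hy) hQ
    (by
      rintro _ ⟨y, hy, rfl⟩
      exact hs y hy.1)
    (by
      rintro _ ⟨y, hy, rfl⟩
      exact hs' y hy.2) hε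
  obtain ⟨r₀', hr₀', hst'⟩ := stab_compact (X.dhol k') (X.dhol k) (h := X.F k') (h' := X.F k)
    (X.semi k').smul (X.semi k).smul (fun y hy hy' => X.stab k' k y hy hy')
    (fun y hy hy' => X.stab k k' y hy' hy) hQ
    (by
      rintro _ ⟨y, hy, rfl⟩
      exact hs' y hy.2)
    (by
      rintro _ ⟨y, hy, rfl⟩
      exact hs y hy.1) hε
  obtain ⟨T₁, hT₁, hG⟩ := DD.good X H (lt_min hr₀ hr₀')
  obtain ⟨T₂, hT₂, hG'⟩ := DD.good X H' (lt_min hr₀ hr₀')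
  refine ⟨min T₁ T₂, lt_min hT₁ hT₂, fun T hT hTlt y hy hz hy' hz' hne hne' => ?_⟩
  obtain ⟨hyD, hσ0, R₁, G₁, hG₁, e₁⟩ :=
    P2_key H (hG T hT (hTlt.trans_le (min_le_left _ _))) hy hz hne
  obtain ⟨hyD', hσ0', R₂, G₂, hG₂, e₂⟩ :=
    P2_key H' (hG' T hT (hTlt.trans_le (min_le_right _ _))) hy' hz' hne'
  have hpos₁ := (rad_eq (X.semi k) G₁).1
  have hpos₂ := (rad_eq (X.semi k') G₂).1
  have hd1 := (hst (ν y) ⟨y, ⟨hyD, hyD'⟩, rfl⟩ _ hσ0 _ hpos₁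
    (hG₁.trans_le (min_le_left _ _))).2
  have hd2 := (hst' (ν y) ⟨y, ⟨hyD, hyD'⟩, rfl⟩ _ hσ0' _ hpos₂
    (hG₂.trans_le (min_le_right _ _))).2
  rw [← hσ.1 _ (X.dhol k) _ (X.dhol k') y (hs y hyD) (hs' y hyD')] at hd1
  rw [← hσ.1 _ (X.dhol k') _ (X.dhol k) y (hs' y hyD') (hs y hyD)] at hd2
  have h3 := log_close (X.semi k) (X.semi k') hε G₁ G₂ hd1 hd2
  rw [e₁, e₂, ← neg_add_eq_sub, neg_neg, ← sub_eq_neg_add, abs_sub_comm] at *
  exact h3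

end Pool.Agent.Nef6.UM
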