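import Pool.Agent.H.MP_6a1d6a_ag.UM.P4
import Pool.Agent.H.MP_6a1d6a_ag.DM.B3
import Pool.Agent.H.MP_6a1d6a_ag.DM.A2

/-!
MP_6a1d6a_ag/UM, module P3: the function of a point which is not in a disc chart, and that of a point of a disc chart, are close.

If the second alternative of `H.alt` holds there are no `y` (`H'.rep.loc`: `ν y ∈ (X.dch k').source`). Otherwise let `φ`, `g` be as in the first one; by `H.ex` the hypothesis `hgood` of `cd_compact` holds with the radius `2 R`. `D = χ.symm '' closedBall (χ c) R` is compact, so closed; `S = closedBall (χ' c') R' ∩ χ'.symm ⁻¹' D` is compact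
(`χ'.symm` is continuous on `χ'.target ⊇ ball (2 R')`). For `z ∈ S`: `χ'.symm z ≠ c` since `ν (χ'.symm z) ∈ (X.dch k').source`, `ν c ∉`. `cd_compact` (radii `2 R`, `2 R'`) gives `r₀`. `‖g' z‖ ≥ m > 0` on `closedBall (χ' c') R'` (compact, continuous, `≠ 0`); `T₀` from `exists_T` (`DM/B3`) with `r₁ = m * r₀`, so `rad < r₀` and `Good` on the ball.
Let `y` be in the overlap, `z = χ' y`, `r = rad (X.F k') T (X.dch k' (ν y)) (g' z) Q'`: `r * disc .. r = T` (`rad_eq`), `close_real` (with `L = X.toCone.L A (X.dch k') (X.dch k' (ν y)) (g' z)`). Finally `pot X.toCone A ν σ y = o c' * log ‖z - χ' c'‖ + log L` by `nu_loc` (`A = 1`) or `ku_loc` (`A > 1`; `Kr` gives `Ker`) with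
`σ (X.dch k') y = (z - χ' c') ^ (o c') • g' z` (`H'.rep.loc`), `ν y ∉ X.P` (`H.ex`), `Real.log_mul`, `Real.log_zpow`.
-/

set_option autoImplicit false

open Set Filter Topology Metric MeasureTheory
open scoped ContDiff Manifold

namespace Pool.Agent.Nef6.UM

open Pool.Agent.Nef6.SN
open Pool.Agent.Nef6.SM (loc_curve A5Loc)
open Pool.Agent.Nef6.DM (disc IsSemi InU rad Good)

variable {n : ℕ} {Y : Type} [TopologicalSpace Y] [ChartedSpace (E n) Y]
  [IsManifold 𝓘(ℂ, E n) ω Y] {X : Mixed n Y}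
  {C : Type} [TopologicalSpace C] [ChartedSpace ℂ C] [IsManifold 𝓘(ℂ) ω C]

/-- the potential in a disc chart -/
private theorem P3_pot {ν : C → Y} {σ : Chart n Y → C → E n} {o : C → ℤ}
    (hσ : IsMeroField ν σ o) {A : ℝ} (hA : 1 ≤ A) {φ : Chart n Y} (hφ : φ ∈ Charts (E n) Y) {y : C}
    (hy : ν y ∈ φ.source) (hP : ν y ∉ X.P) {t : ℂ} (ht : t ≠ 0) {k : ℤ} {v : E n}
    (h : σ φ y = t ^ k • v) (hL : 0 < X.toCone.L A φ (φ (ν y)) v)
    (hK : X.toCone.Kr A φ (φ (ν y)) v) :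
    pot X.toCone A ν σ y = k * Real.log ‖t‖ + Real.log (X.toCone.L A φ (φ (ν y)) v) := by
  have ht' : ‖t‖ ^ k ≠ 0 := zpow_ne_zero _ (norm_ne_zero_iff.2 ht)
  by_cases hA1 : A = 1
  · have e : X.toCone.L A φ (φ (ν y)) v = X.toCone.N φ (φ (ν y)) v := by
      unfold Cone.L
      rw [if_pos hA1]
    rw [e] at hL ⊢
    unfold pot
    rw [if_pos hA1, nu_loc X.toCone hσ hφ hy hP h, Real.log_mul ht' hL.ne', Real.log_zpow]
  · have e : X.toCone.L A φ (φ (ν y)) v = X.toCone.K A φ (φ (ν y)) v := by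
      unfold Cone.L
      rw [if_neg hA1]
    have hA2 : 1 < A := lt_of_le_of_ne hA (Ne.symm hA1)
    have hK' : X.toCone.Ker A φ (φ (ν y)) v := by
      rcases hK with h' | h'
      · exact absurd h' hA1
      · exact h'
    rw [e] at hL ⊢
    unfold pot
    rw [if_neg hA1, ku_loc X.toCone hσ hA2 hφ hy hP ht h hK', Real.log_mul ht' hL.ne',
      Real.log_zpow]

theorem CD.close [T2Space C] {ν : C → Y} (hν : ContMDiff 𝓘(ℂ) 𝓘(ℂ, E n) ω ν)
    {σ : Chart n Y → C → E n} {o : C → ℤ} (hσ : IsMeroField ν σ o) {c c' : C} {k' : X.D}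
    {A R R' : ℝ} {g' : ℂ → E n} {Q' : ℝ} (H : CD X ν σ o c A R)
    (hc : ∀ k, ν c ∉ (X.dch k).source) (H' : DD X ν σ o c' k' R' g' Q') {ε : ℝ} (hε : 0 < ε) :
    ∃ T₀ > 0, ∀ T, 0 < T → T < T₀ → ∀ y, y ∈ (chartAt ℂ c).source →
      chartAt ℂ c y ∈ ball (chartAt ℂ c c) R → y ∈ (chartAt ℂ c').source →
      chartAt ℂ c' y ∈ ball (chartAt ℂ c' c') R' → y ≠ c → y ≠ c' →
      |(pot X.toCone A ν σ y + - Real.log T / A) - uD X ν o c' k' g' Q' T y| ≤ ε := by
  have hRR : R < 2 * R := by linarith [H.hR]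
  have hRR' : R' < 2 * R' := by linarith [H'.hR]
  rcases H.alt with ⟨φ, hφ, g, hrep, hgood0⟩ | halt
  swap
  · refine ⟨1, one_pos, fun T hT hTT y hy1 hy2 hy3 hy4 hy5 hy6 => ?_⟩
    exfalso
    have h1 := halt (chartAt ℂ c y) (ball_subset_ball hRR.le hy2) k'
    rw [(chartAt ℂ c).left_inv hy1] at h1
    have h2 := (H'.rep.loc (chartAt ℂ c' y) (ball_subset_ball hRR'.le hy4)).1
    rw [(chartAt ℂ c').left_inv hy3] at h2
    exact h1 h2
  have hgood : ∀ z ∈ ball (chartAt ℂ c c) (2 * R), z ≠ chartAt ℂ c c →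
      ν ((chartAt ℂ c).symm z) ∉ X.P ∧
      X.toCone.Kr A φ (φ (ν ((chartAt ℂ c).symm z))) (g z) ∧
      X.toCone.L A φ (φ (ν ((chartAt ℂ c).symm z))) (g z) ≠ 0 :=
    fun z hz hne => ⟨(H.ex z hz hne).1, hgood0 z hz hne⟩
  have hcb : closedBall (chartAt ℂ c c) R ⊆ ball (chartAt ℂ c c) (2 * R) :=
    closedBall_subset_ball hRR
  have hcb' : closedBall (chartAt ℂ c' c') R' ⊆ ball (chartAt ℂ c' c') (2 * R') :=
    closedBall_subset_ball hRR'
  have hDc : IsCompact ((chartAt ℂ c).symm '' closedBall (chartAt ℂ c c) R) :=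
    (isCompact_closedBall _ _).image_of_continuousOn
      ((chartAt ℂ c).continuousOn_symm.mono (hcb.trans H.sub))
  have hcont' : ContinuousOn (chartAt ℂ c').symm (closedBall (chartAt ℂ c' c') R') :=
    (chartAt ℂ c').continuousOn_symm.mono (hcb'.trans H'.rep.sub)
  obtain ⟨S, hS⟩ : ∃ S : Set ℂ, S = closedBall (chartAt ℂ c' c') R' ∩
      (chartAt ℂ c').symm ⁻¹' ((chartAt ℂ c).symm '' closedBall (chartAt ℂ c c) R) := ⟨_, rfl⟩
  have hSc : IsCompact S := by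
    rw [hS]
    exact (isCompact_closedBall _ _).of_isClosed_subset
      (hcont'.preimage_isClosed_of_isClosed isClosed_closedBall hDc.isClosed) inter_subset_left
  have hS1 : ∀ z ∈ S, z ∈ ball (chartAt ℂ c' c') (2 * R') ∧
      (chartAt ℂ c').symm z ∈ (chartAt ℂ c).source ∧
      chartAt ℂ c ((chartAt ℂ c').symm z) ∈ ball (chartAt ℂ c c) (2 * R) ∧
      (chartAt ℂ c').symm z ≠ c := by
    intro z hz
    rw [hS] at hz
    obtain ⟨hz1, w, hw, hzw⟩ := hz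
    have hwt : w ∈ (chartAt ℂ c).target := H.sub (hcb hw)
    refine ⟨hcb' hz1, ?_, ?_, fun he => ?_⟩
    · rw [← hzw]
      exact (chartAt ℂ c).map_target hwt
    · rw [← hzw, (chartAt ℂ c).right_inv hwt]
      exact hcb hw
    · have h1 := (H'.rep.loc z (hcb' hz1)).1
      rw [he] at h1
      exact hc k' h1
  obtain ⟨r₀, hr₀, hcd⟩ := cd_compact hν hσ hφ hrep H'.rep H.hA hgood hSc hS1 hε
  -- a lower bound of the norm of `g'`
  have hK : IsCompact (closedBall (chartAt ℂ c' c') R') := isCompact_closedBall _ _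
  have hgc : ContinuousOn g' (closedBall (chartAt ℂ c' c') R') := fun z hz =>
    (H'.rep.loc z (hcb' hz)).2.2.1.continuousAt.continuousWithinAt
  have hxc : ContinuousOn (fun z => X.dch k' (ν ((chartAt ℂ c').symm z)))
      (closedBall (chartAt ℂ c' c') R') := fun z hz =>
    (H'.rep.loc z (hcb' hz)).2.1.continuousAt.continuousWithinAt
  have hg0 : ∀ z ∈ closedBall (chartAt ℂ c' c') R', g' z ≠ 0 := fun z hz =>
    (H'.rep.loc z (hcb' hz)).2.2.2.1
  obtain ⟨m, hm, hmle⟩ : ∃ m : ℝ, 0 < m ∧ ∀ z ∈ closedBall (chartAt ℂ c' c') R', m ≤ ‖g' z‖ := by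
    obtain ⟨z₁, hz₁, hmin⟩ := hK.exists_isMinOn ⟨_, mem_closedBall_self H'.hR.le⟩ hgc.norm
    exact ⟨‖g' z₁‖, norm_pos_iff.2 (hg0 z₁ hz₁), fun z hz => hmin hz⟩
  obtain ⟨T₀, hT₀, hT⟩ := DM.exists_T (X.semi k') hK hxc hgc hg0 H'.hQ H'.inU (mul_pos hm hr₀)
  refine ⟨T₀, hT₀, fun T hT1 hT2 y hy1 hy2 hy3 hy4 hy5 hy6 => ?_⟩
  have hzK : chartAt ℂ c' y ∈ closedBall (chartAt ℂ c' c') R' := ball_subset_closedBall hy4
  have hsy : (chartAt ℂ c').symm (chartAt ℂ c' y) = y := (chartAt ℂ c').left_inv hy3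
  have hzS : chartAt ℂ c' y ∈ S := by
    rw [hS]
    refine ⟨hzK, chartAt ℂ c y, ball_subset_closedBall hy2, ?_⟩
    rw [hsy]
    exact (chartAt ℂ c).left_inv hy1
  obtain ⟨hG, hrad⟩ := hT T hT1 hT2 _ hzK
  simp only [hsy] at hG hrad
  obtain ⟨hr, -, hrT⟩ := DM.rad_eq (X.semi k') hG
  have hrr₀ : rad (X.F k') T (X.dch k' (ν y)) (g' (chartAt ℂ c' y)) Q' < r₀ := by
    have h1 : m * rad (X.F k') T (X.dch k' (ν y)) (g' (chartAt ℂ c' y)) Q' < m * r₀ :=
      (mul_le_mul_of_nonneg_right (hmle _ hzK) hr.le).trans_lt hrad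
    exact lt_of_mul_lt_mul_left h1 hm.le
  obtain ⟨hL, hKr, hd1, hd2⟩ := hcd _ hzS _ hr hrr₀
  simp only [hsy] at hL hKr hd1 hd2
  have hclose := close_real H.hA hε hr hT1 hL hrT hd1 hd2
  -- the potential
  have hz' : chartAt ℂ c' y ≠ chartAt ℂ c' c' := fun he =>
    hy6 ((chartAt ℂ c').injOn hy3 (mem_chart_source ℂ c') he)
  have hz : chartAt ℂ c y ≠ chartAt ℂ c c := fun he =>
    hy5 ((chartAt ℂ c).injOn hy1 (mem_chart_source ℂ c) he)
  have hP : ν y ∉ X.P := by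
    have h1 := (H.ex (chartAt ℂ c y) (ball_subset_ball hRR.le hy2) hz).1
    rwa [(chartAt ℂ c).left_inv hy1] at h1
  have hloc := H'.rep.loc (chartAt ℂ c' y) (hcb' hzK)
  rw [hsy] at hloc
  have hpot := P3_pot (X := X) hσ H.hA (X.dhol k') hloc.1 hP (sub_ne_zero.2 hz')
    (hloc.2.2.2.2 hz').1 hL hKr
  rw [hpot]
  unfold uD
  refine le_of_eq_of_le ?_ hclose
  congr 1
  ring

end Pool.Agent.Nef6.UM
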