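import Pool.Agent.H.MP_6a1d6a_ag.UM.C4
import Pool.Agent.H.MP_6a1d6a_ag.UM.P1
import Pool.Agent.H.MP_6a1d6a_ag.UM.P2
import Pool.Agent.H.MP_6a1d6a_ag.UM.P3
import Pool.Agent.H.MP_6a1d6a_ag.UM.CDx
import Pool.Agent.H.MP_6a1d6a_ag.SN.C4

/-!
MP_6a1d6a_ag/UM, module Main: the cotangent bundle of a complex manifold with a metric of nonpositive curvature given by cone
charts and disc charts is nef.
-/

set_option autoImplicit false

open Set Filter Topology Metric MeasureTheory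
open scoped ContDiff Manifold

namespace Pool.Agent.Nef6.UM

open Pool.Agent.Nef6.SN
open Pool.Agent.Nef6.SM (loc_curve A5Loc)

variable {n : ℕ} {Y : Type} [TopologicalSpace Y] [ChartedSpace (E n) Y]
  [IsManifold 𝓘(ℂ, E n) ω Y]

omit [IsManifold 𝓘(ℂ, E n) ω Y] [TopologicalSpace Y] [ChartedSpace (E n) Y] in
private theorem M_pos_le {ι : Type} (t : Finset ι) (f : ι → ℝ) (hf : ∀ i ∈ t, 0 < f i) :
    ∃ r > 0, ∀ i ∈ t, r ≤ f i := by
  classical
  induction t using Finset.induction_on with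
  | empty => exact ⟨1, one_pos, fun i hi => absurd hi (Finset.notMem_empty i)⟩
  | insert a s ha ih =>
    obtain ⟨r, hr, h⟩ := ih fun i hi => hf i (Finset.mem_insert_of_mem hi)
    refine ⟨min r (f a), lt_min hr (hf a (Finset.mem_insert_self a s)), fun i hi => ?_⟩
    rcases Finset.mem_insert.1 hi with rfl | hi
    · exact min_le_right _ _
    · exact (min_le_left _ _).trans (h i hi)

theorem nef_mixed (hn : 1 < n) (X : Mixed n Y) : CotangentNef (E n) Y := by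
  intro C _ _ _ _ _ _ ν hν σ o hσ
  classical
  rcases const_alt hν with hcst | ⟨p, hp⟩
  swap
  · exact case_const hν hσ hp
  have hD : ∀ c, (∃ k, ν c ∈ (X.dch k).source) → ∃ k R g Q, DD X ν σ o c k R g Q :=
    fun c ⟨k, hk⟩ => ⟨k, DD.exists hν hσ hk⟩
  have hC : ∀ c, (¬ ∃ k, ν c ∈ (X.dch k).source) → ∃ A R, CD X ν σ o c A R :=
    fun c h => CD.exists hn hν hσ (hcst c) fun k hk => h ⟨k, hk⟩
  choose k R₁ g Q HD using hD
  choose A R₂ HC using hC
  obtain ⟨R, hR⟩ : ∃ R : C → ℝ, R = fun c =>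
    if h : ∃ k, ν c ∈ (X.dch k).source then R₁ c h else R₂ c h := ⟨_, rfl⟩
  have hR1 : ∀ c h, R c = R₁ c h := fun c h => by rw [hR]; exact dif_pos h
  have hR2 : ∀ c h, R c = R₂ c h := fun c h => by rw [hR]; exact dif_neg h
  obtain ⟨u, hu⟩ : ∃ u : ℝ → C → C → ℝ, u = fun T c y =>
    if h : ∃ k, ν c ∈ (X.dch k).source then uD X ν o c (k c h) (g c h) (Q c h) T y
    else pot X.toCone (A c h) ν σ y + - Real.log T / A c h := ⟨_, rfl⟩
  have hu1 : ∀ T c h y, u T c y = uD X ν o c (k c h) (g c h) (Q c h) T y :=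
    fun T c h y => by rw [hu]; exact dif_pos h
  have hu2 : ∀ T c h y, u T c y = pot X.toCone (A c h) ν σ y + - Real.log T / A c h :=
    fun T c h y => by rw [hu]; exact dif_neg h
  have hb : ∀ {r : ℝ} (z₀ : ℂ), 0 < r → ball z₀ r ⊆ ball z₀ (2 * r) := fun z₀ hr =>
    ball_subset_ball (by linarith)
  refine DM.sum_le_approx (m := o) (R := R) ?_ ?_ ?_ ?_
  · intro c
    by_cases h : ∃ k, ν c ∈ (X.dch k).source
    · rw [hR1 c h]
      exact (HD c h).hR
    · rw [hR2 c h]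
      exact (HC c h).hR
  · intro c
    by_cases h : ∃ k, ν c ∈ (X.dch k).source
    · rw [hR1 c h]
      exact (hb _ (HD c h).hR).trans (HD c h).rep.sub
    · rw [hR2 c h]
      exact (hb _ (HC c h).hR).trans (HC c h).sub
  · intro c z hz hne
    by_cases h : ∃ k, ν c ∈ (X.dch k).source
    · rw [hR1 c h] at hz
      exact (((HD c h).rep.loc z (hb _ (HD c h).hR hz)).2.2.2.2 hne).2
    · rw [hR2 c h] at hz
      exact (HC c h).zero z (hb _ (HC c h).hR hz) hne
  intro t ε hε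
  have hloc : ∀ c, ∃ T₀ > 0, ∀ T, 0 < T → T < T₀ →
      A5Loc (fun z => u T c ((chartAt ℂ c).symm z)) (chartAt ℂ c c) (R c) (o c) := by
    intro c
    by_cases h : ∃ k, ν c ∈ (X.dch k).source
    · obtain ⟨T₀, hT₀, h1⟩ := (HD c h).uD_loc
      refine ⟨T₀, hT₀, fun T hT hT' => ?_⟩
      rw [hR1 c h]
      simp only [hu1 T c h]
      exact h1 T hT hT'
    · refine ⟨1, one_pos, fun T _ _ => ?_⟩
      rw [hR2 c h]
      simp only [hu2 T c h]
      exact A5Loc_add (HC c h).loc _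
  have hpair : ∀ p : C × C, ∃ T₀ > 0, ∀ T, 0 < T → T < T₀ → ∀ x, x ∈ S_U C R p.1 →
      x ∈ S_U C R p.2 → x ≠ p.1 → x ≠ p.2 → |u T p.1 x - u T p.2 x| ≤ ε := by
    rintro ⟨c, c'⟩
    simp only
    by_cases h : ∃ k, ν c ∈ (X.dch k).source <;> by_cases h' : ∃ k, ν c' ∈ (X.dch k).source
    · obtain ⟨T₀, hT₀, h1⟩ := DD.close hν hσ (HD c h) (HD c' h') hε
      refine ⟨T₀, hT₀, fun T hT hT' x hx hx' hne hne' => ?_⟩
      rw [hu1 T c h, hu1 T c' h']
      refine h1 T hT hT' x hx.1 ?_ hx'.1 ?_ hne hne'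
      · rw [← hR1 c h]
        exact hx.2
      · rw [← hR1 c' h']
        exact hx'.2
    · obtain ⟨T₀, hT₀, h1⟩ := CD.close hν hσ (HC c' h') (fun k hk => h' ⟨k, hk⟩) (HD c h) hε
      refine ⟨T₀, hT₀, fun T hT hT' x hx hx' hne hne' => ?_⟩
      rw [hu1 T c h, hu2 T c' h', abs_sub_comm]
      refine h1 T hT hT' x hx'.1 ?_ hx.1 ?_ hne' hne
      · rw [← hR2 c' h']
        exact hx'.2
      · rw [← hR1 c h]
        exact hx.2
    · obtain ⟨T₀, hT₀, h1⟩ := CD.close hν hσ (HC c h) (fun k hk => h ⟨k, hk⟩) (HD c' h') hε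
      refine ⟨T₀, hT₀, fun T hT hT' x hx hx' hne hne' => ?_⟩
      rw [hu2 T c h, hu1 T c' h']
      refine h1 T hT hT' x hx.1 ?_ hx'.1 ?_ hne hne'
      · rw [← hR2 c h]
        exact hx.2
      · rw [← hR1 c' h']
        exact hx'.2
    · refine ⟨1, one_pos, fun T _ _ x hx hx' hne hne' => ?_⟩
      have key : ∀ c h, x ∈ S_U C R c → x ≠ c → ν x ∉ X.P ∧ Ex X.toCone (A c h) ν σ x := by
        intro c h hx hne
        have hz : chartAt ℂ c x ∈ ball (chartAt ℂ c c) (R₂ c h) := by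
          rw [← hR2 c h]
          exact hx.2
        have h1 := (HC c h).ex _ (hb _ (HC c h).hR hz)
          fun he => hne ((chartAt ℂ c).injOn hx.1 (mem_chart_source ℂ c) he)
        rwa [(chartAt ℂ c).left_inv hx.1] at h1
      obtain ⟨h1, h2⟩ := key c h hx hne
      obtain ⟨-, h3⟩ := key c' h' hx' hne'
      have hA := ex_unique X.toCone hν hσ h1 h2 h3
      rw [hu2 T c h, hu2 T c' h', hA, sub_self, abs_zero]
      exact hε.le
  choose T₁ hT₁ hloc using hloc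
  choose T₂ hT₂ hpair using hpair
  obtain ⟨r₁, hr₁, h1⟩ := M_pos_le t T₁ fun c _ => hT₁ c
  obtain ⟨r₂, hr₂, h2⟩ := M_pos_le (t ×ˢ t) T₂ fun p _ => hT₂ p
  have hT : 0 < min r₁ r₂ / 2 := half_pos (lt_min hr₁ hr₂)
  refine ⟨u (min r₁ r₂ / 2), fun c hc => hloc c _ hT ?_, fun c hc c' hc' x hx hx' hne hne' =>
    hpair (c, c') _ hT ?_ x hx hx' hne hne'⟩
  · have := h1 c hc
    have := min_le_left r₁ r₂
    linarith
  · have := h2 (c, c') (Finset.mem_product.2 ⟨hc, hc'⟩)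
    have := min_le_right r₁ r₂
    linarith

end Pool.Agent.Nef6.UM
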