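import Pool.Agent.H.MP_6a1d6a_ag.UM.Base2

/-!
MP_6a1d6a_ag/UM, module R1: two representations of the field at the same point.

`rep_change`: let `z = chartAt ℂ c`, `z' = chartAt ℂ c'`. For `y' ≠ y` near `y` (and `y' ≠ c`, `y' ≠ c'`: if `y ≠ c'` this is clear near `y`, if `y = c'` it follows from `y' ≠ y`) `Rep.loc` gives `σ φ y' = (z y' - z c) ^ (o c) • g (z y')`, `σ ψ y' = (z' y' - z' c') ^ (o c') • g' (z' y')`, and the first part of `IsMeroField`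
`σ ψ y' = fderiv ℂ (ψ ∘ φ.symm) (φ (ν y')) (σ φ y')`. So `g' (z' y') = τ y' • fderiv ℂ (ψ ∘ φ.symm) (φ (ν y')) (g (z y'))`, `τ y' = ((z' y' - z' c') ^ (o c'))⁻¹ * (z y' - z c) ^ (o c)`. Both sides are continuous at `y` (`CC.tr_smooth` for the derivative as in `UM/D1.lean`; if `y = c'` then `o c' = 0` by `H.loc`, as `y ≠ c`, so the first factor of
`τ` is `1`), and `𝓝[≠] y` is not trivial, so the equation holds at `y` (`tendsto_nhds_unique`), `t = τ y ≠ 0`.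
`rep_good`: `N_change`, `N_smul`, `Ker_change`, `Ker_smul`, `K_change`, `K_smul` (with `x = ψ (ν y)`, `ψ.symm (ψ (ν y)) = ν y`), cases `A = 1` and `1 < A`.
-/

set_option autoImplicit false

open Set Filter Topology Metric MeasureTheory
open scoped ContDiff Manifold

namespace Pool.Agent.Nef6.UM

open Pool.Agent.Nef6.SN
open Pool.Agent.Nef6.SM (loc_curve A5Loc)
open Pool.Agent.Nef6.DM (disc IsSemi InU rad Good)

variable {n : ℕ} {Y : Type} [TopologicalSpace Y] [ChartedSpace (E n) Y]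
  [IsManifold 𝓘(ℂ, E n) ω Y] (X : Cone n Y)
  {C : Type} [TopologicalSpace C] [ChartedSpace ℂ C] [IsManifold 𝓘(ℂ) ω C]

private theorem R1_loc {ν : C → Y} {σ : Chart n Y → C → E n} {o : C → ℤ} {c : C} {φ : Chart n Y}
    {R : ℝ} {g : ℂ → E n} (H : Rep ν σ o c φ R g) {y : C} (hy : y ∈ (chartAt ℂ c).source)
    (hz : chartAt ℂ c y ∈ ball (chartAt ℂ c c) R) :
    ν y ∈ φ.source ∧ AnalyticAt ℂ g (chartAt ℂ c y) ∧
      (chartAt ℂ c y ≠ chartAt ℂ c c →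
        σ φ y = (chartAt ℂ c y - chartAt ℂ c c) ^ (o c) • g (chartAt ℂ c y) ∧ o y = 0) := by
  obtain ⟨h1, -, h2, -, h3⟩ := H.loc _ hz
  rw [(chartAt ℂ c).left_inv hy] at h1 h3
  exact ⟨h1, h2, h3⟩

theorem rep_change {ν : C → Y} (hν : ContMDiff 𝓘(ℂ) 𝓘(ℂ, E n) ω ν) {σ : Chart n Y → C → E n}
    {o : C → ℤ} (hσ : IsMeroField ν σ o) {c c' : C} {φ ψ : Chart n Y} (hφ : φ ∈ Charts (E n) Y)
    (hψ : ψ ∈ Charts (E n) Y) {R R' : ℝ} {g g' : ℂ → E n} (H : Rep ν σ o c φ R g)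
    (H' : Rep ν σ o c' ψ R' g') {y : C} (hy : y ∈ (chartAt ℂ c).source)
    (hz : chartAt ℂ c y ∈ ball (chartAt ℂ c c) R) (hy' : y ∈ (chartAt ℂ c').source)
    (hz' : chartAt ℂ c' y ∈ ball (chartAt ℂ c' c') R') (hne : y ≠ c) :
    ∃ t : ℂ, t ≠ 0 ∧ g' (chartAt ℂ c' y) =
      t • fderiv ℂ (ψ ∘ φ.symm) (φ (ν y)) (g (chartAt ℂ c y)) := by
  obtain ⟨h1, h2, h3⟩ := R1_loc H hy hz
  obtain ⟨k1, k2, k3⟩ := R1_loc H' hy' hz'
  have hzne : chartAt ℂ c y ≠ chartAt ℂ c c := fun h =>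
    hne ((chartAt ℂ c).injOn hy (mem_chart_source ℂ c) h)
  obtain ⟨h4, h5⟩ := h3 hzne
  have ht0 : (chartAt ℂ c y - chartAt ℂ c c) ^ (o c) ≠ 0 := zpow_ne_zero _ (sub_ne_zero.2 hzne)
  by_cases hyc : y = c'
  · have hoc : o c' = 0 := by
      rw [← hyc]
      exact h5
    refine ⟨_, ht0, ?_⟩
    have hbot : (𝓝[≠] y).NeBot := by
      have h6 := (tend_symm c' ((chartAt ℂ c').map_source hy')).neBot
      rw [(chartAt ℂ c').left_inv hy'] at h6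
      exact h6
    have hcz : ContinuousAt (chartAt ℂ c) y := (chartAt ℂ c).continuousAt hy
    have hcz' : ContinuousAt (chartAt ℂ c') y := (chartAt ℂ c').continuousAt hy'
    have c1 : ContinuousAt (fun y' => g' (chartAt ℂ c' y')) y :=
      ContinuousAt.comp (f := chartAt ℂ c') (g := g') (x := y) k2.continuousAt hcz'
    have c2 : ContinuousAt (fun y' => g (chartAt ℂ c y')) y :=
      ContinuousAt.comp (f := chartAt ℂ c) (g := g) (x := y) h2.continuousAt hcz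
    have c3 : ContinuousAt (fun y' => φ (ν y')) y :=
      ContinuousAt.comp (f := ν) (g := φ) (x := y) (φ.continuousAt h1) hν.continuous.continuousAt
    have h0 : ContDiffAt ℂ ω (ψ ∘ φ.symm) (φ (ν y)) := CC.tr_smooth hφ hψ h1 k1
    have h7 : AnalyticAt ℂ (ψ ∘ φ.symm) (φ (ν y)) := h0.analyticAt
    have c4 : ContinuousAt (fun y' => fderiv ℂ (ψ ∘ φ.symm) (φ (ν y'))) y :=
      ContinuousAt.comp (f := fun y' => φ (ν y')) (g := fun x => fderiv ℂ (ψ ∘ φ.symm) x) (x := y)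
        h7.fderiv.continuousAt c3
    have c5 : ContinuousAt (fun y' => (chartAt ℂ c y' - chartAt ℂ c c) ^ (o c)) y :=
      (hcz.sub continuousAt_const).zpow₀ (o c) (Or.inl (sub_ne_zero.2 hzne))
    have c6 : ContinuousAt (fun y' => (chartAt ℂ c y' - chartAt ℂ c c) ^ (o c) •
        fderiv ℂ (ψ ∘ φ.symm) (φ (ν y')) (g (chartAt ℂ c y'))) y := c5.smul (c4.clm_apply c2)
    have hev : ∀ᶠ y' in 𝓝[≠] y, g' (chartAt ℂ c' y') =
        (chartAt ℂ c y' - chartAt ℂ c c) ^ (o c) •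
          fderiv ℂ (ψ ∘ φ.symm) (φ (ν y')) (g (chartAt ℂ c y')) := by
      have e1 : ∀ᶠ y' in 𝓝[≠] y, y' ∈ (chartAt ℂ c).source :=
        nhdsWithin_le_nhds ((chartAt ℂ c).open_source.mem_nhds hy)
      have e2 : ∀ᶠ y' in 𝓝[≠] y, y' ∈ (chartAt ℂ c').source :=
        nhdsWithin_le_nhds ((chartAt ℂ c').open_source.mem_nhds hy')
      have e3 : ∀ᶠ y' in 𝓝[≠] y, chartAt ℂ c y' ∈ ball (chartAt ℂ c c) R :=
        nhdsWithin_le_nhds (hcz (isOpen_ball.mem_nhds hz))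
      have e4 : ∀ᶠ y' in 𝓝[≠] y, chartAt ℂ c' y' ∈ ball (chartAt ℂ c' c') R' :=
        nhdsWithin_le_nhds (hcz' (isOpen_ball.mem_nhds hz'))
      have e5 : ∀ᶠ y' in 𝓝[≠] y, chartAt ℂ c y' ≠ chartAt ℂ c c :=
        nhdsWithin_le_nhds (hcz.eventually_ne hzne)
      filter_upwards [e1, e2, e3, e4, e5, self_mem_nhdsWithin] with y' f1 f2 f3 f4 f5 f6
      obtain ⟨p1, -, p3⟩ := R1_loc H f1 f3
      obtain ⟨q1, -, q3⟩ := R1_loc H' f2 f4
      have f7 : chartAt ℂ c' y' ≠ chartAt ℂ c' c' := fun h => by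
        refine f6 ?_
        have h8 := (chartAt ℂ c').injOn f2 (mem_chart_source ℂ c') h
        rw [hyc]
        exact h8
      have p4 := (p3 f5).1
      have q4 := (q3 f7).1
      rw [hoc, zpow_zero, one_smul] at q4
      rw [← q4, hσ.1 φ hφ ψ hψ y' p1 q1, p4, map_smul]
    exact tendsto_nhds_unique_of_eventuallyEq
      (c1.tendsto.mono_left nhdsWithin_le_nhds) (c6.tendsto.mono_left nhdsWithin_le_nhds) hev
  · have hzne' : chartAt ℂ c' y ≠ chartAt ℂ c' c' := fun h =>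
      hyc ((chartAt ℂ c').injOn hy' (mem_chart_source ℂ c') h)
    obtain ⟨k4, -⟩ := k3 hzne'
    have hs0 : (chartAt ℂ c' y - chartAt ℂ c' c') ^ (o c') ≠ 0 :=
      zpow_ne_zero _ (sub_ne_zero.2 hzne')
    refine ⟨((chartAt ℂ c' y - chartAt ℂ c' c') ^ (o c'))⁻¹ *
      (chartAt ℂ c y - chartAt ℂ c c) ^ (o c), mul_ne_zero (inv_ne_zero hs0) ht0, ?_⟩
    have h6 := hσ.1 φ hφ ψ hψ y h1 k1
    rw [k4, h4, map_smul] at h6
    rw [mul_smul, ← h6, smul_smul, inv_mul_cancel₀ hs0, one_smul]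

theorem rep_good {ν : C → Y} (hν : ContMDiff 𝓘(ℂ) 𝓘(ℂ, E n) ω ν) {σ : Chart n Y → C → E n}
    {o : C → ℤ} (hσ : IsMeroField ν σ o) {c c' : C} {φ ψ : Chart n Y} (hφ : φ ∈ Charts (E n) Y)
    (hψ : ψ ∈ Charts (E n) Y) {R R' : ℝ} {g g' : ℂ → E n} (H : Rep ν σ o c φ R g)
    (H' : Rep ν σ o c' ψ R' g') {y : C} (hy : y ∈ (chartAt ℂ c).source)
    (hz : chartAt ℂ c y ∈ ball (chartAt ℂ c c) R) (hy' : y ∈ (chartAt ℂ c').source)
    (hz' : chartAt ℂ c' y ∈ ball (chartAt ℂ c' c') R') (hne : y ≠ c) (hP : ν y ∉ X.P) {A : ℝ}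
    (hA : 1 ≤ A) (hk : X.Kr A φ (φ (ν y)) (g (chartAt ℂ c y)))
    (hL : X.L A φ (φ (ν y)) (g (chartAt ℂ c y)) ≠ 0) :
    X.Kr A ψ (ψ (ν y)) (g' (chartAt ℂ c' y)) ∧
      X.L A ψ (ψ (ν y)) (g' (chartAt ℂ c' y)) ≠ 0 := by
  obtain ⟨t, ht, hg⟩ := rep_change hν hσ hφ hψ H H' hy hz hy' hz' hne
  obtain ⟨h1, -, -⟩ := R1_loc H hy hz
  obtain ⟨k1, -, -⟩ := R1_loc H' hy' hz'
  have hP' : ψ.symm (ψ (ν y)) ∉ X.P := by
    rw [ψ.left_inv k1]
    exact hP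
  have hx : ψ (ν y) ∈ ψ.target := ψ.map_source k1
  rw [hg]
  unfold Cone.Kr Cone.L at *
  rcases eq_or_lt_of_le hA with hA1 | hA1
  · rw [if_pos hA1.symm] at hL
    refine ⟨Or.inl hA1.symm, ?_⟩
    rw [if_pos hA1.symm, N_smul X hψ hx hP', N_change X hφ hψ h1 k1 hP]
    exact mul_ne_zero (norm_ne_zero_iff.2 ht) hL
  · have hA2 : A ≠ 1 := ne_of_gt hA1
    have hker := hk.resolve_left hA2
    rw [if_neg hA2] at hL
    refine ⟨Or.inr ((Ker_smul X hψ hx hP' hA1 ht _).2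
      ((Ker_change X hφ hψ h1 k1 hP hA1 _).2 hker)), ?_⟩
    rw [if_neg hA2, K_smul X hψ hx hP' hA1, K_change X hφ hψ h1 k1 hP hA1 hker]
    exact mul_ne_zero (norm_ne_zero_iff.2 ht) hL

end Pool.Agent.Nef6.UM
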