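import Pool.Agent.H.MP_6a1d6a_ag.UM.M2
import Pool.Agent.H.MP_6a1d6a_ag.UM.R1

/-!
MP_6a1d6a_ag/UM, module P4: comparison near the points of a compact set in the overlap of a cone chart and a disc chart; a real
lemma.
-/

set_option autoImplicit false

open Set Filter Topology Metric MeasureTheory
open scoped ContDiff Manifold

namespace Pool.Agent.Nef6.UM

open Pool.Agent.Nef6.SN
open Pool.Agent.Nef6.SM (loc_curve A5Loc)
open Pool.Agent.Nef6.DM (disc IsSemi InU rad Good)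

variable {n : ℕ} {Y : Type} [TopologicalSpace Y] [ChartedSpace (E n) Y]
  [IsManifold 𝓘(ℂ, E n) ω Y] {X : Mixed n Y}
  {C : Type} [TopologicalSpace C] [ChartedSpace ℂ C] [IsManifold 𝓘(ℂ) ω C]

omit [IsManifold 𝓘(ℂ, E n) ω Y] [TopologicalSpace Y] [ChartedSpace (E n) Y] in
theorem close_real {A ε r T D L : ℝ} (hA : 1 ≤ A) (hε : 0 < ε) (hr : 0 < r) (hT : 0 < T)
    (hL : 0 < L) (hD : r * D = T) (h1 : D ≤ (1 + ε) * (L ^ A * r ^ (A - 1)))
    (h2 : L ^ A * r ^ (A - 1) ≤ (1 + ε) * D) :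
    |(Real.log L + - Real.log T / A) - (- Real.log r)| ≤ ε := by
  have hA0 : 0 < A := by linarith
  have hrA : r * r ^ (A - 1) = r ^ A := by
    rw [← Real.rpow_one_add' hr.le (by linarith)]
    congr 1
    ring
  have hLr : 0 < L ^ A * r ^ A := mul_pos (Real.rpow_pos_of_pos hL _) (Real.rpow_pos_of_pos hr _)
  have h3 : T ≤ (1 + ε) * (L ^ A * r ^ A) := by
    rw [← hD, ← hrA]
    have := mul_le_mul_of_nonneg_left h1 hr.le
    nlinarith
  have h4 : L ^ A * r ^ A ≤ (1 + ε) * T := by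
    rw [← hD, ← hrA]
    have := mul_le_mul_of_nonneg_left h2 hr.le
    nlinarith
  have he : Real.log (1 + ε) ≤ ε := by
    have := Real.log_le_sub_one_of_pos (by linarith : (0 : ℝ) < 1 + ε)
    linarith
  have hlog : Real.log (L ^ A * r ^ A) = A * Real.log L + A * Real.log r := by
    rw [Real.log_mul (Real.rpow_pos_of_pos hL _).ne' (Real.rpow_pos_of_pos hr _).ne',
      Real.log_rpow hL, Real.log_rpow hr]
  have h5 : Real.log T ≤ Real.log (1 + ε) + (A * Real.log L + A * Real.log r) := by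
    rw [← hlog, ← Real.log_mul (by positivity) hLr.ne']
    exact Real.log_le_log hT h3
  have h6 : A * Real.log L + A * Real.log r ≤ Real.log (1 + ε) + Real.log T := by
    rw [← hlog, ← Real.log_mul (by positivity) hT.ne']
    exact Real.log_le_log hLr h4
  have h7 : (Real.log L + - Real.log T / A) - (- Real.log r) =
      (A * Real.log L + A * Real.log r - Real.log T) / A := by
    field_simp
    ring
  rw [h7, abs_div, abs_of_pos hA0, div_le_iff₀ hA0, abs_le]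
  constructor <;> nlinarith

theorem cd_compact {ν : C → Y} (hν : ContMDiff 𝓘(ℂ) 𝓘(ℂ, E n) ω ν) {σ : Chart n Y → C → E n}
    {o : C → ℤ} (hσ : IsMeroField ν σ o) {k : X.D} {c c' : C} {φ : Chart n Y}
    (hφ : φ ∈ Charts (E n) Y) {R R' : ℝ} {g g' : ℂ → E n} (H : Rep ν σ o c φ R g)
    (H' : Rep ν σ o c' (X.dch k) R' g') {A : ℝ} (hA : 1 ≤ A)
    (hgood : ∀ z ∈ ball (chartAt ℂ c c) R, z ≠ chartAt ℂ c c →
      ν ((chartAt ℂ c).symm z) ∉ X.P ∧
      X.toCone.Kr A φ (φ (ν ((chartAt ℂ c).symm z))) (g z) ∧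
      X.toCone.L A φ (φ (ν ((chartAt ℂ c).symm z))) (g z) ≠ 0)
    {S : Set ℂ} (hS : IsCompact S)
    (hS1 : ∀ z ∈ S, z ∈ ball (chartAt ℂ c' c') R' ∧
      (chartAt ℂ c').symm z ∈ (chartAt ℂ c).source ∧
      chartAt ℂ c ((chartAt ℂ c').symm z) ∈ ball (chartAt ℂ c c) R ∧
      (chartAt ℂ c').symm z ≠ c) {ε : ℝ} (hε : 0 < ε) :
    ∃ r₀ > 0, ∀ z ∈ S, ∀ r, 0 < r → r < r₀ →
      0 < X.toCone.L A (X.dch k) (X.dch k (ν ((chartAt ℂ c').symm z))) (g' z) ∧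
      X.toCone.Kr A (X.dch k) (X.dch k (ν ((chartAt ℂ c').symm z))) (g' z) ∧
      disc (X.F k) (X.dch k (ν ((chartAt ℂ c').symm z))) (g' z) r ≤
        (1 + ε) * (X.toCone.L A (X.dch k) (X.dch k (ν ((chartAt ℂ c').symm z))) (g' z) ^ A *
          r ^ (A - 1)) ∧
      X.toCone.L A (X.dch k) (X.dch k (ν ((chartAt ℂ c').symm z))) (g' z) ^ A * r ^ (A - 1) ≤
        (1 + ε) * disc (X.F k) (X.dch k (ν ((chartAt ℂ c').symm z))) (g' z) r := by
  have : T1Space C := ChartedSpace.t1Space ℂ C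
  -- at each point of the overlap
  have hpt : ∀ z, z ∈ ball (chartAt ℂ c' c') R' → (chartAt ℂ c').symm z ∈ (chartAt ℂ c).source →
      chartAt ℂ c ((chartAt ℂ c').symm z) ∈ ball (chartAt ℂ c c) R →
      (chartAt ℂ c').symm z ≠ c → ν ((chartAt ℂ c').symm z) ∉ X.P ∧
      X.toCone.Kr A (X.dch k) (X.dch k (ν ((chartAt ℂ c').symm z))) (g' z) ∧
      X.toCone.L A (X.dch k) (X.dch k (ν ((chartAt ℂ c').symm z))) (g' z) ≠ 0 := by
    intro z hz h1 h2 h3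
    have hzt : z ∈ (chartAt ℂ c').target := H'.sub hz
    have h4 : chartAt ℂ c ((chartAt ℂ c').symm z) ≠ chartAt ℂ c c := fun he =>
      h3 ((chartAt ℂ c).injOn h1 (mem_chart_source ℂ c) he)
    obtain ⟨h5, h6, h7⟩ := hgood _ h2 h4
    rw [(chartAt ℂ c).left_inv h1] at h5 h6 h7
    have h8 := rep_good X.toCone hν hσ hφ (X.dhol k) H H' h1 h2
      ((chartAt ℂ c').map_target hzt) (by rw [(chartAt ℂ c').right_inv hzt]; exact hz) h3 h5 hA
      h6 h7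
    rw [(chartAt ℂ c').right_inv hzt] at h8
    exact ⟨h5, h8⟩
  -- near each point of `S`
  have hloc : ∀ z₁ ∈ S, ∃ r₀ > 0, ∀ᶠ z in 𝓝 z₁, ∀ r, 0 < r → r < r₀ →
      0 < X.toCone.L A (X.dch k) (X.dch k (ν ((chartAt ℂ c').symm z))) (g' z) ∧
      X.toCone.Kr A (X.dch k) (X.dch k (ν ((chartAt ℂ c').symm z))) (g' z) ∧
      disc (X.F k) (X.dch k (ν ((chartAt ℂ c').symm z))) (g' z) r ≤
        (1 + ε) * (X.toCone.L A (X.dch k) (X.dch k (ν ((chartAt ℂ c').symm z))) (g' z) ^ A *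
          r ^ (A - 1)) ∧
      X.toCone.L A (X.dch k) (X.dch k (ν ((chartAt ℂ c').symm z))) (g' z) ^ A * r ^ (A - 1) ≤
        (1 + ε) * disc (X.F k) (X.dch k (ν ((chartAt ℂ c').symm z))) (g' z) r := by
    intro z₁ hz₁
    obtain ⟨h1, h2, h3, h4⟩ := hS1 z₁ hz₁
    have hzt : z₁ ∈ (chartAt ℂ c').target := H'.sub h1
    have hsy : ContinuousAt (chartAt ℂ c').symm z₁ := (chartAt ℂ c').continuousAt_symm hzt
    have e1 : ∀ᶠ z in 𝓝 z₁, z ∈ ball (chartAt ℂ c' c') R' := isOpen_ball.mem_nhds h1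
    have e2 : ∀ᶠ z in 𝓝 z₁, (chartAt ℂ c').symm z ∈ (chartAt ℂ c).source :=
      hsy.eventually ((chartAt ℂ c).open_source.mem_nhds h2)
    have e3 : ∀ᶠ z in 𝓝 z₁, chartAt ℂ c ((chartAt ℂ c').symm z) ∈ ball (chartAt ℂ c c) R := by
      have hc : ContinuousAt (fun z => chartAt ℂ c ((chartAt ℂ c').symm z)) z₁ :=
        ContinuousAt.comp' ((chartAt ℂ c).continuousAt h2) hsy
      exact hc.eventually (isOpen_ball.mem_nhds h3)
    have e4 : ∀ᶠ z in 𝓝 z₁, (chartAt ℂ c').symm z ≠ c :=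
      hsy.eventually (isOpen_ne.mem_nhds h4)
    have e5 : ∀ᶠ z in 𝓝 z₁, X.toCone.Kr A (X.dch k) (X.dch k (ν ((chartAt ℂ c').symm z))) (g' z) := by
      filter_upwards [e1, e2, e3, e4] with z a1 a2 a3 a4
      exact (hpt z a1 a2 a3 a4).2.1
    obtain ⟨b1, -, b2⟩ := hpt z₁ h1 h2 h3 h4
    obtain ⟨l1, l2, l3, l4, -⟩ := H'.loc z₁ h1
    obtain ⟨r₀, hr₀, hev⟩ := disc_asym X k (x := fun z => X.dch k (ν ((chartAt ℂ c').symm z)))
      (v := g') l2 l3 l4 ((X.dch k).map_source l1)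
      (by rw [(X.dch k).left_inv l1]; exact b1) hA e5 b2 hε
    refine ⟨r₀, hr₀, ?_⟩
    filter_upwards [hev, e5] with z a1 a2 r hr hrr
    obtain ⟨c1, c2, c3⟩ := a1 r hr hrr
    exact ⟨c1, a2, c2, c3⟩
  -- compactness
  refine hS.induction_on (p := fun S => ∃ r₀ > 0, ∀ z ∈ S, ∀ r, 0 < r → r < r₀ →
      0 < X.toCone.L A (X.dch k) (X.dch k (ν ((chartAt ℂ c').symm z))) (g' z) ∧
      X.toCone.Kr A (X.dch k) (X.dch k (ν ((chartAt ℂ c').symm z))) (g' z) ∧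
      disc (X.F k) (X.dch k (ν ((chartAt ℂ c').symm z))) (g' z) r ≤
        (1 + ε) * (X.toCone.L A (X.dch k) (X.dch k (ν ((chartAt ℂ c').symm z))) (g' z) ^ A *
          r ^ (A - 1)) ∧
      X.toCone.L A (X.dch k) (X.dch k (ν ((chartAt ℂ c').symm z))) (g' z) ^ A * r ^ (A - 1) ≤
        (1 + ε) * disc (X.F k) (X.dch k (ν ((chartAt ℂ c').symm z))) (g' z) r) ?_ ?_ ?_ ?_
  · exact ⟨1, one_pos, fun z hz => absurd hz (notMem_empty z)⟩
  · rintro s t hst ⟨r₀, hr₀, h⟩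
    exact ⟨r₀, hr₀, fun z hz => h z (hst hz)⟩
  · rintro s t ⟨r₀, hr₀, h⟩ ⟨r₁, hr₁, h'⟩
    refine ⟨min r₀ r₁, lt_min hr₀ hr₁, fun z hz r hr hrr => ?_⟩
    rcases hz with hz | hz
    · exact h z hz r hr (hrr.trans_le (min_le_left _ _))
    · exact h' z hz r hr (hrr.trans_le (min_le_right _ _))
  · intro z hz
    obtain ⟨r₀, hr₀, h⟩ := hloc z hz
    exact ⟨_, mem_nhdsWithin_of_mem_nhds h, r₀, hr₀, fun z hz => hz⟩

end Pool.Agent.Nef6.UM
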