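import Pool.Agent.H.MP_6a1d6a_ag.UM.Base2

/-!
MP_6a1d6a_ag/UM, module X1: the exponent of a field at a point: existence, uniqueness, openness. See `SN/C9c.lean`.
-/

set_option autoImplicit false

open Set Filter Topology Metric MeasureTheory
open scoped ContDiff Manifold

namespace Pool.Agent.Nef6.UM

open Pool.Agent.Nef6.SN
open Pool.Agent.Nef6.SM (loc_curve A5Loc)
open Pool.Agent.Nef6.DM (disc IsSemi InU rad Good)

variable {n : ℕ} {Y : Type} [TopologicalSpace Y] [ChartedSpace (E n) Y]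
  [IsManifold 𝓘(ℂ, E n) ω Y] (X : Cone n Y)
  {C : Type} [TopologicalSpace C] [ChartedSpace ℂ C] [IsManifold 𝓘(ℂ) ω C]

private theorem C9c_tr {A B : Type} [TopologicalSpace A] [TopologicalSpace B]
    (e : OpenPartialHomeomorph A B) {a : A} (ha : a ∈ e.source) :
    Tendsto e (𝓝[≠] a) (𝓝[≠] (e a)) := by
  refine tendsto_nhdsWithin_iff.2 ⟨(e.continuousAt ha).tendsto.mono_left nhdsWithin_le_nhds, ?_⟩
  filter_upwards [mem_nhdsWithin_of_mem_nhds (e.open_source.mem_nhds ha),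
    self_mem_nhdsWithin] with b hb hb' h
  exact hb' (e.injOn hb ha h)

private theorem C9c_ev {C : Type} [TopologicalSpace C] [T1Space C] {p : C → Prop} {c : C}
    (h : ∀ᶠ c' in 𝓝[≠] c, p c') :
    ∀ᶠ c' in 𝓝 c, c' ≠ c → ∀ᶠ c'' in 𝓝 c', p c'' := by
  refine (eventually_nhdsWithin_iff (s := {c}ᶜ)).1 ?_
  filter_upwards [eventually_eventually_nhdsWithin.2 h, self_mem_nhdsWithin] with c' h1 h2
  rwa [isOpen_compl_singleton.nhdsWithin_eq h2] at h1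

omit [ChartedSpace ℂ C] [IsManifold 𝓘(ℂ) ω C] [TopologicalSpace C] in
/-- the exponent is unique -/
private theorem C9c_lt {ν : C → Y} {σ : Chart n Y → C → E n} {c : C} (hP : ν c ∉ X.P)
    {A A' : ℝ} (hA : 1 < A) (hAA : A < A') (h1 : kr X A ν σ c) (h2 : ku X A ν σ c ≠ 0)
    (h3 : kr X A' ν σ c) : False := by
  obtain ⟨j, hj⟩ := off_P X hP
  have hφ : chartAt (E n) (ν c) ∈ Charts (E n) Y := IsManifold.chart_mem_maximalAtlas _
  have hs : ν c ∈ (chartAt (E n) (ν c)).source := mem_chart_source _ _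
  have ht := (chartAt (E n) (ν c)).map_source hs
  have hj' : (chartAt (E n) (ν c)).symm (chartAt (E n) (ν c) (ν c)) ∈ (X.ch j).source := by
    rw [(chartAt (E n) (ν c)).left_inv hs]
    exact hj
  unfold kr at h1 h3
  unfold ku at h2
  rw [Ker_iff X hφ ht hj' (hA.trans hAA)] at h3
  rw [K_eq X hφ ht hj' hA h1] at h2
  apply h2
  rw [knA_zero_iff (X.metric j) hA (X.maps j _ ((X.ch j).map_source hj'))]
  intro i hi
  rcases h3 i with h | h
  · exact h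
  · exfalso
    have h4 := h.1
    rw [hi] at h4
    exact absurd hAA (not_lt.2 h4)


omit [IsManifold 𝓘(ℂ, E n) ω Y] in
/-- the domains of the cone charts form an open set -/
theorem open_compl_P {y : Y} (hy : y ∉ X.P) : ∀ᶠ y' in 𝓝 y, y' ∉ X.P := by
  obtain ⟨j, hj⟩ := (X.cover y).1 hy
  filter_upwards [(X.ch j).open_source.mem_nhds hj] with y' h
  exact (X.cover y').2 ⟨j, h⟩

private theorem X1_bot (c : C) : (𝓝[≠] c).NeBot := by
  have h1 := C9c_tr (chartAt ℂ c).symm ((chartAt ℂ c).map_source (mem_chart_source ℂ c))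
  have h2 : (chartAt ℂ c).symm (chartAt ℂ c c) = c :=
    (chartAt ℂ c).left_inv (mem_chart_source ℂ c)
  rw [h2] at h1
  exact h1.neBot

theorem ex_exists {ν : C → Y} (hν : ContMDiff 𝓘(ℂ) 𝓘(ℂ, E n) ω ν) {σ : Chart n Y → C → E n}
    {o : C → ℤ} (hσ : IsMeroField ν σ o) {c : C} (hc : ν c ∉ X.P) :
    ∃ A, 1 ≤ A ∧ Ex X A ν σ c := by
  have hφ : chartAt (E n) (ν c) ∈ Charts (E n) Y := IsManifold.chart_mem_maximalAtlas _
  obtain ⟨R, g, hR, hb, hl⟩ := loc_curve hν hσ c hφ (mem_chart_source _ _)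
  have hs : (chartAt ℂ c).symm (chartAt ℂ c c) = c :=
    (chartAt ℂ c).left_inv (mem_chart_source ℂ c)
  obtain ⟨h3, h4, h5, h6, -⟩ := hl _ (mem_ball_self hR)
  have hP : ∀ᶠ c' in 𝓝[≠] c, ν c' ∉ X.P :=
    nhdsWithin_le_nhds (hν.continuous.continuousAt.eventually (open_compl_P X hc))
  have htr' : ∀ p : C → Prop, (∀ᶠ c' in 𝓝[≠] c, p c') →
      ∀ᶠ z in 𝓝[≠] (chartAt ℂ c c), p ((chartAt ℂ c).symm z) := by
    intro p h
    have h2 := C9c_tr (chartAt ℂ c).symm ((chartAt ℂ c).map_source (mem_chart_source ℂ c))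
    rw [hs] at h2
    exact h2.eventually h
  have htr : ∀ p : C → Prop, (∀ᶠ z in 𝓝[≠] (chartAt ℂ c c), p ((chartAt ℂ c).symm z)) →
      ∀ᶠ c' in 𝓝[≠] c, p c' := by
    intro p h
    have h1 := (C9c_tr (chartAt ℂ c) (mem_chart_source ℂ c)).eventually h
    filter_upwards [h1, mem_nhdsWithin_of_mem_nhds
      ((chartAt ℂ c).open_source.mem_nhds (mem_chart_source ℂ c))] with c' h2 h9
    rwa [(chartAt ℂ c).left_inv h9] at h2
  have h8 : ∀ᶠ z in 𝓝[≠] (chartAt ℂ c c), z ∈ ball (chartAt ℂ c c) R ∧ z ≠ chartAt ℂ c c := by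
    filter_upwards [mem_nhdsWithin_of_mem_nhds (ball_mem_nhds _ hR), self_mem_nhdsWithin]
      with z h1 h2
    exact ⟨h1, h2⟩
  have ht := (chartAt (E n) (ν c)).map_source h3
  have hP0 : (chartAt (E n) (ν c)).symm
      (chartAt (E n) (ν c) (ν ((chartAt ℂ c).symm (chartAt ℂ c c)))) ∉ X.P := by
    rw [(chartAt (E n) (ν c)).left_inv h3, hs]
    exact hc
  rcases N_dich X hφ h4 h5 ht hP0 with hN1 | hN1
  · obtain ⟨A, hA, hK1, hK2⟩ := exp_exists X hφ h4 h5 ht hP0 h6 hN1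
    refine ⟨A, hA.le, Or.inr ⟨hA, htr _ ?_⟩⟩
    filter_upwards [h8, htr' _ hP, mem_nhdsWithin_of_mem_nhds hK1, hK2] with z hz h1 h2 h7
    obtain ⟨h3, h4, h5, h6, h9⟩ := hl z hz.1
    have ht0 : z - chartAt ℂ c c ≠ 0 := sub_ne_zero.2 hz.2
    refine ⟨(kr_loc X hσ hA hφ h3 h1 ht0 (h9 hz.2).1).2 h2, ?_⟩
    rw [ku_loc X hσ hA hφ h3 h1 ht0 (h9 hz.2).1 h2]
    exact mul_ne_zero (zpow_ne_zero _ (norm_ne_zero_iff.2 ht0)) h7
  · refine ⟨1, le_rfl, Or.inl ⟨rfl, htr _ ?_⟩⟩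
    filter_upwards [h8, htr' _ hP, hN1] with z hz h1 h2
    obtain ⟨h3, h4, h5, h6, h9⟩ := hl z hz.1
    rw [nu_loc X hσ hφ h3 h1 (h9 hz.2).1]
    exact mul_ne_zero (zpow_ne_zero _ (norm_ne_zero_iff.2 (sub_ne_zero.2 hz.2))) h2

omit [ChartedSpace ℂ C] [IsManifold 𝓘(ℂ) ω C] [TopologicalSpace C] in
/-- a vector of the kernel has length `0` -/
private theorem X1_zero {ν : C → Y} {σ : Chart n Y → C → E n} {c : C} (hP : ν c ∉ X.P)
    {A : ℝ} (hA : 1 < A) (h1 : kr X A ν σ c) : nu X ν σ c = 0 := by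
  obtain ⟨j, hj⟩ := off_P X hP
  have hφ : chartAt (E n) (ν c) ∈ Charts (E n) Y := IsManifold.chart_mem_maximalAtlas _
  have hs : ν c ∈ (chartAt (E n) (ν c)).source := mem_chart_source _ _
  have ht := (chartAt (E n) (ν c)).map_source hs
  have hj' : (chartAt (E n) (ν c)).symm (chartAt (E n) (ν c) (ν c)) ∈ (X.ch j).source := by
    rw [(chartAt (E n) (ν c)).left_inv hs]
    exact hj
  unfold kr at h1
  unfold nu
  rw [Ker_iff X hφ ht hj' hA] at h1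
  rw [N_zero X hφ ht hj']
  intro i
  rcases h1 i with h | h
  · exact Or.inl h
  · exact Or.inr ⟨hA.trans_le h.1, h.2⟩

theorem ex_unique {ν : C → Y} (hν : ContMDiff 𝓘(ℂ) 𝓘(ℂ, E n) ω ν) {σ : Chart n Y → C → E n}
    {o : C → ℤ} (hσ : IsMeroField ν σ o) {c : C} (hc : ν c ∉ X.P) {A A' : ℝ}
    (h : Ex X A ν σ c) (h' : Ex X A' ν σ c) : A = A' := by
  have hP : ∀ᶠ c' in 𝓝[≠] c, ν c' ∉ X.P :=
    nhdsWithin_le_nhds (hν.continuous.continuousAt.eventually (open_compl_P X hc))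
  have := X1_bot c
  rcases h with ⟨h1, h2⟩ | ⟨h1, h2⟩ <;> rcases h' with ⟨h1', h2'⟩ | ⟨h1', h2'⟩
  · rw [h1, h1']
  · obtain ⟨c', ⟨h3, h4⟩, h5⟩ := ((h2.and h2').and hP).exists
    exact absurd (X1_zero X h5 h1' h4.1) h3
  · obtain ⟨c', ⟨h3, h4⟩, h5⟩ := ((h2.and h2').and hP).exists
    exact absurd (X1_zero X h5 h1 h3.1) h4
  · obtain ⟨c', ⟨h3, h4⟩, h5⟩ := ((h2.and h2').and hP).exists
    rcases lt_trichotomy A A' with hlt | heq | hgt
    · exact (C9c_lt X h5 h1 hlt h3.1 h3.2 h4.1).elim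
    · exact heq
    · exact (C9c_lt X h5 h1' hgt h4.1 h4.2 h3.1).elim

omit [ChartedSpace ℂ C] [IsManifold 𝓘(ℂ) ω C] [IsManifold 𝓘(ℂ, E n) ω Y] in
theorem ex_near [T1Space C] {ν : C → Y} {σ : Chart n Y → C → E n} {c : C} {A : ℝ}
    (h : Ex X A ν σ c) : ∀ᶠ c' in 𝓝 c, Ex X A ν σ c' := by
  rcases h with ⟨h1, h2⟩ | ⟨h1, h2⟩
  · filter_upwards [C9c_ev h2] with c' h3
    refine Or.inl ⟨h1, ?_⟩
    by_cases h4 : c' = c
    · rw [h4]
      exact h2
    · exact nhdsWithin_le_nhds (h3 h4)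
  · filter_upwards [C9c_ev h2] with c' h3
    refine Or.inr ⟨h1, ?_⟩
    by_cases h4 : c' = c
    · rw [h4]
      exact h2
    · exact nhdsWithin_le_nhds (h3 h4)

end Pool.Agent.Nef6.UM
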