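import Pool.Agent.H.MP_6a1d6a_ag.UM.X1
import Pool.Agent.H.MP_6a1d6a_ag.SN.T1

/-!
MP_6a1d6a_ag/UM, module X2: the exponent of a field in a punctured neighbourhood of a point.
-/

set_option autoImplicit false

open Set Filter Topology Metric MeasureTheory
open scoped ContDiff Manifold

namespace Pool.Agent.Nef6.UM

open Pool.Agent.Nef6.SN
open Pool.Agent.Nef6.SM (loc_curve A5Loc)
open Pool.Agent.Nef6.DM (disc IsSemi InU rad Good)

variable {n : ℕ} {Y : Type} [TopologicalSpace Y] [ChartedSpace (E n) Y]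
  [IsManifold 𝓘(ℂ, E n) ω Y] (X : Cone n Y)
  {C : Type} [TopologicalSpace C] [ChartedSpace ℂ C] [IsManifold 𝓘(ℂ) ω C]

private theorem T1_punct (z₀ : ℂ) {R : ℝ} (hR : 0 < R) : IsPreconnected (ball z₀ R \ {z₀}) := by
  have h1 : ball z₀ R \ {z₀} = (fun w => z₀ + Complex.exp w) '' {w : ℂ | w.re < Real.log R} := by
    ext z
    constructor
    · rintro ⟨hz, hz0⟩
      have hz1 : z - z₀ ≠ 0 := sub_ne_zero.2 hz0
      refine ⟨Complex.log (z - z₀), ?_, ?_⟩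
      · show (Complex.log (z - z₀)).re < Real.log R
        rw [Complex.log_re]
        exact Real.log_lt_log (norm_pos_iff.2 hz1) (by rwa [mem_ball, dist_eq_norm] at hz)
      · show z₀ + Complex.exp (Complex.log (z - z₀)) = z
        rw [Complex.exp_log hz1]
        ring
    · rintro ⟨w, hw, rfl⟩
      have hw' : w.re < Real.log R := hw
      refine ⟨?_, ?_⟩
      · rw [mem_ball, dist_eq_norm]
        have h2 : z₀ + Complex.exp w - z₀ = Complex.exp w := by ring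
        rw [h2, Complex.norm_exp]
        exact (Real.lt_log_iff_exp_lt hR).1 hw'
      · intro h
        have h2 : z₀ + Complex.exp w = z₀ := h
        exact Complex.exp_ne_zero w (by simpa using h2)
  rw [h1]
  exact (convex_halfSpace_re_lt (Real.log R)).isPreconnected.image _
    (continuous_const.add Complex.continuous_exp).continuousOn

theorem ex_punct [T1Space C] {ν : C → Y} (hν : ContMDiff 𝓘(ℂ) 𝓘(ℂ, E n) ω ν)
    {σ : Chart n Y → C → E n} {o : C → ℤ} (hσ : IsMeroField ν σ o) {c : C}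
    (hP : ∀ᶠ c' in 𝓝[≠] c, ν c' ∉ X.P) :
    ∃ A, 1 ≤ A ∧ (∀ᶠ c' in 𝓝[≠] c, Ex X A ν σ c') ∧ (ν c ∉ X.P → Ex X A ν σ c) := by
  have hs : (chartAt ℂ c).symm (chartAt ℂ c c) = c :=
    (chartAt ℂ c).left_inv (mem_chart_source ℂ c)
  have hzt : chartAt ℂ c c ∈ (chartAt ℂ c).target := (chartAt ℂ c).map_source (mem_chart_source ℂ c)
  have hP' : ∀ᶠ z in 𝓝[≠] (chartAt ℂ c c), ν ((chartAt ℂ c).symm z) ∉ X.P := by
    have h1 := tend_symm c hzt
    rw [hs] at h1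
    exact h1.eventually hP
  obtain ⟨R₁, hR₁, h1⟩ := Metric.mem_nhdsWithin_iff.1 hP'
  obtain ⟨R₂, hR₂, h2⟩ := Metric.isOpen_iff.1 (chartAt ℂ c).open_target _ hzt
  obtain ⟨R, hR⟩ : ∃ R, R = min R₁ R₂ := ⟨_, rfl⟩
  have hR0 : 0 < R := by rw [hR]; exact lt_min hR₁ hR₂
  have hBt : ∀ z ∈ ball (chartAt ℂ c c) R \ {chartAt ℂ c c}, z ∈ (chartAt ℂ c).target :=
    fun z hz => h2 (ball_subset_ball (by rw [hR]; exact min_le_right _ _) hz.1)
  have hBP : ∀ z ∈ ball (chartAt ℂ c c) R \ {chartAt ℂ c c},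
      ν ((chartAt ℂ c).symm z) ∉ X.P :=
    fun z hz => h1 ⟨ball_subset_ball (by rw [hR]; exact min_le_left _ _) hz.1, hz.2⟩
  have hpc := T1_punct (chartAt ℂ c c) hR0
  -- a point of the punctured ball
  obtain ⟨z₁, hz₁⟩ : (ball (chartAt ℂ c c) R \ {chartAt ℂ c c}).Nonempty := by
    refine ⟨chartAt ℂ c c + ((R / 2 : ℝ) : ℂ), ?_, ?_⟩
    · rw [mem_ball, dist_eq_norm, add_sub_cancel_left, Complex.norm_real, Real.norm_eq_abs,
        abs_of_pos (by linarith)]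
      linarith
    · intro h
      have h3 : ((R / 2 : ℝ) : ℂ) = 0 := by
        have h4 : chartAt ℂ c c + ((R / 2 : ℝ) : ℂ) = chartAt ℂ c c := h
        simpa using h4
      have h5 : R / 2 = 0 := by exact_mod_cast h3
      linarith
  obtain ⟨A, hA, hEx⟩ := ex_exists X hν hσ (hBP z₁ hz₁)
  obtain ⟨V₁, hV₁⟩ : ∃ V : Set ℂ, V = {z | z ∈ (chartAt ℂ c).target ∧
    Ex X A ν σ ((chartAt ℂ c).symm z)} := ⟨_, rfl⟩
  obtain ⟨V₂, hV₂⟩ : ∃ V : Set ℂ, V = {z | z ∈ (chartAt ℂ c).target ∧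
    ∃ A', A' ≠ A ∧ Ex X A' ν σ ((chartAt ℂ c).symm z)} := ⟨_, rfl⟩
  have hopen : ∀ A' z, z ∈ (chartAt ℂ c).target → Ex X A' ν σ ((chartAt ℂ c).symm z) →
      ∀ᶠ z' in 𝓝 z, z' ∈ (chartAt ℂ c).target ∧ Ex X A' ν σ ((chartAt ℂ c).symm z') := by
    intro A' z hz h
    have h3 := ((chartAt ℂ c).continuousAt_symm hz).eventually (ex_near X h)
    filter_upwards [(chartAt ℂ c).open_target.mem_nhds hz, h3] with z' h4 h5
    exact ⟨h4, h5⟩
  have ho1 : IsOpen V₁ := by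
    rw [isOpen_iff_mem_nhds]
    intro z hz
    rw [hV₁] at hz ⊢
    exact hopen A z hz.1 hz.2
  have ho2 : IsOpen V₂ := by
    rw [isOpen_iff_mem_nhds]
    intro z hz
    rw [hV₂] at hz ⊢
    obtain ⟨h3, A', h4, h5⟩ := hz
    filter_upwards [hopen A' z h3 h5] with z' h6
    exact ⟨h6.1, A', h4, h6.2⟩
  have hall : ∀ z ∈ ball (chartAt ℂ c c) R \ {chartAt ℂ c c},
      Ex X A ν σ ((chartAt ℂ c).symm z) := by
    intro z hz
    by_contra hcon
    have hz2 : z ∈ V₂ := by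
      rw [hV₂]
      obtain ⟨A', -, h4⟩ := ex_exists X hν hσ (hBP z hz)
      refine ⟨hBt z hz, A', fun h => hcon ?_, h4⟩
      rw [h] at h4
      exact h4
    have hz1 : z₁ ∈ V₁ := by
      rw [hV₁]
      exact ⟨hBt z₁ hz₁, hEx⟩
    obtain ⟨z', hz', h5, h6⟩ := hpc V₁ V₂ ho1 ho2 (by
      intro z' hz'
      obtain ⟨A', -, h4⟩ := ex_exists X hν hσ (hBP z' hz')
      by_cases h : A' = A
      · left
        rw [h] at h4
        rw [hV₁]
        exact ⟨hBt z' hz', h4⟩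
      · right
        rw [hV₂]
        exact ⟨hBt z' hz', A', h, h4⟩) ⟨z₁, hz₁, hz1⟩ ⟨z, hz, hz2⟩
    rw [hV₁] at h5
    rw [hV₂] at h6
    obtain ⟨-, A', h7, h8⟩ := h6
    exact h7 (ex_unique X hν hσ (hBP z' hz') h8 h5.2)
  have hev : ∀ᶠ c' in 𝓝[≠] c, Ex X A ν σ c' := by
    have h3 : ∀ᶠ z in 𝓝[≠] (chartAt ℂ c c), Ex X A ν σ ((chartAt ℂ c).symm z) := by
      filter_upwards [mem_nhdsWithin_of_mem_nhds (ball_mem_nhds (chartAt ℂ c c) hR0),
        self_mem_nhdsWithin] with z h4 h5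
      exact hall z ⟨h4, h5⟩
    have h4 := (tend_chart c (mem_chart_source ℂ c)).eventually h3
    filter_upwards [h4, mem_nhdsWithin_of_mem_nhds
      ((chartAt ℂ c).open_source.mem_nhds (mem_chart_source ℂ c))] with c' h5 h6
    rwa [(chartAt ℂ c).left_inv h6] at h5
  refine ⟨A, hA, hev, fun hc => ?_⟩
  obtain ⟨A', -, h3⟩ := ex_exists X hν hσ hc
  have hne : (𝓝[≠] c).NeBot := by
    have h4 := tend_symm c hzt
    rw [hs] at h4
    exact h4.neBot
  have h8 : ∀ᶠ c' in 𝓝[≠] c, Ex X A' ν σ c' := nhdsWithin_le_nhds (ex_near X h3)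
  obtain ⟨c', ⟨h5, h6⟩, h7⟩ := ((h8.and hev).and hP).exists
  rw [ex_unique X hν hσ h7 h6 h5]
  exact h3

end Pool.Agent.Nef6.UM
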